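import Mathlib
import Pool.Agent.Work.MP_a5099b_nt.J.Stmt

/-!
Definitions for the zero-infinity law (fixed).
-/

set_option autoImplicit false

namespace Pool.Agent.SS

open NumberField IsDedekindDomain

/-- The modular polynomial of level 2: `Phi2 x y = 0` if `x` and `y` are the invariants of two
elliptic curves with an isogeny of degree 2 between them. -/
def Phi2 {R : Type*} [CommRing R] (x y : R) : R :=
  x ^ 3 + y ^ 3 - x ^ 2 * y ^ 2 + 1488 * (x ^ 2 * y + x * y ^ 2) - 162000 * (x ^ 2 + y ^ 2) +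
    40773375 * x * y + 8748000000 * (x + y) - 157464000000000

variable {K : Type} [Field K] [NumberField K]

/-- The `j`-invariant `c₄ ^ 3 / Δ`. -/
noncomputable def jay (W : WeierstrassCurve (𝓞 K)) : K := (W.c₄ : K) ^ 3 / (W.Δ : K)

open Classical in
/-- The product of `(σ Δ * τ Δ) ^ 4 * (σ j - τ j) * Phi2 (σ j) (τ j)` over the pairs of complex
embeddings `σ`, `τ` of `K` with `σ j ≠ τ j` (it is an integer). -/
noncomputable def DD (W : WeierstrassCurve (𝓞 K)) : ℂ :=
  ∏ p : (K →+* ℂ) × (K →+* ℂ), if p.1 (jay W) = p.2 (jay W) then 1 else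
    (p.1 (W.Δ : K) * p.2 (W.Δ : K)) ^ 4 * (p.1 (jay W) - p.2 (jay W)) *
      Phi2 (p.1 (jay W)) (p.2 (jay W))

/-- The exceptional integer. -/
noncomputable def bad (W : WeierstrassCurve (𝓞 K)) : ℂ :=
  30 * (discr K : ℂ) *
    ((Algebra.norm ℤ (W.c₄ * W.c₆ * (W.c₄ ^ 3 - 8000 * W.Δ)) : ℤ) : ℂ) * DD W

end Pool.Agent.SS
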