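import Mathlib
import Pool.Agent.Work.MP_a5099b_nt.ZI.LDefs

/-!
# Module ZI/Fld (size M): the field `k = ℚ(j)` and a curve over `𝓞 k` with invariant `j`

PROOF. `j = jay W ≠ 0, 1728` (a rational number has real images; there is an embedding `K →+* ℂ`). `k := ℚ⟮j⟯` (`IntermediateField.adjoin ℚ {j}`, a type `↥(ℚ⟮j⟯)` in `Type`; `NumberField` instance from finite-dimensionality inside `K`), `algebraMap k K` the inclusion, `j = algebraMap k K j₀`.
(1) `IsTotallyComplex k`: an embedding `σ : k →+* ℂ` extends to `K` (`ℂ` algebraically closed, `K/k` algebraic: e.g. `IntermediateField.exists_algHom_of_adjoin_splits`, `IsAlgClosed.lift`), so `(σ j₀).im ≠ 0`, so `σ` is not real (`ComplexEmbedding.IsReal`); `isTotallyComplex_iff`, every infinite place comes from an embedding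
(`InfinitePlace.isComplex_iff`).
(2) the last property: `σ j₀ = τ j₀` implies `σ = τ` because `j₀` generates `k` over `ℚ` (`IntermediateField.algHom_ext_of_eq_adjoin`, `RingHom.toRatAlgHom`, `IntermediateField.adjoin.powerBasis`, `PowerBasis.algHom_ext`).
(3) `j₀ = c / d` with `c, d ∈ 𝓞 k`, `d ≠ 0` (fraction field); `c ≠ 0`, `c ≠ 1728 d`. `W₀ := ⟨0, 0, 0, a, b⟩` with `a = 3 c (1728 d - c) d^2`, `b = 2 c (1728 d - c)^2 d^3`. `4 a^3 + 27 b^2 = 108 * 1728 * c^2 (1728 d - c)^3 d^7`, `W₀.Δ = -16 (4 a^3 + 27 b^2) ≠ 0`, `W₀.c₄ = -48 a`, and `W₀.c₄^3 * d = c * W₀.Δ` (`ring`), so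
`jay W₀ = c / d = j₀`; and `W₀.c₄^3 * W.Δ = W.c₄^3 * W₀.Δ` in `K`, hence in `𝓞 K` (`jay W = W.c₄^3 / W.Δ`, cancel `d`).
-/

set_option autoImplicit false

namespace Pool.Agent.SS.ZI

open NumberField IsDedekindDomain

private theorem extend_emb {K : Type} [Field K] [NumberField K] (k : IntermediateField ℚ K)
    (σ : k →+* ℂ) : ∃ τ : K →+* ℂ, ∀ x : k, τ (algebraMap k K x) = σ x := by
  let _ : Algebra k ℂ := σ.toAlgebra
  have : Algebra.IsAlgebraic k K := Algebra.IsAlgebraic.of_finite k K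
  let τ : K →ₐ[k] ℂ := IsAlgClosed.lift
  exact ⟨τ.toRingHom, fun x => τ.commutes x⟩

private theorem curve_id {R : Type*} [CommRing R] (c d : R) :
    let W : WeierstrassCurve R := ⟨0, 0, 0, 3 * c * (1728 * d - c) * d ^ 2,
      2 * c * (1728 * d - c) ^ 2 * d ^ 3⟩
    W.c₄ ^ 3 * d = c * W.Δ ∧
      W.Δ = -(16 * 108 * 1728) * (c ^ 2 * (1728 * d - c) ^ 3 * d ^ 7) := by
  intro W
  constructor
  · simp only [W, WeierstrassCurve.c₄, WeierstrassCurve.Δ, WeierstrassCurve.b₂,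
      WeierstrassCurve.b₄, WeierstrassCurve.b₆, WeierstrassCurve.b₈]
    ring
  · simp only [W, WeierstrassCurve.Δ, WeierstrassCurve.b₂,
      WeierstrassCurve.b₄, WeierstrassCurve.b₆, WeierstrassCurve.b₈]
    ring

theorem exists_subfield {K : Type} [Field K] [NumberField K] (W : WeierstrassCurve (𝓞 K))
    (hW : W.Δ ≠ 0) (him : ∀ σ : K →+* ℂ, (σ (jay W)).im ≠ 0) :
    ∃ (k : Type) (_ : Field k) (_ : NumberField k) (_ : IsTotallyComplex k) (_ : Algebra k K)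
      (W₀ : WeierstrassCurve (𝓞 k)), W₀.Δ ≠ 0 ∧
        algebraMap (𝓞 k) (𝓞 K) (W₀.c₄ ^ 3) * W.Δ = W.c₄ ^ 3 * algebraMap (𝓞 k) (𝓞 K) W₀.Δ ∧
        algebraMap k K (jay W₀) = jay W ∧
        ∀ σ τ : k →+* ℂ, σ (jay W₀) = τ (jay W₀) → σ = τ := by
  classical
  let k : IntermediateField ℚ K := IntermediateField.adjoin ℚ {jay W}
  have hjk : jay W ∈ k := IntermediateField.mem_adjoin_simple_self ℚ (jay W)
  let j₀ : k := ⟨jay W, hjk⟩
  have hj0 : algebraMap k K j₀ = jay W := rfl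
  have him0 : ∀ σ : k →+* ℂ, (σ j₀).im ≠ 0 := by
    intro σ
    obtain ⟨τ, hτ⟩ := extend_emb k σ
    rw [← hτ j₀, hj0]
    exact him τ
  have htc : IsTotallyComplex k := by
    refine ⟨fun v => ?_⟩
    rw [InfinitePlace.isComplex_iff]
    intro h
    have h1 := ComplexEmbedding.isReal_iff.1 h
    have h2 := RingHom.congr_fun h1 j₀
    rw [ComplexEmbedding.conjugate_coe_eq] at h2
    exact him0 v.embedding (Complex.conj_eq_iff_im.1 h2)
  have hinj : ∀ σ τ : k →+* ℂ, σ j₀ = τ j₀ → σ = τ := by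
    intro σ τ h
    have h1 : σ.toRatAlgHom = τ.toRatAlgHom := by
      refine IntermediateField.algHom_ext_of_eq_adjoin ℚ (S := k) (s := {jay W}) rfl ?_
      intro x hx
      have hx' : x = jay W := hx
      subst hx'
      exact h
    ext x
    exact DFunLike.congr_fun h1 x
  obtain ⟨c, d, hd, hcd⟩ := IsFractionRing.div_surjective (A := 𝓞 k) j₀
  have hd0 : d ≠ 0 := nonZeroDivisors.ne_zero hd
  have hd0' : (algebraMap (𝓞 k) k d) ≠ 0 := by
    rw [Ne, FaithfulSMul.algebraMap_eq_zero_iff (𝓞 k) k]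
    exact hd0
  obtain ⟨σ₀⟩ : Nonempty (k →+* ℂ) := inferInstance
  have hrat : ∀ q : ℚ, j₀ ≠ algebraMap ℚ k q := by
    intro q hq
    apply him0 σ₀
    rw [hq, eq_ratCast, map_ratCast]
    exact Complex.ratCast_im q
  have hc0 : c ≠ 0 := by
    rintro rfl
    apply hrat 0
    rw [← hcd, map_zero, zero_div, map_zero]
  have he0 : 1728 * d - c ≠ 0 := by
    intro h
    apply hrat 1728
    have hc : c = 1728 * d := (sub_eq_zero.1 h).symm
    rw [← hcd, hc, map_mul, mul_div_assoc, div_self hd0', mul_one]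
    have h1 : algebraMap (𝓞 k) k 1728 = ((1728 : ℕ) : k) := map_natCast (algebraMap (𝓞 k) k) 1728
    have h2 : algebraMap ℚ k 1728 = ((1728 : ℕ) : k) := map_natCast (algebraMap ℚ k) 1728
    rw [h1, h2]
  obtain ⟨hid1, hid2⟩ := curve_id c d
  set W₀ : WeierstrassCurve (𝓞 k) := ⟨0, 0, 0, 3 * c * (1728 * d - c) * d ^ 2,
      2 * c * (1728 * d - c) ^ 2 * d ^ 3⟩ with hW0def
  have hΔ0 : W₀.Δ ≠ 0 := by
    rw [hid2]
    refine mul_ne_zero ?_ (mul_ne_zero (mul_ne_zero (pow_ne_zero _ hc0) (pow_ne_zero _ he0))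
      (pow_ne_zero _ hd0))
    norm_num
  have hΔ0' : algebraMap (𝓞 k) k W₀.Δ ≠ 0 := by
    rw [Ne, FaithfulSMul.algebraMap_eq_zero_iff (𝓞 k) k]
    exact hΔ0
  have hjay : jay W₀ = j₀ := by
    have h1 : jay W₀ = algebraMap (𝓞 k) k W₀.c₄ ^ 3 / algebraMap (𝓞 k) k W₀.Δ := rfl
    rw [h1, ← hcd, div_eq_div_iff hΔ0' hd0', ← map_pow, ← map_mul, ← map_mul, hid1]
  refine ⟨k, inferInstance, inferInstance, htc, inferInstance, W₀, hΔ0, ?_, ?_, ?_⟩
  · apply FaithfulSMul.algebraMap_injective (𝓞 K) K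
    have hΔK : algebraMap (𝓞 K) K W.Δ ≠ 0 := by
      rw [Ne, FaithfulSMul.algebraMap_eq_zero_iff (𝓞 K) K]
      exact hW
    have hcomm : ∀ x : 𝓞 k, algebraMap (𝓞 K) K (algebraMap (𝓞 k) (𝓞 K) x) =
        algebraMap k K (algebraMap (𝓞 k) k x) := fun x => rfl
    have hjW : jay W * algebraMap (𝓞 K) K W.Δ = algebraMap (𝓞 K) K W.c₄ ^ 3 := by
      have h1 : jay W = algebraMap (𝓞 K) K W.c₄ ^ 3 / algebraMap (𝓞 K) K W.Δ := rfl
      rw [h1, div_mul_cancel₀ _ hΔK]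
    have hj1 : jay W * algebraMap k K (algebraMap (𝓞 k) k W₀.Δ) =
        algebraMap k K (algebraMap (𝓞 k) k (W₀.c₄ ^ 3)) := by
      rw [← hj0, ← hjay, ← map_mul]
      congr 1
      have h1 : jay W₀ = algebraMap (𝓞 k) k W₀.c₄ ^ 3 / algebraMap (𝓞 k) k W₀.Δ := rfl
      rw [h1, div_mul_cancel₀ _ hΔ0', map_pow]
    rw [map_mul, map_mul, hcomm, hcomm, ← hj1, map_pow, ← hjW]
    ring
  · rw [hjay]
    exact hj0
  · intro σ τ h
    rw [hjay] at h
    exact hinj σ τ h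

end Pool.Agent.SS.ZI
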