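import Mathlib
import Pool.Agent.Work.MP_a5099b_nt.ZI.LDefs
import Pool.Agent.Work.MP_a5099b_nt.H.Aut

/-!
# Module ZI/DInt (size S-M): the number `DD W` is an integer

PROOF. Let `D = DD W`, `α = W.c₄ ^ 3`, `β = W.Δ`, `j = α / β`.
(1) `D` is integral over `ℤ`: every factor is 1 or `(σ α * τ β - τ α * σ β) * (σ β * τ β) ^ 3 * Phi2 (σ j) (τ j)` and `(σ β * τ β) ^ 3 * Phi2 (σ α / σ β) (τ α / τ β)` is a polynomial with integer coefficients in `σ α, σ β, τ α, τ β` (`field_simp`; `Phi2` has degree 3 in each variable); `σ`, `τ` map `𝓞 K` to algebraic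
integers (`map_isIntegral_int`); `IsIntegral.mul, .add, .pow`, `IsIntegral.prod`.
(2) For every automorphism `g : ℂ ≃+* ℂ`: `g D = D`: `map_prod`, and `(σ, τ) ↦ (g ∘ σ, g ∘ τ)` is a bijection of the pairs of embeddings (`Fintype.prod_equiv` or `Finset.prod_bijective`) under which the factors correspond (`g (σ j) = g (τ j)` iff `σ j = τ j`).
(3) `D` is algebraic over `ℚ`; if `r` is a complex root of `minpoly ℚ D` then `minpoly ℚ D = minpoly ℚ r` (irreducible, monic: `minpoly.eq_of_irreducible_of_monic`), `exists_aut` (H/Aut.lean): `g D = r`, so `r = D`. So `minpoly ℚ D` has the only complex root `D`; it is separable (`ℚ` has characteristic 0) and splits over `ℂ`, so it has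
degree 1 and `D ∈ ℚ`. (4) An algebraic integer in `ℚ` is in `ℤ` (`IsIntegrallyClosed`, `IsInteger`; e.g. `isIntegral_iff` / `IsIntegrallyClosed.isIntegral_iff` for `ℤ ⊆ ℚ`).
-/

set_option autoImplicit false

namespace Pool.Agent.SS.ZI

open NumberField IsDedekindDomain
open Pool.Agent.SS.HB

variable {K : Type} [Field K] [NumberField K]

private noncomputable def Pz {R : Type*} [CommRing R] (a b c d : R) : R :=
  (a * d - c * b) * (a ^ 3 * d ^ 3 + c ^ 3 * b ^ 3 - a ^ 2 * c ^ 2 * b * d +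
    1488 * (a ^ 2 * c * b * d ^ 2 + a * c ^ 2 * b ^ 2 * d) -
    162000 * (a ^ 2 * b * d ^ 3 + c ^ 2 * b ^ 3 * d) + 40773375 * a * c * b ^ 2 * d ^ 2 +
    8748000000 * (a * b ^ 2 * d ^ 3 + c * b ^ 3 * d ^ 2) - 157464000000000 * b ^ 3 * d ^ 3)

private theorem factor_eq {a b c d : ℂ} (hb : b ≠ 0) (hd : d ≠ 0) :
    (b * d) ^ 4 * (a / b - c / d) * Phi2 (a / b) (c / d) = Pz a b c d := by
  unfold Phi2 Pz
  field_simp

private theorem Pz_integral {a b c d : ℂ} (ha : IsIntegral ℤ a) (hb : IsIntegral ℤ b)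
    (hc : IsIntegral ℤ c) (hd : IsIntegral ℤ d) : IsIntegral ℤ (Pz a b c d) := by
  have h := (Pz (⟨a, ha⟩ : integralClosure ℤ ℂ) ⟨b, hb⟩ ⟨c, hc⟩ ⟨d, hd⟩).2
  have e : ((Pz (⟨a, ha⟩ : integralClosure ℤ ℂ) ⟨b, hb⟩ ⟨c, hc⟩ ⟨d, hd⟩ :
      integralClosure ℤ ℂ) : ℂ) = Pz a b c d := by
    unfold Pz
    push_cast
    rfl
  rw [e] at h
  exact h

private theorem phi2_map (g : ℂ ≃+* ℂ) (x y : ℂ) : g (Phi2 x y) = Phi2 (g x) (g y) := by
  unfold Phi2
  simp only [map_add, map_sub, map_mul, map_pow, map_ofNat]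

private noncomputable def actE (g : ℂ ≃+* ℂ) : (K →+* ℂ) ≃ (K →+* ℂ) where
  toFun σ := g.toRingHom.comp σ
  invFun σ := g.symm.toRingHom.comp σ
  left_inv σ := by
    ext x
    simp
  right_inv σ := by
    ext x
    simp

private theorem DD_inv (W : WeierstrassCurve (𝓞 K)) (g : ℂ ≃+* ℂ) : g (DD W) = DD W := by
  unfold DD
  rw [map_prod]
  refine Fintype.prod_equiv ((actE (K := K) g).prodCongr (actE (K := K) g)) _ _ ?_
  intro p
  have e1 : ((actE (K := K) g).prodCongr (actE (K := K) g) p).1 = g.toRingHom.comp p.1 := rfl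
  have e2 : ((actE (K := K) g).prodCongr (actE (K := K) g) p).2 = g.toRingHom.comp p.2 := rfl
  rw [e1, e2]
  have e3 : ∀ (σ : K →+* ℂ) (x : K), (g.toRingHom.comp σ) x = g (σ x) := fun _ _ => rfl
  simp only [e3]
  by_cases hp : p.1 (jay W) = p.2 (jay W)
  · rw [if_pos hp, if_pos (by rw [hp]), map_one]
  · rw [if_neg hp, if_neg (fun h => hp (g.injective h))]
    simp only [map_mul, map_pow, map_sub, phi2_map]

private theorem DD_integral (W : WeierstrassCurve (𝓞 K)) (hW : W.Δ ≠ 0) :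
    IsIntegral ℤ (DD W) := by
  unfold DD
  refine IsIntegral.prod _ fun p _ => ?_
  by_cases hp : p.1 (jay W) = p.2 (jay W)
  · rw [if_pos hp]
    exact isIntegral_one
  · rw [if_neg hp]
    have hne : (W.Δ : K) ≠ 0 := by
      intro h
      exact hW (by exact_mod_cast h)
    have h1 : ∀ σ : K →+* ℂ, σ (jay W) = (σ (W.c₄ : K)) ^ 3 / σ (W.Δ : K) := by
      intro σ
      unfold jay
      rw [map_div₀, map_pow]
    have h2 : ∀ σ : K →+* ℂ, σ (W.Δ : K) ≠ 0 := fun σ => (map_ne_zero σ).2 hne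
    have h3 : ∀ (σ : K →+* ℂ) (x : 𝓞 K), IsIntegral ℤ (σ (x : K)) := fun σ x =>
      map_isIntegral_int σ x.2
    rw [h1, h1, factor_eq (h2 p.1) (h2 p.2)]
    exact Pz_integral ((h3 _ _).pow 3) (h3 _ _) ((h3 _ _).pow 3) (h3 _ _)

theorem DD_int (W : WeierstrassCurve (𝓞 K)) (hW : W.Δ ≠ 0) : ∃ N : ℤ, (N : ℂ) = DD W := by
  classical
  have hint := DD_integral W hW
  have hintQ : IsIntegral ℚ (DD W) := hint.tower_top
  have halg : IsAlgebraic ℚ (DD W) := hintQ.isAlgebraic
  have hirr := minpoly.irreducible hintQ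
  have hmon := minpoly.monic hintQ
  have hroot : ∀ r ∈ ((minpoly ℚ (DD W)).map (algebraMap ℚ ℂ)).roots, r = DD W := by
    intro r hr
    have hne : (minpoly ℚ (DD W)).map (algebraMap ℚ ℂ) ≠ 0 :=
      (hmon.map _).ne_zero
    have hr1 : Polynomial.aeval r (minpoly ℚ (DD W)) = 0 := by
      have := (Polynomial.mem_roots hne).1 hr
      rw [Polynomial.IsRoot.def, Polynomial.eval_map] at this
      rwa [Polynomial.aeval_def]
    have hmp : minpoly ℚ (DD W) = minpoly ℚ r :=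
      minpoly.eq_of_irreducible_of_monic hirr hr1 hmon
    obtain ⟨g, hg⟩ := exists_aut halg hmp
    rw [← hg]
    exact DD_inv W g
  have hsep : (minpoly ℚ (DD W)).Separable := hirr.separable
  have hnod : ((minpoly ℚ (DD W)).map (algebraMap ℚ ℂ)).roots.Nodup :=
    Polynomial.nodup_roots hsep.map
  have hcard : ((minpoly ℚ (DD W)).map (algebraMap ℚ ℂ)).roots.card =
      (minpoly ℚ (DD W)).natDegree := by
    have h1 : ((minpoly ℚ (DD W)).map (algebraMap ℚ ℂ)).Splits := IsAlgClosed.splits _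
    have h2 := h1.natDegree_eq_card_roots
    rw [Polynomial.natDegree_map] at h2
    exact h2.symm
  have hle : ((minpoly ℚ (DD W)).map (algebraMap ℚ ℂ)).roots.card ≤ 1 := by
    rw [← Multiset.toFinset_card_of_nodup hnod]
    refine Finset.card_le_one.2 ?_
    intro a ha b hb
    rw [Multiset.mem_toFinset] at ha hb
    rw [hroot a ha, hroot b hb]
  have hpos : 0 < (minpoly ℚ (DD W)).natDegree := minpoly.natDegree_pos hintQ
  have hdeg : (minpoly ℚ (DD W)).natDegree = 1 := by omega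
  obtain ⟨r, hr⟩ := minpoly.natDegree_eq_one_iff.1 hdeg
  have hri : IsIntegral ℤ r := by
    have h1 : IsIntegral ℤ (algebraMap ℚ ℂ r) := by
      rw [hr]
      exact hint
    exact (isIntegral_algebraMap_iff (algebraMap ℚ ℂ).injective).1 h1
  obtain ⟨N, hN⟩ := IsIntegrallyClosed.isIntegral_iff.1 hri
  refine ⟨N, ?_⟩
  rw [← hr, ← hN]
  simp

end Pool.Agent.SS.ZI
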