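import Mathlib
import Pool.Agent.Work.MP_a5099b_nt.H.HDefs

/-!
# Module ZI/EmbP (size M): every place above `q` comes from an embedding into `ℂ` and a fixed reduction

PROOF. Let `τ : K →+* ℂ` be an embedding, `N` an intermediate field of `ℂ / ℚ`, finite and Galois over `ℚ`, which contains `τ K` (`normalClosure ℚ K ℂ`, or the splitting field inside `ℂ` of the minimal polynomial of a primitive element). `B = 𝓞 N` (or `integralClosure ℤ N`); `Q :=` the kernel of
`B → integralClosure ℤ ℂ → k` (`red`), a prime ideal containing `q`. `τ` maps `𝓞 K` into `B`; `B` is integral over `𝓞 K`, so there is a prime `Q'` of `B` whose preimage in `𝓞 K` is `v` (lying over: `Ideal.exists_ideal_over_prime_of_isIntegral` or `Ideal.exists_ideal_lies_over...`). `Q` and `Q'` lie over the same prime `(q)` of `ℤ`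
(both contain `q` and are proper), so there is `g` in `Gal(N/ℚ)` with `g • Q' = Q` (transitivity: `Algebra.IsInvariant.exists_smul_of_under_eq`, see Mathlib/RingTheory/Invariant/Basic.lean, or `exists_map_eq_of_isGalois` for `Ideal.primesOver`). `σ := g ∘ τ` (with `N ⊆ ℂ`): for `x ∈ 𝓞 K`: `x ∈ v` iff `τ x ∈ Q'` iff `g (τ x) ∈ Q`
iff `red (σ x) = 0`.
-/

set_option autoImplicit false

namespace Pool.Agent.SS.ZI

open NumberField IsDedekindDomain
open Pool.Agent.SS.HB

variable {K : Type} [Field K] [NumberField K]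

open scoped Pointwise in
theorem exists_emb_place {q : ℕ} (hq : q.Prime) {k : Type} [Field k] [CharP k q]
    (red : integralClosure ℤ ℂ →+* k) (v : HeightOneSpectrum (𝓞 K))
    (hv : (q : 𝓞 K) ∈ v.asIdeal) :
    ∃ σ : K →+* ℂ, ∀ x : 𝓞 K, x ∈ v.asIdeal ↔ RedTo red (σ (x : K)) 0 := by
  -- an embedding, the normal closure
  let τ : K →ₐ[ℚ] ℂ := IsAlgClosed.lift
  let N : IntermediateField ℚ ℂ := IntermediateField.normalClosure ℚ K ℂ
  haveI : FiniteDimensional ℚ N := normalClosure.is_finiteDimensional ℚ K ℂ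
  haveI : IsNormalClosure ℚ K N :=
    Algebra.IsAlgebraic.isNormalClosure_normalClosure (fun x => IsAlgClosed.splits _)
  haveI : Normal ℚ N := IsNormalClosure.normal (K := K)
  haveI : IsGalois ℚ N := ⟨⟩
  haveI : NumberField N := ⟨⟩
  let τN : K →ₐ[ℚ] N := τ.codRestrict N.toSubalgebra
    (fun x => AlgHom.fieldRange_le_normalClosure τ ⟨x, rfl⟩)
  have hτN : ∀ x : K, ((τN x : N) : ℂ) = τ x := fun x => rfl
  letI algN : Algebra (𝓞 K) (𝓞 N) := (RingOfIntegers.mapRingHom τN).toAlgebra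
  haveI : Algebra.IsIntegral (𝓞 K) (𝓞 N) := by
    haveI : IsScalarTower ℤ (𝓞 K) (𝓞 N) := IsScalarTower.of_algebraMap_eq' (Subsingleton.elim _ _)
    exact Algebra.IsIntegral.tower_top (R := ℤ)
  have halg : ∀ x : 𝓞 K, ((algebraMap (𝓞 K) (𝓞 N) x : 𝓞 N) : N) = τN x := fun x => rfl
  -- the prime from the reduction
  let ψ : 𝓞 N →+* integralClosure ℤ ℂ :=
    { toFun := fun b => ⟨((b : N) : ℂ), by
        have := b.2
        rw [mem_integralClosure_iff] at this ⊢
        exact this.map (N.val.restrictScalars ℤ)⟩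
      map_one' := rfl
      map_zero' := rfl
      map_add' := fun _ _ => rfl
      map_mul' := fun _ _ => rfl }
  let Q : Ideal (𝓞 N) := RingHom.ker (red.comp ψ)
  haveI hQp : Q.IsPrime := RingHom.ker_isPrime _
  have hqQ : (q : 𝓞 N) ∈ Q := by
    rw [RingHom.mem_ker, map_natCast]
    exact CharP.cast_eq_zero k q
  obtain ⟨Q', -, hQ'p, hQ'⟩ := Ideal.exists_ideal_over_prime_of_isIntegral (S := 𝓞 N) v.asIdeal
    (⊥ : Ideal (𝓞 N)) (by
      intro x hx
      rw [Ideal.mem_comap, Ideal.mem_bot] at hx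
      have h1 : τN (x : K) = 0 := by rw [← halg, hx]; rfl
      have h2 : (x : K) = 0 := (map_eq_zero_iff _ τN.toRingHom.injective).1 h1
      have h3 : x = 0 := by exact_mod_cast h2
      rw [h3]
      exact v.asIdeal.zero_mem)
  have hqQ' : (q : 𝓞 N) ∈ Q' := by
    have : (q : 𝓞 K) ∈ Q'.comap (algebraMap (𝓞 K) (𝓞 N)) := by rw [hQ']; exact hv
    rw [Ideal.mem_comap, map_natCast] at this
    exact this
  have key : ∀ P : Ideal (𝓞 N), P.IsPrime → (q : 𝓞 N) ∈ P → P.under ℤ = Ideal.span {(q : ℤ)} := by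
    intro P hP hqP
    haveI : (Ideal.span {(q : ℤ)}).IsMaximal :=
      PrincipalIdealRing.isMaximal_of_irreducible (Nat.prime_iff_prime_int.1 hq).irreducible
    symm
    apply Ideal.IsMaximal.eq_of_le this
    · exact (Ideal.IsPrime.under ℤ P).ne_top
    · rw [Ideal.span_singleton_le_iff_mem, Ideal.under_def, Ideal.mem_comap]
      simpa using hqP
  letI act := IsIntegralClosure.MulSemiringAction ℤ ℚ N (𝓞 N)
  haveI inv : Algebra.IsInvariant ℤ (𝓞 N) Gal(N/ℚ) := Algebra.isInvariant_of_isGalois ℤ ℚ N (𝓞 N)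
  haveI : SMulCommClass Gal(N/ℚ) ℤ (𝓞 N) := ⟨fun g a b => by
    exact map_zsmul (DistribMulAction.toAddMonoidHom (𝓞 N) g) a b⟩
  obtain ⟨g, hg⟩ := Algebra.IsInvariant.exists_smul_of_under_eq ℤ (𝓞 N) Gal(N/ℚ) Q' Q
    ((key Q' hQ'p hqQ').trans (key Q hQp hqQ).symm)
  have hgb : ∀ b : 𝓞 N, ((g • b : 𝓞 N) : N) = g (b : N) := fun b =>
    algebraMap_galRestrict_apply ℤ g b
  refine ⟨(N.val.comp ((g : N →ₐ[ℚ] N).comp τN)).toRingHom, fun x => ?_⟩
  have h1 : x ∈ v.asIdeal ↔ algebraMap (𝓞 K) (𝓞 N) x ∈ Q' := by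
    rw [← hQ', Ideal.mem_comap]
  have h2 : algebraMap (𝓞 K) (𝓞 N) x ∈ Q' ↔ g • (algebraMap (𝓞 K) (𝓞 N) x) ∈ Q := by
    rw [hg, Ideal.smul_mem_pointwise_smul_iff]
  have h3 : ((ψ (g • (algebraMap (𝓞 K) (𝓞 N) x)) : integralClosure ℤ ℂ) : ℂ) =
      (N.val.comp ((g : N →ₐ[ℚ] N).comp τN)).toRingHom (x : K) := by
    change (((g • (algebraMap (𝓞 K) (𝓞 N) x) : 𝓞 N) : N) : ℂ) = _
    rw [hgb, halg]
    rfl
  rw [h1, h2, RingHom.mem_ker]
  constructor
  · intro h
    refine ⟨?_, ?_⟩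
    · rw [← h3]; exact (ψ _).2
    · rw [← h]
      change red _ = red _
      congr 1
      exact Subtype.ext h3.symm
  · rintro ⟨hz, hz0⟩
    change red _ = 0
    rw [← hz0]
    congr 1
    exact Subtype.ext h3

end Pool.Agent.SS.ZI
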