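import Mathlib
import Pool.Agent.Work.MP_a5099b_nt.J.Stmt
import Pool.Agent.Work.MP_a5099b_nt.J.Frac
import Pool.Agent.Work.MP_a5099b_nt.J.Res
import Pool.Agent.Work.MP_a5099b_nt.SpecC

/-!
# Module ZI/JDown (size M): residues of the invariant over `K` and over a subfield `k`

Let `c = W₀.c₄ ^ 3`, `d = W₀.Δ` (in `𝓞 k`, and their images in `𝓞 K`), `hj : c * W.Δ = W.c₄ ^ 3 * d` in `𝓞 K`.
* `jmod_up`: `β c = α d` in `𝓞 k`, `β ∉ v₀`, `α - n β ∈ v₀`: the images `α, β` work for `W`: `β W.c₄ ^ 3 d = β c W.Δ = α d W.Δ`, cancel `d ≠ 0`.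
* `jmod_down`: let `β W.c₄ ^ 3 = α W.Δ`, `β ∉ v`, `α - n β ∈ v`. As above `β c = α d` in `𝓞 K` (cancel `W.Δ`). Let `c' = c - n d ∈ 𝓞 k`: `β c' = (α - n β) d`. (`exists_frac` is in J/Frac, `ord` in J/Defs.)
If `c' = 0` or `ord v₀ d ≤ ord v₀ c'`: `exists_frac v₀ c' d`: `β₁ c' = α₁ d`, `β₁ ∉ v₀`. Then `β α₁ d = β β₁ c' = β₁ (α - n β) d`, so `β α₁ = β₁ (α - n β) ∈ v`, `β ∉ v`: `α₁ ∈ v`, so `α₁ ∈ v₀`. Take `β₁` and `α₂ := α₁ + n β₁`: `β₁ c = β₁ c' + n β₁ d = α₂ d`, `α₂ - n β₁ = α₁ ∈ v₀`.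
Otherwise `c' ≠ 0` and `ord v₀ c' ≤ ord v₀ d`: `exists_frac v₀ d c'`: `β₂ d = α₂ c'`, `β₂ ∉ v₀`. Then `β β₂ d = α₂ β c' = α₂ (α - n β) d`, so `β β₂ = α₂ (α - n β) ∈ v`, but `β ∉ v`, `β₂ ∉ v`: contradiction.
* `pss_of_res`: `z := (n : 𝓞 K / v)` is supersingular (`SSj_map` for `ZMod q →+* 𝓞 K / v`, see J/Res.lean for the `Field` and `CharP` instances); `exists_ab`-type curve: `SSj` gives `a b` with `4 a^3 + 27 b^2 ≠ 0`, `1728 * 4 a^3 = z (4 a^3 + 27 b^2)`, `Hasse q a b = 0`;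
`W' = ⟨0,0,0,a,b⟩`, `W'.c₄ ^ 3 = z W'.Δ`, `card_iff` (see the proof of `not_mem_of_not_pss` in J/Ordn.lean, it is the same). With `α, β` from `JMod W v n`: `mk α = z mk β`.
-/

set_option autoImplicit false

namespace Pool.Agent.SS.ZI

open NumberField IsDedekindDomain
open Pool.Agent.SS.J

variable {k K : Type} [Field k] [NumberField k] [Field K] [NumberField K] [Algebra k K]

theorem jmod_up {W₀ : WeierstrassCurve (𝓞 k)} {W : WeierstrassCurve (𝓞 K)} (h₀ : W₀.Δ ≠ 0)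
    (hj : algebraMap (𝓞 k) (𝓞 K) (W₀.c₄ ^ 3) * W.Δ =
      W.c₄ ^ 3 * algebraMap (𝓞 k) (𝓞 K) W₀.Δ) {v₀ : HeightOneSpectrum (𝓞 k)}
    {v : HeightOneSpectrum (𝓞 K)}
    (hv : ∀ x : 𝓞 k, x ∈ v₀.asIdeal ↔ algebraMap (𝓞 k) (𝓞 K) x ∈ v.asIdeal) {n : ℤ}
    (h : JMod W₀ v₀ n) : JMod W v n := by
  obtain ⟨α, β, hβ, h1, h2⟩ := h
  have hd : algebraMap (𝓞 k) (𝓞 K) W₀.Δ ≠ 0 := fun h0 => h₀
    (NumberField.RingOfIntegers.algebraMap.injective k K (by rw [h0, map_zero]))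
  have h1' := congrArg (algebraMap (𝓞 k) (𝓞 K)) h1
  rw [map_mul, map_mul] at h1'
  refine ⟨algebraMap (𝓞 k) (𝓞 K) α, algebraMap (𝓞 k) (𝓞 K) β, fun h3 => hβ ((hv β).2 h3),
    ?_, ?_⟩
  · apply mul_right_cancel₀ hd
    linear_combination W.Δ * h1' - algebraMap (𝓞 k) (𝓞 K) β * hj
  · have h3 := (hv _).1 h2
    rwa [map_sub, map_mul, map_intCast] at h3

theorem jmod_down {W₀ : WeierstrassCurve (𝓞 k)} {W : WeierstrassCurve (𝓞 K)} (h₀ : W₀.Δ ≠ 0)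
    (hW : W.Δ ≠ 0) (hj : algebraMap (𝓞 k) (𝓞 K) (W₀.c₄ ^ 3) * W.Δ =
      W.c₄ ^ 3 * algebraMap (𝓞 k) (𝓞 K) W₀.Δ) {v₀ : HeightOneSpectrum (𝓞 k)}
    {v : HeightOneSpectrum (𝓞 K)}
    (hv : ∀ x : 𝓞 k, x ∈ v₀.asIdeal ↔ algebraMap (𝓞 k) (𝓞 K) x ∈ v.asIdeal) {n : ℤ}
    (h : JMod W v n) : JMod W₀ v₀ n := by
  obtain ⟨α, β, hβ, h1, h2⟩ := h
  have hd : algebraMap (𝓞 k) (𝓞 K) W₀.Δ ≠ 0 := fun h0 => h₀
    (NumberField.RingOfIntegers.algebraMap.injective k K (by rw [h0, map_zero]))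
  have h3 : β * algebraMap (𝓞 k) (𝓞 K) (W₀.c₄ ^ 3) = α * algebraMap (𝓞 k) (𝓞 K) W₀.Δ := by
    apply mul_right_cancel₀ hW
    linear_combination β * hj + algebraMap (𝓞 k) (𝓞 K) W₀.Δ * h1
  have h4 : β * algebraMap (𝓞 k) (𝓞 K) (W₀.c₄ ^ 3 - n * W₀.Δ) =
      (α - n * β) * algebraMap (𝓞 k) (𝓞 K) W₀.Δ := by
    rw [map_sub, map_mul, map_intCast]
    linear_combination h3
  by_cases hc : W₀.c₄ ^ 3 - n * W₀.Δ = 0 ∨ ord v₀ W₀.Δ ≤ ord v₀ (W₀.c₄ ^ 3 - n * W₀.Δ)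
  · obtain ⟨α₁, β₁, hβ₁, h5⟩ := exists_frac v₀ (W₀.c₄ ^ 3 - n * W₀.Δ) W₀.Δ h₀ hc
    have h5' := congrArg (algebraMap (𝓞 k) (𝓞 K)) h5
    rw [map_mul, map_mul] at h5'
    have h6 : β * algebraMap (𝓞 k) (𝓞 K) α₁ = algebraMap (𝓞 k) (𝓞 K) β₁ * (α - n * β) := by
      apply mul_right_cancel₀ hd
      linear_combination algebraMap (𝓞 k) (𝓞 K) β₁ * h4 - β * h5'
    have h7 : β * algebraMap (𝓞 k) (𝓞 K) α₁ ∈ v.asIdeal := by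
      rw [h6]
      exact Ideal.mul_mem_left _ _ h2
    have h8 : α₁ ∈ v₀.asIdeal := (hv α₁).2 ((v.isPrime.mem_or_mem h7).resolve_left hβ)
    refine ⟨α₁ + n * β₁, β₁, hβ₁, ?_, ?_⟩
    · linear_combination h5
    · rwa [add_sub_cancel_right]
  · exfalso
    push Not at hc
    obtain ⟨hc0, hlt⟩ := hc
    obtain ⟨α₂, β₂, hβ₂, h5⟩ := exists_frac v₀ W₀.Δ (W₀.c₄ ^ 3 - n * W₀.Δ) hc0 (Or.inr hlt.le)
    have h5' := congrArg (algebraMap (𝓞 k) (𝓞 K)) h5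
    rw [map_mul, map_mul] at h5'
    have h6 : β * algebraMap (𝓞 k) (𝓞 K) β₂ = algebraMap (𝓞 k) (𝓞 K) α₂ * (α - n * β) := by
      apply mul_right_cancel₀ hd
      linear_combination algebraMap (𝓞 k) (𝓞 K) α₂ * h4 + β * h5'
    have h7 : β * algebraMap (𝓞 k) (𝓞 K) β₂ ∈ v.asIdeal := by
      rw [h6]
      exact Ideal.mul_mem_left _ _ h2
    exact hβ₂ ((hv β₂).2 ((v.isPrime.mem_or_mem h7).resolve_left hβ))

private theorem charP_quot (v : HeightOneSpectrum (𝓞 K)) {p : ℕ} (hp : p.Prime)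
    (hpv : (p : 𝓞 K) ∈ v.asIdeal) : CharP (𝓞 K ⧸ v.asIdeal) p := by
  have : Nontrivial (𝓞 K ⧸ v.asIdeal) := Ideal.Quotient.nontrivial_iff.mpr v.isPrime.ne_top
  have h0 : ((p : ℕ) : 𝓞 K ⧸ v.asIdeal) = 0 := by
    rw [← map_natCast (Ideal.Quotient.mk v.asIdeal)]
    exact Ideal.Quotient.eq_zero_iff_mem.mpr hpv
  exact (CharP.charP_iff_prime_eq_zero hp).mpr h0

theorem pss_of_res {q : ℕ} [Fact q.Prime] (h5 : 5 ≤ q) (W : WeierstrassCurve (𝓞 K))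
    (v : HeightOneSpectrum (𝓞 K)) (hq : (q : 𝓞 K) ∈ v.asIdeal) {n : ℤ} (hn : JMod W v n)
    (hss : SSj q (n : ZMod q)) : PSS q W v := by
  classical
  have hq' : q.Prime := Fact.out
  obtain ⟨α, β, hβ, hj, hmem⟩ := hn
  let _ : Field (𝓞 K ⧸ v.asIdeal) := Ideal.Quotient.field v.asIdeal
  have : CharP (𝓞 K ⧸ v.asIdeal) q := charP_quot v hq' hq
  have hfin : Finite (𝓞 K ⧸ v.asIdeal) := Ideal.finiteQuotientOfFreeOfNeBot v.asIdeal v.ne_bot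
  let _ : Fintype (𝓞 K ⧸ v.asIdeal) := Fintype.ofFinite _
  have h1 : SSj q ((n : ℤ) : 𝓞 K ⧸ v.asIdeal) := by
    have h := (SSj_map hq' h5 (ZMod.castHom (dvd_refl q) (𝓞 K ⧸ v.asIdeal))
      ((n : ℤ) : ZMod q)).2 hss
    rwa [map_intCast] at h
  have hαβ : Ideal.Quotient.mk v.asIdeal α =
      ((n : ℤ) : 𝓞 K ⧸ v.asIdeal) * Ideal.Quotient.mk v.asIdeal β := by
    rw [← sub_eq_zero, ← map_intCast (Ideal.Quotient.mk v.asIdeal), ← map_mul, ← map_sub]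
    exact Ideal.Quotient.eq_zero_iff_mem.2 hmem
  have h1' := h1
  obtain ⟨a, b, hab, hjj, hH⟩ := h1'
  have h2 : (2 : 𝓞 K ⧸ v.asIdeal) ≠ 0 := by
    intro h0
    have h3 : ((2 : ℕ) : 𝓞 K ⧸ v.asIdeal) = 0 := by exact_mod_cast h0
    rw [CharP.cast_eq_zero_iff (𝓞 K ⧸ v.asIdeal) q 2] at h3
    have := Nat.le_of_dvd (by norm_num) h3
    omega
  have h16 : (16 : 𝓞 K ⧸ v.asIdeal) ≠ 0 := by
    have : (16 : 𝓞 K ⧸ v.asIdeal) = 2 ^ 4 := by norm_num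
    rw [this]
    exact pow_ne_zero 4 h2
  let W' : WeierstrassCurve (𝓞 K ⧸ v.asIdeal) := ⟨0, 0, 0, a, b⟩
  have hΔ' : W'.Δ = -16 * (4 * a ^ 3 + 27 * b ^ 2) := by
    simp only [W', WeierstrassCurve.Δ, WeierstrassCurve.b₂, WeierstrassCurve.b₄,
      WeierstrassCurve.b₆, WeierstrassCurve.b₈]
    ring
  have hc' : W'.c₄ = -48 * a := by
    simp only [W', WeierstrassCurve.c₄, WeierstrassCurve.b₂, WeierstrassCurve.b₄]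
    ring
  have hΔ0 : W'.Δ ≠ 0 := by
    rw [hΔ']
    exact mul_ne_zero (neg_ne_zero.mpr h16) hab
  have hcΔ : W'.c₄ ^ 3 = ((n : ℤ) : 𝓞 K ⧸ v.asIdeal) * W'.Δ := by
    rw [hΔ', hc']
    linear_combination (-16) * hjj
  have hquot : W'.c₄ ^ 3 / W'.Δ = ((n : ℤ) : 𝓞 K ⧸ v.asIdeal) := by
    rw [hcΔ, mul_div_assoc, div_self hΔ0, mul_one]
  have h4 := card_iff hq' h5 W' hΔ0
  rw [hquot] at h4
  refine ⟨W', hΔ0, ⟨α, β, hβ, hj, ?_⟩, h4.mpr h1⟩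
  rw [hcΔ, hαβ]
  ring

end Pool.Agent.SS.ZI
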