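import Mathlib
import Pool.Agent.Work.MP_a5099b_nt.ZI.LDefs
import Pool.Agent.Work.MP_a5099b_nt.H.HDefs

/-!
# Module ZI/LSep (size S-M): residues at different places

`jmod_mem`: `JMod W v n`: `α', β'` with `β' ∉ v`, `β' c₄^3 = α' Δ`, `α' - n β' ∈ v`: `β' (c₄^3 - n Δ) = (α' - n β') Δ ∈ v`, `v` is prime.
`residues_sep`. By contradiction suppose `(n₀ : ZMod q) = n₁` or `Phi2 (n₀ : ZMod q) (n₁ : ZMod q) = 0`. Let `α = c₄^3`, `β = Δ`, `R = integralClosure ℤ ℂ`, `b₀ = red (σ₀ β)`, `b₁ = red (σ₁ β)`; `jmod_mem` and `h₀`, `h₁` (`σ` of an algebraic integer is in `R`): `red (σ₀ α) = n₀ b₀`, `red (σ₁ α) = n₁ b₁`.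
The factor of `DD W` for the pair `(σ₀, σ₁)` (`σ₀ j ≠ σ₁ j`) is `(σ₀ α * σ₁ β - σ₁ α * σ₀ β) * P` with `P = (σ₀ β * σ₁ β) ^ 3 * Phi2 (σ₀ j) (σ₁ j)`, a polynomial with integer coefficients in `σ₀ α, σ₀ β, σ₁ α, σ₁ β` (`field_simp`), whose reduction is `(n₀ - n₁) b₀ b₁ * (b₀ b₁) ^ 3 * Phi2 n₀ n₁ = 0` in `k`.
All the other factors of `DD W` are in `R` as well (same formula for all pairs), so `DD W = (this factor) * (an element of R)` (`Finset.mul_prod_erase`) and `red (D : R) = 0`, i.e. `(D : k) = 0`, `q ∣ D` (`CharP.intCast_eq_zero_iff`), contradiction.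
(`Phi2 (n₀ : ZMod q) n₁ = 0` implies `Phi2 (n₀ : k) n₁ = 0`: `ZMod.castHom`.)
-/

set_option autoImplicit false

namespace Pool.Agent.SS.ZI

open NumberField IsDedekindDomain
open Pool.Agent.SS.HB

variable {K : Type} [Field K] [NumberField K]

theorem jmod_mem {W : WeierstrassCurve (𝓞 K)} {v : HeightOneSpectrum (𝓞 K)} {n : ℤ}
    (h : JMod W v n) : W.c₄ ^ 3 - n * W.Δ ∈ v.asIdeal := by
  obtain ⟨α, β, hβ, he, hm⟩ := h
  have h1 : β * (W.c₄ ^ 3 - n * W.Δ) ∈ v.asIdeal := by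
    have e : β * (W.c₄ ^ 3 - n * W.Δ) = (α - n * β) * W.Δ := by
      rw [mul_sub, he]; ring
    rw [e]
    exact v.asIdeal.mul_mem_right _ hm
  exact (v.isPrime.mem_or_mem h1).resolve_left hβ

/-- The embedding of the integers of `K` in the algebraic integers. -/
private noncomputable def emb (σ : K →+* ℂ) : 𝓞 K →+* integralClosure ℤ ℂ :=
  RingHom.codRestrict (σ.comp (algebraMap (𝓞 K) K)) (integralClosure ℤ ℂ) fun x => by
    have hx : IsIntegral ℤ ((algebraMap (𝓞 K) K) x) := NumberField.RingOfIntegers.isIntegral_coe x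
    have h2 := map_isIntegral_int σ hx
    exact h2

private theorem coe_emb (σ : K →+* ℂ) (x : 𝓞 K) : ((emb σ x : integralClosure ℤ ℂ) : ℂ) = σ (x : K) :=
  rfl

/-- The polynomial `(a d - c b) (b d)^3 Phi2 (a / b) (c / d)`. -/
private def PP {R : Type*} [CommRing R] (a b c d : R) : R :=
  (a * d - c * b) * (a ^ 3 * d ^ 3 + c ^ 3 * b ^ 3 - a ^ 2 * c ^ 2 * b * d +
    1488 * (a ^ 2 * c * b * d ^ 2 + a * c ^ 2 * b ^ 2 * d) -
    162000 * (a ^ 2 * b * d ^ 3 + c ^ 2 * b ^ 3 * d) + 40773375 * a * c * b ^ 2 * d ^ 2 +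
    8748000000 * (a * b ^ 2 * d ^ 3 + c * b ^ 3 * d ^ 2) - 157464000000000 * b ^ 3 * d ^ 3)

private theorem map_PP {R S : Type*} [CommRing R] [CommRing S] (f : R →+* S) (a b c d : R) :
    f (PP a b c d) = PP (f a) (f b) (f c) (f d) := by
  have e1 : f 1488 = 1488 := map_ofNat f 1488
  have e2 : f 162000 = 162000 := map_ofNat f 162000
  have e3 : f 40773375 = 40773375 := map_ofNat f 40773375
  have e4 : f 8748000000 = 8748000000 := map_ofNat f 8748000000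
  have e5 : f 157464000000000 = 157464000000000 := map_ofNat f 157464000000000
  simp [PP, e1, e2, e3, e4, e5]

private theorem PP_field {a b c d : ℂ} (hb : b ≠ 0) (hd : d ≠ 0) :
    (b * d) ^ 4 * (a / b - c / d) * Phi2 (a / b) (c / d) = PP a b c d := by
  unfold PP Phi2
  field_simp

private theorem PP_red {R : Type*} [CommRing R] (m n b d : R) :
    PP (m * b) b (n * d) d = (m - n) * Phi2 m n * (b * d) ^ 4 := by
  unfold PP Phi2
  ring

theorem residues_sep {q : ℕ} (hq : q.Prime) {k : Type} [Field k] [CharP k q]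
    (red : integralClosure ℤ ℂ →+* k) (W : WeierstrassCurve (𝓞 K)) (hW : W.Δ ≠ 0) {D : ℤ}
    (hD : (D : ℂ) = DD W) (hqD : ¬ (q : ℤ) ∣ D) {v₀ v₁ : HeightOneSpectrum (𝓞 K)}
    {σ₀ σ₁ : K →+* ℂ} (h₀ : ∀ x : 𝓞 K, x ∈ v₀.asIdeal → RedTo red (σ₀ (x : K)) 0)
    (h₁ : ∀ x : 𝓞 K, x ∈ v₁.asIdeal → RedTo red (σ₁ (x : K)) 0)
    (hne : σ₀ (jay W) ≠ σ₁ (jay W)) {n₀ n₁ : ℤ} (hn₀ : JMod W v₀ n₀) (hn₁ : JMod W v₁ n₁) :
    (n₀ : ZMod q) ≠ n₁ ∧ Phi2 (n₀ : ZMod q) (n₁ : ZMod q) ≠ 0 := by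
  classical
  have r₀ : ∀ x : 𝓞 K, x ∈ v₀.asIdeal → red (emb σ₀ x) = 0 := fun x hx => by
    obtain ⟨h, h2⟩ := h₀ x hx
    exact h2
  have r₁ : ∀ x : 𝓞 K, x ∈ v₁.asIdeal → red (emb σ₁ x) = 0 := fun x hx => by
    obtain ⟨h, h2⟩ := h₁ x hx
    exact h2
  have a₀ : red (emb σ₀ (W.c₄ ^ 3)) = (n₀ : k) * red (emb σ₀ W.Δ) := by
    have h := r₀ _ (jmod_mem hn₀)
    rw [map_sub, map_sub, map_mul, map_mul, map_intCast, map_intCast] at h
    exact sub_eq_zero.mp h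
  have a₁ : red (emb σ₁ (W.c₄ ^ 3)) = (n₁ : k) * red (emb σ₁ W.Δ) := by
    have h := r₁ _ (jmod_mem hn₁)
    rw [map_sub, map_sub, map_mul, map_mul, map_intCast, map_intCast] at h
    exact sub_eq_zero.mp h
  -- the discriminant is an integral product
  have hΔ : ∀ σ : K →+* ℂ, σ (W.Δ : K) ≠ 0 := fun σ => by
    rw [map_ne_zero]
    exact fun h => hW (by exact_mod_cast h)
  let DR : integralClosure ℤ ℂ := ∏ p : (K →+* ℂ) × (K →+* ℂ),
    if p.1 (jay W) = p.2 (jay W) then 1 else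
      PP (emb p.1 (W.c₄ ^ 3)) (emb p.1 W.Δ) (emb p.2 (W.c₄ ^ 3)) (emb p.2 W.Δ)
  have hDR : ((DR : integralClosure ℤ ℂ) : ℂ) = DD W := by
    have hsub : ((DR : integralClosure ℤ ℂ) : ℂ) = (integralClosure ℤ ℂ).val DR := rfl
    rw [hsub]
    simp only [DR, map_prod]
    unfold DD
    refine Finset.prod_congr rfl fun p _ => ?_
    by_cases hp : p.1 (jay W) = p.2 (jay W)
    · simp [hp]
    · rw [if_neg hp, if_neg hp]
      have h1 : (integralClosure ℤ ℂ).val (PP (emb p.1 (W.c₄ ^ 3)) (emb p.1 W.Δ)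
          (emb p.2 (W.c₄ ^ 3)) (emb p.2 W.Δ)) =
          PP (p.1 ((W.c₄ ^ 3 : 𝓞 K) : K)) (p.1 (W.Δ : K)) (p.2 ((W.c₄ ^ 3 : 𝓞 K) : K))
            (p.2 (W.Δ : K)) :=
        map_PP ((integralClosure ℤ ℂ).val : integralClosure ℤ ℂ →+* ℂ) _ _ _ _
      rw [h1, ← PP_field (hΔ p.1) (hΔ p.2)]
      have h2 : ∀ σ : K →+* ℂ, σ (jay W) = σ ((W.c₄ ^ 3 : 𝓞 K) : K) / σ (W.Δ : K) := fun σ => by
        unfold jay
        rw [map_div₀]
        push_cast
        rfl
      rw [h2, h2]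
  have hDk : red DR = (D : k) := by
    have h1 : DR = ((D : ℤ) : integralClosure ℤ ℂ) := by
      apply Subtype.ext
      rw [hDR, ← hD]
      simp
    rw [h1, map_intCast]
  have hDk0 : (D : k) ≠ 0 := by
    intro h
    exact hqD ((CharP.intCast_eq_zero_iff k q D).mp h)
  have hfac : ((n₀ : k) - n₁) * Phi2 (n₀ : k) n₁ ≠ 0 := by
    intro hz
    apply hDk0
    rw [← hDk]
    simp only [DR, map_prod]
    refine Finset.prod_eq_zero (Finset.mem_univ (σ₀, σ₁)) ?_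
    rw [if_neg hne, map_PP, a₀, a₁, PP_red, hz, zero_mul]
  have : Fact q.Prime := ⟨hq⟩
  let _ : Algebra (ZMod q) k := ZMod.algebra k q
  let c : ZMod q →+* k := algebraMap (ZMod q) k
  constructor
  · intro h
    apply hfac
    have h1 : (n₀ : k) = n₁ := by
      have := congrArg c h
      simpa using this
    rw [h1, sub_self, zero_mul]
  · intro h
    apply hfac
    have h1 : Phi2 (n₀ : k) n₁ = 0 := by
      have h2 := congrArg c h
      rw [map_zero] at h2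
      have e1 : c 1488 = 1488 := map_ofNat c 1488
      have e2 : c 162000 = 162000 := map_ofNat c 162000
      have e3 : c 40773375 = 40773375 := map_ofNat c 40773375
      have e4 : c 8748000000 = 8748000000 := map_ofNat c 8748000000
      have e5 : c 157464000000000 = 157464000000000 := map_ofNat c 157464000000000
      rw [← h2]
      simp [Phi2, e1, e2, e3, e4, e5]
    rw [h1, mul_zero]

end Pool.Agent.SS.ZI
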