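import Mathlib
import Pool.Agent.Work.MP_a5099b_nt.ZI.LDefs
import Pool.Agent.Work.MP_a5099b_nt.ZI.LSep

/-!
# Module ZI/LNz (size S-M): the factor with the norm, and `bad W ≠ 0`

`jmod_mem` (ZI/LSep, may be a stub).
* `nz_res`: let `x = c₄ * c₆ * (c₄^3 - 8000 Δ)`. If `JMod W v n` with `n ≡ 0, 1728` or `8000` modulo `q`, then by `jmod_mem` (and `q ∈ v`) `c₄^3 ∈ v`, or `c₄^3 - 1728 Δ = c₆^2 ∈ v` (`WeierstrassCurve.c_relation`), or `c₄^3 - 8000 Δ ∈ v`, so `x ∈ v` (`v` prime). The norm of `x` is a multiple of `x` in `𝓞 K`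
(`Algebra.norm ℤ x ∈ v`: e.g. `Ideal.absNorm_mem`/`Ideal.absNorm_span_singleton`: `absNorm (span {x}) ∈ span {x}`), so it is in `v`, and an integer in `v` is divisible by `q` (`v ∩ ℤ = (q)`: if `q ∤ z`, Bezout gives `1 ∈ v`). Contradiction.
* `bad_ne`: `W.c₄ ≠ 0`, `W.c₆ ≠ 0`, `W.c₄^3 ≠ 8000 Δ` since otherwise `j = 0, 1728, 8000` (`c_relation`: `1728 Δ = c₄^3 - c₆^2`) has real images; `discr_ne_zero`; `Algebra.norm_ne_zero_iff`; `DD W ≠ 0`: `Finset.prod_ne_zero_iff`, every factor is 1 or a product of nonzero numbers (`σ Δ ≠ 0`: `σ` injective; `h2`).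
There is an embedding `K →+* ℂ` (`inferInstance : Nonempty (K →+* ℂ)`).
-/

set_option autoImplicit false

namespace Pool.Agent.SS.ZI

open NumberField IsDedekindDomain
open Pool.Agent.SS.HB

variable {K : Type} [Field K] [NumberField K]

private theorem int_of_mem {q : ℕ} (hq : q.Prime) {v : HeightOneSpectrum (𝓞 K)}
    (hv : (q : 𝓞 K) ∈ v.asIdeal) {z : ℕ} (hz : (z : 𝓞 K) ∈ v.asIdeal) : q ∣ z := by
  by_contra h
  have h1 : IsCoprime (q : ℤ) (z : ℤ) :=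
    Nat.isCoprime_iff_coprime.mpr ((Nat.Prime.coprime_iff_not_dvd hq).mpr h)
  obtain ⟨a, b, hab⟩ := h1
  apply v.isPrime.ne_top
  rw [Ideal.eq_top_iff_one]
  have h2 : ((a * (q : ℤ) + b * (z : ℤ) : ℤ) : 𝓞 K) = 1 := by
    rw [hab]; simp
  rw [← h2]
  push_cast
  exact v.asIdeal.add_mem (v.asIdeal.mul_mem_left _ hv) (v.asIdeal.mul_mem_left _ hz)

private theorem norm_of_mem {q : ℕ} (hq : q.Prime) {v : HeightOneSpectrum (𝓞 K)}
    (hv : (q : 𝓞 K) ∈ v.asIdeal) {x : 𝓞 K} (hx : x ∈ v.asIdeal) :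
    (q : ℤ) ∣ Algebra.norm ℤ x := by
  have h1 : ((Ideal.absNorm (Ideal.span {x}) : ℕ) : 𝓞 K) ∈ v.asIdeal := by
    have h2 := Ideal.absNorm_mem (Ideal.span {x})
    exact (Ideal.span_singleton_le_iff_mem v.asIdeal).mpr hx h2
  have h3 := int_of_mem hq hv h1
  rw [Ideal.absNorm_span_singleton] at h3
  exact Int.natCast_dvd.mpr h3

private theorem shift_mem {q : ℕ} {W : WeierstrassCurve (𝓞 K)}
    {v : HeightOneSpectrum (𝓞 K)} (hv : (q : 𝓞 K) ∈ v.asIdeal) {n m : ℤ} (hn : JMod W v n)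
    (h : (n : ZMod q) = (m : ZMod q)) : W.c₄ ^ 3 - (m : 𝓞 K) * W.Δ ∈ v.asIdeal := by
  have h1 : W.c₄ ^ 3 - (n : 𝓞 K) * W.Δ ∈ v.asIdeal := jmod_mem hn
  have h2 : (q : ℤ) ∣ n - m := (ZMod.intCast_eq_intCast_iff_dvd_sub m n q).mp h.symm
  obtain ⟨c, hc⟩ := h2
  have h3 : ((n - m : ℤ) : 𝓞 K) * W.Δ ∈ v.asIdeal := by
    rw [hc]
    push_cast
    exact v.asIdeal.mul_mem_right _ (v.asIdeal.mul_mem_right _ hv)
  have h4 := v.asIdeal.add_mem h1 h3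
  have e : W.c₄ ^ 3 - (n : 𝓞 K) * W.Δ + ((n - m : ℤ) : 𝓞 K) * W.Δ
      = W.c₄ ^ 3 - (m : 𝓞 K) * W.Δ := by
    push_cast; ring
  rwa [e] at h4

theorem nz_res {q : ℕ} (hq : q.Prime) (W : WeierstrassCurve (𝓞 K))
    (hqn : ¬ (q : ℤ) ∣ Algebra.norm ℤ (W.c₄ * W.c₆ * (W.c₄ ^ 3 - 8000 * W.Δ)))
    {v : HeightOneSpectrum (𝓞 K)} (hv : (q : 𝓞 K) ∈ v.asIdeal) {n : ℤ} (hn : JMod W v n) :
    (n : ZMod q) ≠ 0 ∧ (n : ZMod q) ≠ 1728 ∧ (n : ZMod q) ≠ 8000 := by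
  refine ⟨fun h => hqn ?_, fun h => hqn ?_, fun h => hqn ?_⟩
  · have h1 := shift_mem (m := 0) hv hn (by rw [h]; simp)
    have h2 : W.c₄ ^ 3 ∈ v.asIdeal := by
      have e : W.c₄ ^ 3 - ((0 : ℤ) : 𝓞 K) * W.Δ = W.c₄ ^ 3 := by simp
      rwa [e] at h1
    have h3 : W.c₄ ∈ v.asIdeal := v.isPrime.mem_of_pow_mem 3 h2
    exact norm_of_mem hq hv (v.asIdeal.mul_mem_right _ (v.asIdeal.mul_mem_right _ h3))
  · have h1 := shift_mem (m := 1728) hv hn (by rw [h]; norm_num)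
    have h2 : W.c₆ ^ 2 ∈ v.asIdeal := by
      have e : W.c₄ ^ 3 - ((1728 : ℤ) : 𝓞 K) * W.Δ = W.c₆ ^ 2 := by
        have := W.c_relation
        push_cast
        rw [this]; ring
      rwa [e] at h1
    have h3 : W.c₆ ∈ v.asIdeal := v.isPrime.mem_of_pow_mem 2 h2
    exact norm_of_mem hq hv (v.asIdeal.mul_mem_right _ (v.asIdeal.mul_mem_left _ h3))
  · have h1 := shift_mem (m := 8000) hv hn (by rw [h]; norm_num)
    have h2 : W.c₄ ^ 3 - 8000 * W.Δ ∈ v.asIdeal := by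
      have e : W.c₄ ^ 3 - ((8000 : ℤ) : 𝓞 K) * W.Δ = W.c₄ ^ 3 - 8000 * W.Δ := by push_cast; rfl
      rwa [e] at h1
    exact norm_of_mem hq hv (v.asIdeal.mul_mem_left _ h2)

private theorem coe_ne {x : 𝓞 K} (hx : x ≠ 0) : (x : K) ≠ 0 :=
  RingOfIntegers.coe_ne_zero_iff.mpr hx

private theorem real_false {W : WeierstrassCurve (𝓞 K)}
    (him : ∀ σ : K →+* ℂ, (σ (jay W)).im ≠ 0) {m : ℕ} (h : jay W = (m : K)) : False := by
  obtain ⟨σ⟩ := (inferInstance : Nonempty (K →+* ℂ))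
  apply him σ
  rw [h, map_natCast]
  simp

theorem bad_ne (W : WeierstrassCurve (𝓞 K)) (hW : W.Δ ≠ 0)
    (him : ∀ σ : K →+* ℂ, (σ (jay W)).im ≠ 0)
    (h2 : ∀ σ τ : K →+* ℂ, σ (jay W) ≠ τ (jay W) → Phi2 (σ (jay W)) (τ (jay W)) ≠ 0) :
    bad W ≠ 0 := by
  classical
  have hΔ : (W.Δ : K) ≠ 0 := coe_ne hW
  have key : ∀ m : ℕ, W.c₄ ^ 3 - (m : 𝓞 K) * W.Δ ≠ 0 := by
    intro m hm
    apply real_false him (m := m)
    have h3 : W.c₄ ^ 3 = (m : 𝓞 K) * W.Δ := sub_eq_zero.mp hm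
    have h4 : (W.c₄ : K) ^ 3 = (m : K) * (W.Δ : K) := by
      have := congrArg (fun t : 𝓞 K => (t : K)) h3
      simpa using this
    unfold jay
    rw [h4]
    field_simp
  have hc4 : W.c₄ ≠ 0 := by
    intro h
    apply key 0
    rw [h]; simp
  have hc6 : W.c₆ ≠ 0 := by
    intro h
    apply key 1728
    have := W.c_relation
    push_cast
    rw [this, h]; ring
  have h8 : W.c₄ ^ 3 - 8000 * W.Δ ≠ 0 := by
    intro h
    apply key 8000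
    push_cast
    exact h
  have hN : Algebra.norm ℤ (W.c₄ * W.c₆ * (W.c₄ ^ 3 - 8000 * W.Δ)) ≠ 0 :=
    Algebra.norm_ne_zero_iff.mpr (mul_ne_zero (mul_ne_zero hc4 hc6) h8)
  have hD : DD W ≠ 0 := by
    unfold DD
    rw [Finset.prod_ne_zero_iff]
    intro p _
    split_ifs with h
    · exact one_ne_zero
    · refine mul_ne_zero (mul_ne_zero (pow_ne_zero _ (mul_ne_zero ?_ ?_)) (sub_ne_zero.mpr h))
        (h2 _ _ h)
      · exact (map_ne_zero p.1).mpr hΔ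
      · exact (map_ne_zero p.2).mpr hΔ
  unfold bad
  refine mul_ne_zero (mul_ne_zero (mul_ne_zero (by norm_num) ?_) ?_) hD
  · exact_mod_cast (discr_ne_zero K)
  · exact_mod_cast hN

end Pool.Agent.SS.ZI
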