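import Mathlib
import Pool.Agent.Work.MP_a5099b_nt.H.HDefs
import Pool.Agent.Work.CM.Ext1

/-!
# Module ZI/Iner (size M-L): an inertia element which moves `√(-q)`

PROOF. Let `δ = sq q`, `δ * δ = -q` (`sq_mul_self`), `δ ∉ ℚ`. Let `N` be an intermediate field of `ℂ / ℚ`, finite and Galois over `ℚ`, which contains `δ` and the elements of `F` (the
elements of `F` are integral over `ℤ`, hence algebraic; take the splitting field inside `ℂ` of the product of their minimal polynomials and `X ^ 2 + q`, or the normal closure of `ℚ⟮..⟯`). Let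
`G = Gal(N/ℚ)` (finite), `B = 𝓞 N` (or `integralClosure ℤ N`), with the action of `G` on `B`; `Q := ` the kernel of `B → integralClosure ℤ ℂ → k` (`red`), a prime ideal; `(q : B) ∈ Q`, so `δ ∈ Q` (as
`δ ^ 2 = -q`). Let `H = {g ∈ G | g δ = δ}`; every `g ∈ G` has `g δ = δ` or `g δ = -δ`; there is `g₀` with `g₀ δ = -δ` (`δ` is not rational, `N/ℚ` Galois); `g₀ g₀ ∈ H`, `g₀ H g₀⁻¹ = H`, `G = H ∪ g₀ H`.
Let `A` be the subring of `B` fixed by `H` (`FixedPoints.subring`; `Algebra.IsInvariant A B H` is trivial).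
(1) For `a ∈ A`: `a - g₀ a ∈ Q`. `t := (a - g₀ a) / δ ∈ N` is fixed by `H` (`g₀ a ∈ A`) and by `g₀` (`g₀ g₀ ∈ H`), so by `G`: `t ∈ ℚ`; `-q t ^ 2 = (a - g₀ a) ^ 2` is integral and rational,
so in `ℤ`, and `q` is a prime, so `t ∈ ℤ` (if a prime `p` divides the denominator of `t`, `p ^ 2 ∣ q`); hence `a - g₀ a = δ t ∈ Q`.
(2) `g₀ • Q` and `Q` lie over the same prime of `A` (by (1): for `a ∈ A`, `a ∈ Q` iff `g₀ a ∈ Q`, and `g₀` maps `A` onto `A`). By transitivity of `H` (`Algebra.IsInvariant.exists_smul_of_under_eq`) there is `h ∈ H` with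
`h g₀ • Q = Q`. Let `g₁ = h g₀`: `g₁ δ = -δ`, `g₁ • Q = Q`, and `g₁ a - a ∈ Q` for `a ∈ A` (`g₁ a = h (g₀ a) = g₀ a`).
(3) `g₁` induces an automorphism of `B ⧸ Q` over `A ⧸ (Q ∩ A)`; by `Ideal.Quotient.stabilizerHom_surjective` (Mathlib/RingTheory/Invariant/Basic.lean) for `H` there is `h₁ ∈ H` with `h₁ • Q = Q` inducing the same automorphism.
`s := h₁⁻¹ g₁`: `s δ = -δ`, `s b - b ∈ Q` for all `b ∈ B`.
(4) Extend `s` to an automorphism of `ℂ` (`exists_extension` in Pool/Agent/Work/CM/Ext1.lean, used in the same way in H/Aut.lean). For `x ∈ F`: `x = b`, `b ∈ B`, `s x` is integral and `s b - b ∈ Q` says `red (s x) = red x`.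
-/

set_option autoImplicit false

namespace Pool.Agent.SS.ZI

open Pool.Agent.Work.CM
open Pool.Agent.SS.HB

section

open scoped Pointwise

private theorem core {B G : Type*} [CommRing B] [Group G] [Finite G] [MulSemiringAction G B]
    (H : Subgroup G) (hH : H.Normal) (Q : Ideal B) [hQ : Q.IsPrime] (g₀ : G) (hg₀ : g₀ ∉ H)
    (hA : ∀ a : B, (∀ h ∈ H, h • a = a) → g₀ • a - a ∈ Q) :
    ∃ s : G, s ∉ H ∧ ∀ b : B, s • b - b ∈ Q := by
  classical
  let A : Subring B := FixedPoints.subring B H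
  have memA : ∀ a : B, a ∈ A ↔ ∀ h ∈ H, h • a = a := by
    intro a
    constructor
    · intro ha h hh
      exact ha ⟨h, hh⟩
    · intro ha h
      exact ha h.1 h.2
  haveI : SMulCommClass H A B := ⟨fun h a b => by
    have h1 : ((h : G) • (a : B)) = a := (memA a.1).1 a.2 h.1 h.2
    change (h : G) • ((a : B) * b) = (a : B) * ((h : G) • b)
    rw [smul_mul', h1]⟩
  haveI : Algebra.IsInvariant A B H := ⟨fun b hb => ⟨⟨b, hb⟩, rfl⟩⟩
  haveI hP1 : (g₀ • Q).IsPrime := hQ.smul g₀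
  have hstab : ∀ a : B, a ∈ A → g₀⁻¹ • a ∈ A := by
    intro a ha
    rw [memA] at ha ⊢
    intro h hh
    have h1 : g₀ * h * g₀⁻¹ ∈ H := hH.conj_mem h hh g₀
    have h2 := ha _ h1
    rw [← mul_smul]
    conv_rhs => rw [← h2, ← mul_smul]
    congr 1
    group
  have hund : (g₀ • Q).under A = Q.under A := by
    ext a
    rw [Ideal.under_def, Ideal.under_def, Ideal.mem_comap, Ideal.mem_comap]
    change (a : B) ∈ g₀ • Q ↔ (a : B) ∈ Q
    rw [Ideal.mem_pointwise_smul_iff_inv_smul_mem]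
    have h1 := hA (g₀⁻¹ • (a : B)) ((memA _).1 (hstab a.1 a.2))
    rw [smul_inv_smul] at h1
    constructor
    · intro h2
      have := Q.add_mem h1 h2
      simpa using this
    · intro h2
      have := Q.sub_mem h2 h1
      simpa using this
  obtain ⟨h, hh⟩ := Algebra.IsInvariant.exists_smul_of_under_eq A B H (g₀ • Q) Q hund
  set g₁ : G := (h : G) * g₀ with hg₁
  have hQ1 : Q = g₁ • Q := by
    rw [hg₁, mul_smul]
    exact hh
  have hg₁H : g₁ ∉ H := by
    intro h3
    exact hg₀ ((H.mul_mem_cancel_left h.2).1 h3)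
  have hg₁A : ∀ a : B, a ∈ A → g₁ • a - a ∈ Q := by
    intro a ha
    have h0 : g₀ • a ∈ A := by
      rw [memA] at ha ⊢
      intro x hx
      have h1 : g₀⁻¹ * x * g₀ ∈ H := by
        have := hH.conj_mem x hx g₀⁻¹
        simpa using this
      have h2 := ha _ h1
      rw [← mul_smul]
      conv_rhs => rw [← h2, ← mul_smul]
      congr 1
      group
    have h1 : g₁ • a = g₀ • a := by
      rw [hg₁, mul_smul]
      exact (memA _).1 h0 h.1 h.2
    rw [h1]
    exact hA a ((memA a).1 ha)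
  let P : Ideal A := Q.under A
  haveI : Q.LiesOver P := ⟨rfl⟩
  have hmap : Q = Q.map ((MulSemiringAction.toRingEquiv G B g₁ : B ≃+* B) : B →+* B) := by
    conv_lhs => rw [hQ1]
    rfl
  let e : B ⧸ Q ≃+* B ⧸ Q := Ideal.quotientEquiv Q Q (MulSemiringAction.toRingEquiv G B g₁) hmap
  have he : ∀ b : B, e (Ideal.Quotient.mk Q b) = Ideal.Quotient.mk Q (g₁ • b) := fun b => rfl
  let f : (B ⧸ Q) ≃ₐ[A ⧸ P] (B ⧸ Q) := AlgEquiv.ofRingEquiv (f := e) (by
    intro x
    obtain ⟨a, rfl⟩ := Ideal.Quotient.mk_surjective x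
    change e (Ideal.Quotient.mk Q (a : B)) = Ideal.Quotient.mk Q (a : B)
    rw [he, Ideal.Quotient.eq]
    exact hg₁A a.1 a.2)
  obtain ⟨h₁, hh₁⟩ := Ideal.Quotient.stabilizerHom_surjective (A := A) H P Q f
  have hk : ∀ b : B, ((h₁ : H) : G) • b - g₁ • b ∈ Q := by
    intro b
    have h2 := congrArg (fun F => F (Ideal.Quotient.mk Q b)) hh₁
    have h3 : Ideal.Quotient.mk Q (((h₁ : H) : G) • b) = Ideal.Quotient.mk Q (g₁ • b) := h2
    rwa [Ideal.Quotient.eq] at h3
  have hst : ((h₁ : H) : G) • Q = Q := h₁.2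
  refine ⟨((h₁ : H) : G)⁻¹ * g₁, ?_, ?_⟩
  · intro h3
    exact hg₁H ((H.mul_mem_cancel_left (H.inv_mem (h₁ : H).2)).1 h3)
  · intro b
    have h4 := hk b
    have h5 : ((h₁ : H) : G) • b - g₁ • b ∈ ((h₁ : H) : G) • Q := by rw [hst]; exact h4
    rw [Ideal.mem_pointwise_smul_iff_inv_smul_mem, smul_sub, inv_smul_smul, ← mul_smul] at h5
    have := Q.neg_mem h5
    simpa using this

end


private def act (N : Type*) [Field N] [Algebra ℚ N] :
    MulSemiringAction (N ≃ₐ[ℚ] N) (integralClosure ℤ N) where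
  smul g b := ⟨g b, b.2.map g⟩
  one_smul _ := rfl
  mul_smul _ _ _ := rfl
  smul_zero g := Subtype.ext (map_zero g)
  smul_add g a b := Subtype.ext (map_add g (a : N) (b : N))
  smul_one g := Subtype.ext (map_one g)
  smul_mul g a b := Subtype.ext (map_mul g (a : N) (b : N))

private theorem isAC {K : Type} [Field K] [Algebra K ℂ] :
    IsAlgClosure K (algebraicClosure K ℂ) := inferInstance

private theorem gal_part (N : Type*) [Field N] [Algebra ℚ N] [IsGalois ℚ N]
    [FiniteDimensional ℚ N] {q : ℕ} (hq : q.Prime) (δ : N) (hδ : δ * δ = -(q : N))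
    (hδQ : δ ∉ Set.range (algebraMap ℚ N)) {k : Type*} [Field k] [CharP k q]
    (r : integralClosure ℤ N →+* k) :
    ∃ s : N ≃ₐ[ℚ] N, s δ = -δ ∧
      ∀ b : integralClosure ℤ N, ∃ h : s (b : N) ∈ integralClosure ℤ N, r ⟨s (b : N), h⟩ = r b := by
  classical
  have hq0 : (q : N) ≠ 0 := by
    have : CharZero N := algebraRat.charZero N
    exact_mod_cast hq.ne_zero
  have hδ0 : δ ≠ 0 := by
    rintro rfl
    rw [mul_zero] at hδ
    exact hq0 (neg_eq_zero.1 hδ.symm)
  have hpm : ∀ g : N ≃ₐ[ℚ] N, g δ = δ ∨ g δ = -δ := by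
    intro g
    have h1 : g δ * g δ = δ * δ := by
      rw [← map_mul, hδ, map_neg, map_natCast]
    have h2 : (g δ - δ) * (g δ + δ) = 0 := by linear_combination h1
    rcases mul_eq_zero.1 h2 with h3 | h3
    · left; linear_combination h3
    · right; linear_combination h3
  let H : Subgroup (N ≃ₐ[ℚ] N) :=
    { carrier := {g | g δ = δ}
      mul_mem' := fun {a b} ha hb => by
        change a (b δ) = δ
        rw [show b δ = δ from hb]; exact ha
      one_mem' := rfl
      inv_mem' := fun {a} ha => by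
        change a.symm δ = δ
        rw [AlgEquiv.symm_apply_eq]
        exact (show a δ = δ from ha).symm }
  have memH : ∀ g : N ≃ₐ[ℚ] N, g ∈ H ↔ g δ = δ := fun g => Iff.rfl
  have hH : H.Normal := ⟨fun n hn g => by
    rw [memH] at hn ⊢
    change g (n (g.symm δ)) = δ
    rcases hpm g.symm with h | h
    · rw [h, hn]
      have := congrArg g h
      rw [AlgEquiv.apply_symm_apply] at this
      exact this.symm
    · rw [h, map_neg, hn, map_neg]
      have := congrArg g h
      rw [AlgEquiv.apply_symm_apply, map_neg] at this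
      exact this.symm⟩
  have hex : ∃ g₀ : N ≃ₐ[ℚ] N, g₀ ∉ H := by
    by_contra hcon
    push Not at hcon
    exact hδQ ((IsGalois.mem_range_algebraMap_iff_fixed δ).2 fun f => hcon f)
  obtain ⟨g₀, hg₀⟩ := hex
  have hg₀δ : g₀ δ = -δ := (hpm g₀).resolve_left hg₀
  letI := act N
  have smul_def : ∀ (g : N ≃ₐ[ℚ] N) (b : integralClosure ℤ N), ((g • b : integralClosure ℤ N) : N) = g b :=
    fun _ _ => rfl
  have hδi : IsIntegral ℤ δ := by
    refine IsIntegral.of_pow (n := 2) (by norm_num) ?_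
    rw [pow_two, hδ]
    exact (isIntegral_algebraMap (R := ℤ) (x := (q : ℤ))).neg.map (RingHom.toIntAlgHom (RingHom.id N)) |> fun h => by
      simpa using h
  have hδr : r ⟨δ, hδi⟩ = 0 := by
    have h1 : (⟨δ, hδi⟩ : integralClosure ℤ N) * ⟨δ, hδi⟩ = -((q : ℕ) : integralClosure ℤ N) := by
      apply Subtype.ext
      change δ * δ = _
      rw [hδ]
      simp
    have h2 := congrArg r h1
    rw [map_mul, map_neg, map_natCast, CharP.cast_eq_zero, neg_zero] at h2
    exact mul_self_eq_zero.1 h2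
  have hprime : (RingHom.ker r).IsPrime := RingHom.ker_isPrime r
  have hA : ∀ a : integralClosure ℤ N, (∀ h ∈ H, h • a = a) → g₀ • a - a ∈ RingHom.ker r := by
    intro a ha
    have ha' : ∀ h ∈ H, h (a : N) = a := fun h hh => congrArg Subtype.val (ha h hh)
    -- the quotient is fixed by the group
    have hfix : ∀ f : N ≃ₐ[ℚ] N, f ((g₀ (a : N) - a) / δ) = (g₀ (a : N) - a) / δ := by
      have hg₀a : ∀ h ∈ H, h (g₀ (a : N)) = g₀ (a : N) := by
        intro h hh
        have h1 : g₀⁻¹ * h * g₀ ∈ H := by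
          have := hH.conj_mem h hh g₀⁻¹
          simpa using this
        have h2 := ha' _ h1
        have h3 : g₀.symm (h (g₀ (a : N))) = a := h2
        rw [AlgEquiv.symm_apply_eq] at h3
        exact h3
      have hsq : g₀ (g₀ (a : N)) = a := by
        have h1 : g₀ * g₀ ∈ H := by
          rw [memH]
          change g₀ (g₀ δ) = δ
          rw [hg₀δ, map_neg, hg₀δ, neg_neg]
        exact ha' _ h1
      have hHf : ∀ h ∈ H, h ((g₀ (a : N) - a) / δ) = (g₀ (a : N) - a) / δ := by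
        intro h hh
        rw [map_div₀, map_sub, hg₀a h hh, ha' h hh, (memH h).1 hh]
      have hg0f : g₀ ((g₀ (a : N) - a) / δ) = (g₀ (a : N) - a) / δ := by
        rw [map_div₀, map_sub, hsq, hg₀δ]
        field_simp
        ring
      intro f
      rcases hpm f with h | h
      · exact hHf f h
      · have h1 : f * g₀ ∈ H := by
          rw [memH]
          change f (g₀ δ) = δ
          rw [hg₀δ, map_neg, h, neg_neg]
        have h2 := hHf _ h1
        change f (g₀ _) = _ at h2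
        rwa [hg0f] at h2
    obtain ⟨c, hc⟩ := (IsGalois.mem_range_algebraMap_iff_fixed _).2 hfix
    have hw : g₀ (a : N) - a = δ * algebraMap ℚ N c := by
      rw [hc]
      field_simp
    have hwi : IsIntegral ℤ (g₀ (a : N) - a) := (a.2.map g₀).sub a.2
    have hinj : Function.Injective (algebraMap ℚ N) := (algebraMap ℚ N).injective
    have hm : IsIntegral ℤ ((q : ℚ) * c ^ 2) := by
      have h1 : IsIntegral ℤ (-(g₀ (a : N) - a) ^ 2) := (hwi.pow 2).neg
      have h2 : -(g₀ (a : N) - a) ^ 2 = algebraMap ℚ N ((q : ℚ) * c ^ 2) := by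
        rw [hw, map_mul, map_pow, map_natCast]
        linear_combination (-(algebraMap ℚ N c) ^ 2) * hδ
      rw [h2] at h1
      exact (isIntegral_algebraMap_iff hinj).1 h1
    obtain ⟨mm, hmm⟩ := IsIntegrallyClosed.isIntegral_iff.1 hm
    have hz : IsIntegral ℤ ((q : ℚ) * c) := by
      refine IsIntegral.of_pow (n := 2) (by norm_num) ?_
      have h1 : ((q : ℚ) * c) ^ 2 = algebraMap ℤ ℚ ((q : ℤ) * mm) := by
        rw [map_mul, hmm]
        simp
        ring
      rw [h1]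
      exact isIntegral_algebraMap
    obtain ⟨z, hzz⟩ := IsIntegrallyClosed.isIntegral_iff.1 hz
    have hdiv : (q : ℤ) ∣ z := by
      have h1 : z ^ 2 = (q : ℤ) * ((q : ℤ) * 1 * mm) / q * 1 ∨ z ^ 2 = (q : ℤ) * mm := by
        right
        have h2 : ((z ^ 2 : ℤ) : ℚ) = (((q : ℤ) * mm : ℤ) : ℚ) := by
          have e1 : ((z : ℤ) : ℚ) = (q : ℚ) * c := hzz
          have e2 : ((mm : ℤ) : ℚ) = (q : ℚ) * c ^ 2 := hmm
          push_cast
          rw [e1, e2]
          ring
        exact_mod_cast h2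
      have h3 : z ^ 2 = (q : ℤ) * mm := by
        have h2 : ((z ^ 2 : ℤ) : ℚ) = (((q : ℤ) * mm : ℤ) : ℚ) := by
          have e1 : ((z : ℤ) : ℚ) = (q : ℚ) * c := hzz
          have e2 : ((mm : ℤ) : ℚ) = (q : ℚ) * c ^ 2 := hmm
          push_cast
          rw [e1, e2]
          ring
        exact_mod_cast h2
      exact (Nat.prime_iff_prime_int.1 hq).dvd_of_dvd_pow (n := 2) ⟨mm, h3⟩
    obtain ⟨y, hy⟩ := hdiv
    have hcy : c = (y : ℚ) := by
      have e1 : ((z : ℤ) : ℚ) = (q : ℚ) * c := hzz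
      rw [hy] at e1
      push_cast at e1
      have hq' : (q : ℚ) ≠ 0 := by exact_mod_cast hq.ne_zero
      exact (mul_left_cancel₀ hq' e1).symm
    have hfin : g₀ • a - a = (y : integralClosure ℤ N) * ⟨δ, hδi⟩ := by
      apply Subtype.ext
      change g₀ (a : N) - a = ((y : integralClosure ℤ N) : N) * δ
      rw [hw, hcy]
      simp
      ring
    rw [RingHom.mem_ker, hfin, map_mul, hδr, mul_zero]
  obtain ⟨s, hs, hsb⟩ := core H hH (RingHom.ker r) g₀ hg₀ hA
  refine ⟨s, (hpm s).resolve_left hs, fun b => ⟨b.2.map s, ?_⟩⟩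
  have h1 := hsb b
  rw [RingHom.mem_ker, map_sub, sub_eq_zero] at h1
  exact h1

theorem exists_inertia {q : ℕ} (hq : q.Prime) (hq2 : q ≠ 2) {k : Type} [Field k] [CharP k q]
    (red : integralClosure ℤ ℂ →+* k) (F : Finset (integralClosure ℤ ℂ)) :
    ∃ s : ℂ ≃+* ℂ, s (sq q) = -sq q ∧
      ∀ x ∈ F, ∃ h : s (x : ℂ) ∈ integralClosure ℤ ℂ, red ⟨s (x : ℂ), h⟩ = red x := by
  classical
  have hC : IsAlgClosure ℚ (algebraicClosure ℚ ℂ) := isAC
  have : IsAlgClosed (algebraicClosure ℚ ℂ) := hC.isAlgClosed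
  have : Normal ℚ (algebraicClosure ℚ ℂ) := IsAlgClosure.normal ℚ _
  have hint : ∀ x : ℂ, IsIntegral ℤ x → x ∈ algebraicClosure ℚ ℂ := fun x hx =>
    mem_algebraicClosure_iff.2 hx.tower_top.isAlgebraic
  have hδint : IsIntegral ℤ (sq q) := by
    refine IsIntegral.of_pow (n := 2) (by norm_num) ?_
    rw [pow_two, sq_mul_self]
    have h : IsIntegral ℤ ((q : ℤ) : ℂ) := isIntegral_algebraMap (R := ℤ)
    simpa using h.neg
  let S : Set (algebraicClosure ℚ ℂ) :=
    insert ⟨sq q, hint _ hδint⟩ ((fun x : integralClosure ℤ ℂ => ⟨(x : ℂ), hint _ x.2⟩) '' (F : Set (integralClosure ℤ ℂ)))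
  have hS : Finite S := ((F.finite_toSet.image _).insert _).to_subtype
  let N0 : IntermediateField ℚ (algebraicClosure ℚ ℂ) := IntermediateField.adjoin ℚ S
  have hN0 : FiniteDimensional ℚ N0 := IntermediateField.finiteDimensional_adjoin
    (fun x _ => Algebra.IsIntegral.isIntegral x)
  let N : IntermediateField ℚ (algebraicClosure ℚ ℂ) := IntermediateField.normalClosure ℚ N0 (algebraicClosure ℚ ℂ)
  have hNn : Normal ℚ N := normalClosure.normal ℚ N0 (algebraicClosure ℚ ℂ)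
  have hNf : FiniteDimensional ℚ N := normalClosure.is_finiteDimensional ℚ N0 (algebraicClosure ℚ ℂ)
  have hNg : IsGalois ℚ N := {}
  have hle : N0 ≤ N := IntermediateField.le_normalClosure N0
  have hSN : ∀ x ∈ S, x ∈ N := fun x hx => hle (IntermediateField.subset_adjoin ℚ S hx)
  let ι : N →ₐ[ℚ] ℂ := (algebraicClosure ℚ ℂ).val.comp N.val
  let j : integralClosure ℤ N →ₐ[ℤ] integralClosure ℤ ℂ := (ι.restrictScalars ℤ).mapIntegralClosure
  let δ : N := ⟨⟨sq q, hint _ hδint⟩, hSN _ (Set.mem_insert _ _)⟩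
  have hιδ : ι δ = sq q := rfl
  have hιinj : Function.Injective ι := (ι : N →+* ℂ).injective
  have hδ : δ * δ = -(q : N) := by
    apply hιinj
    rw [map_mul, hιδ, sq_mul_self, map_neg, map_natCast]
  have hδQ : δ ∉ Set.range (algebraMap ℚ N) := by
    rintro ⟨c, hc⟩
    have h1 := congrArg ι hc
    rw [hιδ, AlgHom.commutes] at h1
    have h2 := congrArg Complex.im h1
    rw [sq_im] at h2
    have h3 : (algebraMap ℚ ℂ c).im = 0 := by
      simp
    rw [h3] at h2
    have h4 : Real.sqrt q ≠ 0 := by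
      rw [Real.sqrt_ne_zero']
      exact_mod_cast hq.pos
    exact h4 h2.symm
  obtain ⟨s, hsδ, hsb⟩ := gal_part N hq δ hδ hδQ (red.comp j.toRingHom)
  obtain ⟨t, ht⟩ := exists_extension (algebraicClosure ℚ ℂ).val (s.liftNormal (algebraicClosure ℚ ℂ))
  have htN : ∀ x : N, t (ι x) = ι (s x) := by
    intro x
    have h1 := ht (x : algebraicClosure ℚ ℂ)
    have h2 := AlgEquiv.liftNormal_commutes s (algebraicClosure ℚ ℂ) x
    change t ((algebraicClosure ℚ ℂ).val (x : algebraicClosure ℚ ℂ)) = _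
    rw [h1]
    exact congrArg (algebraicClosure ℚ ℂ).val h2
  refine ⟨t.toRingEquiv, ?_, ?_⟩
  · change t (ι δ) = -sq q
    rw [htN, hsδ, map_neg, hιδ]
  · intro x hx
    have hxN : (⟨(x : ℂ), hint _ x.2⟩ : algebraicClosure ℚ ℂ) ∈ N :=
      hSN _ (Set.mem_insert_of_mem _ ⟨x, hx, rfl⟩)
    let y : N := ⟨⟨(x : ℂ), hint _ x.2⟩, hxN⟩
    have hyι : ι y = x := rfl
    have hyi : IsIntegral ℤ y := by
      have h1 : IsIntegral ℤ (ι y) := x.2
      exact (isIntegral_algHom_iff (ι.restrictScalars ℤ) hιinj).1 h1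
    obtain ⟨h, hr⟩ := hsb ⟨y, hyi⟩
    have e1 : t.toRingEquiv (x : ℂ) = ι (s y) := htN y
    have h2 : t.toRingEquiv (x : ℂ) ∈ integralClosure ℤ ℂ := by
      rw [e1]
      exact (j ⟨s y, h⟩).2
    refine ⟨h2, ?_⟩
    have e2 : (⟨t.toRingEquiv (x : ℂ), h2⟩ : integralClosure ℤ ℂ) = j ⟨s y, h⟩ := Subtype.ext e1
    have e3 : j ⟨y, hyi⟩ = x := Subtype.ext hyι
    rw [e2, ← e3]
    exact hr

end Pool.Agent.SS.ZI
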