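import Mathlib
import Pool.Agent.Work.MP_a5099b_nt.H.HDefs
import Pool.Agent.Work.MP_a5099b_nt.H.Pair
import Pool.Agent.Work.MP_a5099b_nt.ZI.Iner

/-!
# Module ZI/IPair (size M): one automorphism interchanges the two roots above every `y ∈ S`

Use `exists_inertia` (ZI/Iner, may be a stub).

PROOF. Let `D = PhiDiag q` (`D ≠ 0`, monic up to sign: see H/TwoRoots.lean, Step (1); its complex roots are algebraic integers, see `mem_of_root` in H/Place.lean and `RedTo`). For `y ∈ S` there is a pair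
`exists_pairAt h5 red y`; let `L, M` be ANY pair with `PairAt q red y L M`, `a = jL L`, `a' = jL M` (`P.redL, P.redM, P.all, P.ne`; `P.all`: the only roots of `D` which reduce to `y` are `a` and `a'`, so `{a, a'}` depends on `y` only).
For a root `a` of `D` let `x_a = (a ^ q - a) / sq q`. By `kron_at` and `(PhiAt q a).eval a = 0` (`diag_of_hasSq`, `PhiDiag_aeval`): `0 = (a ^ q - a) (a - a ^ q) + q GGAt q a a`, so `(a ^ q - a) ^ 2 = q GGAt q a a` and
`x_a ^ 2 = - GGAt q a a` (`sq_mul_self`), so `x_a` is an algebraic integer (`GGAt_map`, or: `x_a ^ 2` is integral). For `a` above `y ∈ S` it reduces to `red x_a` with `(red x_a) ^ 2 = - GGAt q y y ≠ 0`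
(`GGAt_map` for `red` and the cast `ZMod q → k`; `GGAt q y y ≠ 0` by `regular` and `ZMod.pow_card` as in `exists_pairAt`). Let `F` be the finite set of all roots `a` of `D` and all `x_a`, as elements of `integralClosure ℤ ℂ` (e.g. for each `y ∈ S`
choose one pair and take `a, a', x_a, x_a'`). Take `s` from `exists_inertia`. `s a` is a root of `D` (integer coefficients) and reduces to `y`, so `s a = a` or `s a = a'`. If `s a = a` then `s x_a = (a ^ q - a) / (-sq q) = -x_a`,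
and `red (s x_a) = red x_a` gives `2 red x_a = 0`, `red x_a = 0` (`q` odd), contradiction. So `s a = a'`; in the same way `s a' = a`.
-/

set_option autoImplicit false

namespace Pool.Agent.SS.ZI

open Polynomial
open Pool.Agent.Work.CM
open Pool.Agent.SS.HB

private theorem x_data {q : ℕ} [Fact q.Prime] (y : ZMod q) (hG : GGAt q y y ≠ 0) {k : Type}
    [Field k] [CharP k q] (red : integralClosure ℤ ℂ →+* k) {z : ℂ}
    (hz : aeval z (PhiDiag q) = 0) (hr : RedTo red z (ZMod.castHom (dvd_refl q) k y)) :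
    ∃ h : (z ^ q - z) / sq q ∈ integralClosure ℤ ℂ, red ⟨(z ^ q - z) / sq q, h⟩ ≠ 0 := by
  have hq : q.Prime := Fact.out
  obtain ⟨hi, hred⟩ := hr
  have hk : (PhiAt q z).eval z = 0 := by rw [← PhiDiag_aeval, hz]
  rw [kron_at hq] at hk
  have hs0 : sq q ≠ 0 := sq_ne_zero hq.pos
  have hs2 : sq q * sq q = -(q : ℂ) := sq_mul_self q
  have hq0 : (q : ℂ) ≠ 0 := by exact_mod_cast hq.ne_zero
  have hx2 : ((z ^ q - z) / sq q) ^ 2 = -GGAt q z z := by
    rw [div_pow, pow_two (sq q), hs2, div_eq_iff (neg_ne_zero.2 hq0)]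
    linear_combination (-1 : ℂ) * hk
  have hval : ((GGAt q (⟨z, hi⟩ : integralClosure ℤ ℂ) ⟨z, hi⟩ : integralClosure ℤ ℂ) : ℂ) =
      GGAt q z z := GGAt_map (algebraMap (integralClosure ℤ ℂ) ℂ) ⟨z, hi⟩ ⟨z, hi⟩
  have hint : (z ^ q - z) / sq q ∈ integralClosure ℤ ℂ := by
    have h1 : IsIntegral ℤ (((z ^ q - z) / sq q) ^ 2) := by
      rw [hx2, ← hval]
      exact (GGAt q (⟨z, hi⟩ : integralClosure ℤ ℂ) ⟨z, hi⟩).2.neg
    exact IsIntegral.of_pow (by norm_num) h1
  refine ⟨hint, fun h0 => ?_⟩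
  have h2 : (⟨(z ^ q - z) / sq q, hint⟩ : integralClosure ℤ ℂ) ^ 2 =
      -GGAt q (⟨z, hi⟩ : integralClosure ℤ ℂ) ⟨z, hi⟩ := by
    apply Subtype.ext
    show ((z ^ q - z) / sq q) ^ 2 =
      -((GGAt q (⟨z, hi⟩ : integralClosure ℤ ℂ) ⟨z, hi⟩ : integralClosure ℤ ℂ) : ℂ)
    rw [hx2, hval]
  have h3 := congrArg red h2
  rw [map_pow, h0, map_neg, GGAt_map, hred, ← GGAt_map] at h3
  have h4 : ZMod.castHom (dvd_refl q) k (GGAt q y y) = 0 := by
    have h5 : (0 : k) ^ 2 = 0 := by norm_num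
    rw [h5] at h3
    exact neg_eq_zero.1 h3.symm
  exact hG ((map_eq_zero _).1 h4)

private theorem swap_ne {q : ℕ} [Fact q.Prime] (h2 : q ≠ 2) (y : ZMod q) (hG : GGAt q y y ≠ 0)
    {k : Type} [Field k] [CharP k q] (red : integralClosure ℤ ℂ →+* k) (s : ℂ ≃+* ℂ)
    (hs : s (sq q) = -sq q) {z : ℂ} (hz : aeval z (PhiDiag q) = 0)
    (hr : RedTo red z (ZMod.castHom (dvd_refl q) k y))
    (hx : ∀ h : (z ^ q - z) / sq q ∈ integralClosure ℤ ℂ,
      ∃ h' : s ((z ^ q - z) / sq q) ∈ integralClosure ℤ ℂ,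
        red ⟨s ((z ^ q - z) / sq q), h'⟩ = red ⟨(z ^ q - z) / sq q, h⟩) : s z ≠ z := by
  intro hfix
  have hq : q.Prime := Fact.out
  obtain ⟨hint, hne⟩ := x_data y hG red hz hr
  obtain ⟨h', he⟩ := hx hint
  have hsx : s ((z ^ q - z) / sq q) = -((z ^ q - z) / sq q) := by
    rw [map_div₀, map_sub, map_pow, hfix, hs, div_neg]
  have h3 : (⟨s ((z ^ q - z) / sq q), h'⟩ : integralClosure ℤ ℂ) =
      -⟨(z ^ q - z) / sq q, hint⟩ := Subtype.ext hsx
  rw [h3, map_neg] at he
  have h4 : (2 : k) * red ⟨(z ^ q - z) / sq q, hint⟩ = 0 := by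
    linear_combination (-1 : k) * he
  rcases mul_eq_zero.1 h4 with h5 | h5
  · have h6 : ((2 : ℕ) : k) = 0 := by exact_mod_cast h5
    have h7 := (CharP.cast_eq_zero_iff k q 2).1 h6
    exact h2 ((Nat.prime_dvd_prime_iff_eq hq Nat.prime_two).1 h7)
  · exact hne h5

theorem exists_swap {q : ℕ} [Fact q.Prime] (h5 : 5 ≤ q) {k : Type} [Field k] [CharP k q]
    (red : integralClosure ℤ ℂ →+* k) (S : Finset (ZMod q))
    (hS : ∀ y ∈ S, SSj q y ∧ y ≠ 0 ∧ y ≠ 1728) :
    ∃ s : ℂ ≃+* ℂ, s (sq q) = -sq q ∧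
      ∀ y ∈ S, ∀ L M : Submodule ℤ ℂ, PairAt q red y L M → s (jL L) = jL M ∧ s (jL M) = jL L := by
  classical
  have hq : q.Prime := Fact.out
  have hq2 : q ≠ 2 := by omega
  let f : ℂ → ℂ := fun z => (z ^ q - z) / sq q
  let R : Set ℂ := {z | aeval z (PhiDiag q) = 0}
  have hae : ∀ (z : ℂ) (p : ℤ[X]), aeval z p = (p.map (Int.castRingHom ℂ)).eval z := by
    intro z p
    rw [eval_map, aeval_def]
    rfl
  have hD : PhiDiag q ≠ 0 := by
    intro h0
    have h1 := PhiDiag_leadingCoeff hq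
    rw [h0, leadingCoeff_zero] at h1
    norm_num at h1
  have hD0 : (PhiDiag q).map (Int.castRingHom ℂ) ≠ 0 := by
    rw [Ne, Polynomial.map_eq_zero_iff (RingHom.injective_int _)]
    exact hD
  have hR : R.Finite := by
    refine (Polynomial.finite_setOf_isRoot hD0).subset ?_
    intro z hz
    have hz' : aeval z (PhiDiag q) = 0 := hz
    rw [hae] at hz'
    exact hz'
  have hT : (R ∪ f '' R).Finite := hR.union (hR.image f)
  have hA : ((fun b : integralClosure ℤ ℂ => (b : ℂ)) ⁻¹' (R ∪ f '' R)).Finite :=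
    hT.preimage Subtype.val_injective.injOn
  obtain ⟨s, hs, hF⟩ := exists_inertia hq hq2 red hA.toFinset
  refine ⟨s, hs, ?_⟩
  intro y hy L M P
  obtain ⟨hss, hy0, hy1⟩ := hS y hy
  have hG : GGAt q y y ≠ 0 := by
    have h := (regular hq h5 y hss hy0 hy1).2
    rwa [ZMod.pow_card] at h
  have key : ∀ z : ℂ, aeval z (PhiDiag q) = 0 →
      RedTo red z (ZMod.castHom (dvd_refl q) k y) →
      s z ≠ z ∧ (s z = jL L ∨ s z = jL M) := by
    intro z hz hr
    refine ⟨swap_ne hq2 y hG red s hs hz hr ?_, ?_⟩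
    · intro h
      have h1 : (⟨(z ^ q - z) / sq q, h⟩ : integralClosure ℤ ℂ) ∈ hA.toFinset := by
        rw [Set.Finite.mem_toFinset]
        exact Or.inr ⟨z, hz, rfl⟩
      exact hF _ h1
    · apply P.all
      · have h1 : s (aeval z (PhiDiag q)) = aeval (s z) (PhiDiag q) := by
          rw [aeval_def, aeval_def]
          have h2 := Polynomial.hom_eval₂ (PhiDiag q) (algebraMap ℤ ℂ) (s : ℂ →+* ℂ) z
          have h3 : (s : ℂ →+* ℂ).comp (algebraMap ℤ ℂ) = algebraMap ℤ ℂ :=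
            RingHom.ext_int _ _
          rw [h3] at h2
          exact h2
        rw [← h1, hz, map_zero]
      · obtain ⟨hi, hred⟩ := hr
        have h1 : (⟨z, hi⟩ : integralClosure ℤ ℂ) ∈ hA.toFinset := by
          rw [Set.Finite.mem_toFinset]
          exact Or.inl hz
        obtain ⟨h', he⟩ := hF _ h1
        exact ⟨h', by rw [← hred]; exact he⟩
  have hdL := diag_of_hasSq hq P.latL P.sqL
  have hdM := diag_of_hasSq hq P.latM P.sqM
  obtain ⟨k1, k2⟩ := key _ hdL P.redL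
  obtain ⟨k3, k4⟩ := key _ hdM P.redM
  refine ⟨?_, ?_⟩
  · rcases k2 with h | h
    · exact absurd h k1
    · exact h
  · rcases k4 with h | h
    · exact h
    · exact absurd h k3

end Pool.Agent.SS.ZI
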