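import Mathlib
import Pool.Agent.Work.MP_a5099b_nt.H.HDefs
import Pool.Agent.Work.MP_a5099b_nt.H.Diag
import Pool.Agent.Work.MP_a5099b_nt.H.PSup
import Pool.Agent.Work.MP_a5099b_nt.P2.Main
import Pool.Agent.Work.MP_a5099b_nt.SpecB

/-!
# Module ZI/Red2 (size S): reduction of the modular equation of level 2

PROOF of `phi_red`. `phi_of_sup` (H/Diag, `n = 2`, `c = 1`, `one_smul`): `(PhiAt 2 (jL A)).eval (jL B) = 0` in `ℂ`. By `PhiAt_two_eval` (P2/Main) this is a polynomial identity with integer coefficients between `jL A` and `jL B`, both in `integralClosure ℤ ℂ` (`RedTo`), so it holds in `integralClosure ℤ ℂ`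
(injectivity of the inclusion); apply `red`: the identity holds in `k` for the images of `y`, `y'` under `ZMod.castHom`, which is injective (`RingHom.injective`), so it holds in `ZMod q`; `PhiAt_two_eval` again.
`phi_red'`: `PhiAt_symm` (B/Sym).
-/

set_option autoImplicit false

namespace Pool.Agent.SS.ZI

open Polynomial
open Pool.Agent.Work.CM
open Pool.Agent.SS.HB
open scoped Pointwise

private theorem two_map {R S : Type*} [CommRing R] [CommRing S] (f : R →+* S) (x y : R) :
    f ((PhiAt 2 x).eval y) = (PhiAt 2 (f x)).eval (f y) := by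
  rw [PhiAt_two_eval, PhiAt_two_eval]
  simp only [map_add, map_mul, map_pow, map_sub, map_neg, map_ofNat]

theorem phi_red {q : ℕ} [Fact q.Prime] {k : Type} [Field k] [CharP k q]
    (red : integralClosure ℤ ℂ →+* k) {A B : Submodule ℤ ℂ} (h : Sup 2 A B) {y y' : ZMod q}
    (hy : RedTo red (jL A) (ZMod.castHom (dvd_refl q) k y))
    (hy' : RedTo red (jL B) (ZMod.castHom (dvd_refl q) k y')) : (PhiAt 2 y).eval y' = 0 := by
  have h0 : (PhiAt 2 (jL A)).eval (jL B) = 0 :=
    phi_of_sup Nat.prime_two h.lat one_ne_zero (by rw [one_smul]; exact h)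
  obtain ⟨ha, hya⟩ := hy
  obtain ⟨hb, hyb⟩ := hy'
  have h1 : (PhiAt 2 (⟨jL A, ha⟩ : integralClosure ℤ ℂ)).eval
      (⟨jL B, hb⟩ : integralClosure ℤ ℂ) = 0 := by
    have hinj : Function.Injective (algebraMap (integralClosure ℤ ℂ) ℂ) :=
      Subtype.coe_injective
    apply hinj
    rw [two_map, map_zero]
    exact h0
  have h2 := congrArg red h1
  rw [two_map, map_zero, hya, hyb, ← two_map] at h2
  exact (ZMod.castHom (dvd_refl q) k).injective (h2.trans (map_zero _).symm)

theorem phi_red' {q : ℕ} [Fact q.Prime] {k : Type} [Field k] [CharP k q]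
    (red : integralClosure ℤ ℂ →+* k) {A B : Submodule ℤ ℂ} (h : Sup 2 A B) {y y' : ZMod q}
    (hy : RedTo red (jL A) (ZMod.castHom (dvd_refl q) k y))
    (hy' : RedTo red (jL B) (ZMod.castHom (dvd_refl q) k y')) : (PhiAt 2 y').eval y = 0 := by
  rw [PhiAt_symm Nat.prime_two]
  exact phi_red red h hy hy'

end Pool.Agent.SS.ZI
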