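import Mathlib
import Pool.Agent.Work.MP_a5099b_nt.K1.KDefs
import Pool.Agent.Work.MP_a5099b_nt.K1.TFun
import Pool.Agent.Work.MP_a5099b_nt.A.Lat
import Pool.Agent.Work.MP_a5099b_nt.H.Cov
import Pool.Agent.Work.MP_a5099b_nt.H.Sand
import Pool.Agent.Work.MP_a5099b_nt.I1.DTwo
import Pool.Agent.Work.MP_a5099b_nt.I1.DStab

/-!
# Module ZI/Act1 (size S-M): ideals act on the invariants (`q = 1 mod 4`)

`LI := K1B.LI`. `K1B.LI_mul`: `LI φ (LI φ A I) J = LI φ A (I * J)`; `K1B.LI_lat, LI_hasSq, LI_smul, LI_span`.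
* `jL_congr1`: `exists_smul_of_jL` (A/Lat): `B = m • A`, `m ≠ 0`; `LI_smul`, `jL_smul`.
* `jL_span1`: `LI φ A (span {γ} * I) = LI φ ((φ γ)⁻¹ • A) I = (φ γ)⁻¹ • LI φ A I` (`LI_mul, LI_span, LI_smul, phi_ne_zero`), `jL_smul`.
* `two1`: `prin_of_jL` (K1/TFun): `I * I = span {γ}`; `two_torsion` (I1/DTwo). If `I = span {γ'}` (`γ' ≠ 0` because `I ≠ ⊥`): `jL (LI A I) = jL A` (`LI_span`, `jL_smul`). If `span {μ} * I = span {ε} * P2 δ` (`μ, ε ≠ 0`): `jL_span1` twice (`P2 δ ≠ ⊥`, it contains `2`).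
* `sup_p2`: `D := LI φ A (P2 δ)`; `A ≤ D` (`le_LI`), `LI φ D (P2 δ) = LI φ A (P2 δ * P2 δ) = (2 : ℂ)⁻¹ • A` (`p2_sq` in I1/DStab, `LI_span` with `γ = 2`), so `D ≤ (2 : ℂ)⁻¹ • A`. `exists_sup` (H/Cov): `Sup n A D`, `Sup n' D (2⁻¹ • A)`, `n n' = 4` (`cov_sup, cov_smul, cov_pos`, as in K/PSup.lean).
`n = 1`: `D = A` (`sup_one`), so `LI φ D (P2 δ) = LI φ A (P2 δ) = D = A`, but it is `2⁻¹ • A`, of smaller covolume: contradiction. `n = 4`, `n' = 1`: `D = 2⁻¹ • A`, so `LI φ D (P2 δ) = 2⁻¹ • LI φ A (P2 δ) = 2⁻¹ • 2⁻¹ • A` (`LI_smul`), but it is `2⁻¹ • A`: contradiction by `cov_smul`. So `n = 2`.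
-/

set_option autoImplicit false
set_option linter.unusedSectionVars false

namespace Pool.Agent.SS.ZI

open NumberField
open Pool.Agent.Work.CM
open Pool.Agent.Work.MP_a5099b_nt
open Pool.Agent.SS.HB
open scoped Pointwise

variable {K : Type} [Field K] [NumberField K] {q : ℕ} {δ : 𝓞 K}

private theorem act1_p2_ne (h : PrG.Quad K q δ) : PrG.P2 δ ≠ ⊥ := by
  intro h0
  have h1 := PrG.p2_sq h
  rw [h0, Ideal.mul_bot] at h1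
  have h2 : (2 : 𝓞 K) = 0 := by
    have h3 := h1.symm
    rwa [Ideal.span_singleton_eq_bot] at h3
  exact two_ne_zero h2

private theorem act1_span (h : PrG.Quad K q δ) {φ : 𝓞 K →+* ℂ} (hφ : φ δ = sq q)
    {A : Submodule ℤ ℂ} (hsA : HasSq q A) {γ : 𝓞 K} (hγ : γ ≠ 0) (I : Ideal (𝓞 K)) :
    K1B.LI φ A (Ideal.span {γ} * I) = (φ γ)⁻¹ • K1B.LI φ A I := by
  rw [← K1B.LI_mul, K1B.LI_span h hφ hsA hγ, K1B.LI_smul (inv_ne_zero (K1B.phi_ne_zero h hφ hγ))]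

theorem jL_congr1 (h : PrG.Quad K q δ) {φ : 𝓞 K →+* ℂ} (hφ : φ δ = sq q) {A B : Submodule ℤ ℂ}
    (hA : IsLat A) (hB : IsLat B) (hsA : HasSq q A) (hj : jL A = jL B) {X : Ideal (𝓞 K)}
    (hX : X ≠ ⊥) : jL (K1B.LI φ A X) = jL (K1B.LI φ B X) := by
  obtain ⟨m, hm, rfl⟩ := exists_smul_of_jL hA hB hj
  rw [K1B.LI_smul hm, jL_smul (K1B.LI_lat h hφ hA hsA hX) hm]

theorem jL_span1 (h : PrG.Quad K q δ) {φ : 𝓞 K →+* ℂ} (hφ : φ δ = sq q) {A : Submodule ℤ ℂ}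
    (hA : IsLat A) (hsA : HasSq q A) {γ : 𝓞 K} (hγ : γ ≠ 0) {I : Ideal (𝓞 K)} (hI : I ≠ ⊥) :
    jL (K1B.LI φ A (Ideal.span {γ} * I)) = jL (K1B.LI φ A I) := by
  rw [act1_span h hφ hsA hγ,
    jL_smul (K1B.LI_lat h hφ hA hsA hI) (inv_ne_zero (K1B.phi_ne_zero h hφ hγ))]

theorem two1 (h : PrG.Quad K q δ) {φ : 𝓞 K →+* ℂ} (hφ : φ δ = sq q) {A : Submodule ℤ ℂ}
    (hA : IsLat A) (hsA : HasSq q A) {I : Ideal (𝓞 K)} (hI : I ≠ ⊥)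
    (h2 : jL (K1B.LI φ A (I * I)) = jL A) :
    jL (K1B.LI φ A I) = jL A ∨ jL (K1B.LI φ A I) = jL (K1B.LI φ A (PrG.P2 δ)) := by
  obtain ⟨γ, hγ0, hγ⟩ := K1B.prin_of_jL h hφ hA hsA (mul_ne_zero hI hI) h2
  rcases PrG.two_torsion h I hI γ hγ with ⟨γ', hg⟩ | ⟨μ, ε, hμ, hε, he⟩
  · left
    have hg0 : γ' ≠ 0 := by
      rintro rfl
      exact hI (hg.trans (Ideal.span_singleton_eq_bot.2 rfl))
    rw [hg, K1B.LI_span h hφ hsA hg0, jL_smul hA (inv_ne_zero (K1B.phi_ne_zero h hφ hg0))]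
  · right
    rw [← jL_span1 h hφ hA hsA hμ hI, he, jL_span1 h hφ hA hsA hε (act1_p2_ne h)]

theorem sup_p2 (h : PrG.Quad K q δ) {φ : 𝓞 K →+* ℂ} (hφ : φ δ = sq q) {A : Submodule ℤ ℂ}
    (hA : IsLat A) (hsA : HasSq q A) : Sup 2 A (K1B.LI φ A (PrG.P2 δ)) := by
  have hP := act1_p2_ne h
  have hD := K1B.LI_lat h hφ hA hsA hP
  have hsD := K1B.LI_hasSq hφ A (PrG.P2 δ)
  have hle1 : A ≤ K1B.LI φ A (PrG.P2 δ) := K1B.le_LI h hφ hsA _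
  have hDD : K1B.LI φ (K1B.LI φ A (PrG.P2 δ)) (PrG.P2 δ) = ((2 : ℂ)⁻¹) • A := by
    rw [K1B.LI_mul, PrG.p2_sq h, K1B.LI_span h hφ hsA two_ne_zero, map_ofNat]
  have hle2 : K1B.LI φ A (PrG.P2 δ) ≤ ((2 : ℂ)⁻¹) • A := by
    rw [← hDD]
    exact K1B.le_LI h hφ hsD _
  have h2 : ((2 : ℂ)⁻¹) ≠ 0 := inv_ne_zero two_ne_zero
  have hL2 : IsLat (((2 : ℂ)⁻¹) • A) := hA.smul h2
  obtain ⟨n, hn0, hn⟩ := exists_sup hA hD hle1
  obtain ⟨n', hn0', hn'⟩ := exists_sup hD hL2 hle2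
  have c1 := cov_sup hn
  have c2 := cov_sup hn'
  have c3 := cov_smul hA h2
  have hnorm : ‖((2 : ℂ)⁻¹)‖ = (2 : ℝ)⁻¹ := by
    rw [norm_inv, Complex.norm_ofNat]
  rw [c2, c3, hnorm] at c1
  have hcov := (cov_pos hA).ne'
  have hnn : (n : ℝ) * n' = 4 := by
    have h1 : cov A * 4 = (n * n') * cov A := by
      conv_lhs => rw [c1]
      ring
    have h3 : cov A * ((n : ℝ) * n') = cov A * 4 := by
      rw [h1]
      ring
    exact mul_left_cancel₀ hcov h3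
  have hnn' : n * n' = 4 := by exact_mod_cast hnn
  have hne : ∀ B : Submodule ℤ ℂ, IsLat B → ((2 : ℂ)⁻¹) • B ≠ B := by
    intro B hB he
    have e1 := cov_smul hB h2
    rw [he, hnorm] at e1
    have e2 := cov_pos hB
    linarith
  have hdvd : n ∣ 2 ^ 2 := ⟨n', by rw [hnn']; norm_num⟩
  obtain ⟨k, hk, hnk⟩ := (Nat.dvd_prime_pow Nat.prime_two).1 hdvd
  have hk3 : k = 0 ∨ k = 1 ∨ k = 2 := by omega
  rcases hk3 with rfl | rfl | rfl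
  · exfalso
    rw [pow_zero] at hnk
    subst hnk
    have hDA := sup_one hn
    rw [← hDA, ← hDA] at hDD
    exact hne A hA hDD.symm
  · rw [pow_one] at hnk
    rw [hnk] at hn
    exact hn
  · exfalso
    have hn1 : n' = 1 := by
      rw [hnk] at hnn'
      omega
    rw [hn1] at hn'
    have hDA := sup_one hn'
    have e1 := congrArg (fun B => K1B.LI φ B (PrG.P2 δ)) hDA
    rw [hDD, K1B.LI_smul h2, hDA] at e1
    exact hne _ hL2 e1.symm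

end Pool.Agent.SS.ZI
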