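import Mathlib
import Pool.Agent.Work.MP_a5099b_nt.K1.KDefs
import Pool.Agent.Work.MP_a5099b_nt.H.ConjJ
import Pool.Agent.Work.MP_a5099b_nt.I1.CConj

/-!
# Module ZI/CLI1 (size S-M): the conjugate of the lattice `L_I` (`q = 1 mod 4`)

PROOF. `c := PrG.conj h`, `c (c x) = x` (`PrG.conj_conj`), `φ (c x) = σ (φ x)` for all `x` (`PrG.coords`: `x = a + b δ`; `phi_od`, `PrG.conj_coords`, `σ (sq q) = -sq q`).
`K1B.LI_lat`: `IsLat (LI φ L I)`; `jL_conj`, `conj_hasSq` (H/ConjJ): `conj σ L` is a lattice with multiplication by `sq q`; `I.map c ≠ ⊥`.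
(⊆) Let `w ∈ conj σ (LI φ L I)` and `x' ∈ I.map c`: `x' = c x`, `x = c x' ∈ I`. `φ x` maps `LI φ L I` into `L` (definition), so by `conj_mem` (CM/Cj) `σ (φ x) w ∈ conj σ L`, i.e. `φ x' w ∈ conj σ L`.
(⊇) Apply (⊆) to `σ.symm` (`σ.symm (sq q) = -sq q`), `conj σ L` and `I.map c`: `conj σ.symm (LI φ (conj σ L) (I.map c)) ≤ LI φ (conj σ.symm (conj σ L)) ((I.map c).map c) = LI φ L I` (`conj_trans, conj_refl`, `conj_conj`);
apply `conj_le σ` and `conj_trans, conj_refl`.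
-/

set_option autoImplicit false
set_option linter.unusedSectionVars false

namespace Pool.Agent.SS.ZI

open NumberField
open Pool.Agent.Work.CM
open Pool.Agent.Work.MP_a5099b_nt
open Pool.Agent.SS.HB
open scoped Pointwise

variable {K : Type} [Field K] [NumberField K] {q : ℕ} {δ : 𝓞 K}

private theorem cli_phi (h : PrG.Quad K q δ) {φ : 𝓞 K →+* ℂ} (hφ : φ δ = sq q) {σ : ℂ ≃+* ℂ}
    (hσ : σ (sq q) = -sq q) (x : 𝓞 K) : φ (PrG.conj h x) = σ (φ x) := by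
  obtain ⟨a, b, rfl⟩ := PrG.coords h x
  rw [PrG.conj_coords, K1B.phi_od hφ, map_add, map_mul, hσ, map_sub, map_mul, hφ]
  simp only [map_intCast]
  ring

private theorem cli_le (h : PrG.Quad K q δ) {φ : 𝓞 K →+* ℂ} (hφ : φ δ = sq q) {σ : ℂ ≃+* ℂ}
    (hσ : σ (sq q) = -sq q) {L : Submodule ℤ ℂ} (hL : IsLat L) (hs : HasSq q L)
    {I : Ideal (𝓞 K)} (hI : I ≠ ⊥) :
    conj σ (K1B.LI φ L I) ≤ K1B.LI φ (conj σ L) (I.map (PrG.conj h : 𝓞 K →+* 𝓞 K)) := by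
  intro w hw
  rw [K1B.mem_LI]
  intro x' hx'
  obtain ⟨x, hx, rfl⟩ := (Ideal.mem_map_iff_of_surjective (PrG.conj h : 𝓞 K →+* 𝓞 K)
    (PrG.conj h).surjective).1 hx'
  have h1 := cli_phi h hφ hσ x
  have h2 := conj_mem σ (K1B.LI_lat h hφ hL hs hI) hL (m := φ x) (fun z hz => hz x hx) w hw
  rw [← h1] at h2
  exact h2

theorem conj_LI1 (h : PrG.Quad K q δ) {φ : 𝓞 K →+* ℂ} (hφ : φ δ = sq q) {σ : ℂ ≃+* ℂ}
    (hσ : σ (sq q) = -sq q) {L : Submodule ℤ ℂ} (hL : IsLat L) (hs : HasSq q L)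
    {I : Ideal (𝓞 K)} (hI : I ≠ ⊥) :
    conj σ (K1B.LI φ L I) = K1B.LI φ (conj σ L) (I.map (PrG.conj h : 𝓞 K →+* 𝓞 K)) := by
  refine le_antisymm (cli_le h hφ hσ hL hs hI) ?_
  have hσ' : σ.symm (sq q) = -sq q := by
    have h1 : σ (-sq q) = sq q := by rw [map_neg, hσ, neg_neg]
    rw [← h1, RingEquiv.symm_apply_apply, h1]
  have hL' := (jL_conj σ hL).1
  have hs' := conj_hasSq σ hL hs
  have hI' : I.map (PrG.conj h : 𝓞 K →+* 𝓞 K) ≠ ⊥ := by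
    intro h0
    refine hI ?_
    exact (Ideal.map_eq_bot_iff_of_injective (PrG.conj h).injective).1 h0
  have hII : (I.map (PrG.conj h : 𝓞 K →+* 𝓞 K)).map (PrG.conj h : 𝓞 K →+* 𝓞 K) = I := by
    rw [Ideal.map_map]
    have : (PrG.conj h : 𝓞 K →+* 𝓞 K).comp (PrG.conj h : 𝓞 K →+* 𝓞 K) = RingHom.id _ := by
      ext x
      exact congrArg _ (PrG.conj_conj h x)
    rw [this, Ideal.map_id]
  have h2 := cli_le h hφ hσ' hL' hs' hI'
  rw [hII, conj_trans σ.symm σ hL, RingEquiv.self_trans_symm, conj_refl hL] at h2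
  have hlat1 := K1B.LI_lat h hφ hL' hs' hI'
  have hlat2 := K1B.LI_lat h hφ hL hs hI
  have h3 := conj_le σ (jL_conj σ.symm hlat1).1 hlat2 h2
  rw [conj_trans σ σ.symm hlat1, RingEquiv.symm_trans_self, conj_refl hlat1] at h3
  exact h3

end Pool.Agent.SS.ZI
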