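import Mathlib
import Pool.Agent.Work.MP_a5099b_nt.K1.KDefs
import Pool.Agent.Work.MP_a5099b_nt.K1.PTwo
import Pool.Agent.Work.MP_a5099b_nt.A.Lat
import Pool.Agent.Work.MP_a5099b_nt.B.SupF
import Pool.Agent.Work.MP_a5099b_nt.H.Eigen
import Pool.Agent.Work.MP_a5099b_nt.H.PSup
import Pool.Agent.Work.MP_a5099b_nt.H1.Gen1
import Pool.Agent.Work.MP_a5099b_nt.H1.HomForm1
import Pool.Agent.Work.MP_a5099b_nt.H1.Local1
import Pool.Agent.Work.MP_a5099b_nt.I1.DPr
import Pool.Agent.Work.MP_a5099b_nt.I1.Fin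

/-!
# Module ZI/Trans1 (size S-M): every lattice with multiplication by `√(-q)` is an `A_Q` (`q = 1 mod 4`)

PROOF of `prime_trans1`: `Sup l A (x⁻¹ • B)` (`Sup_smul`), `HasSq q (x⁻¹ • B)` (`IsMul.smul`). `exists_eigen` (H/Eigen) for `A ≤ x⁻¹ • B`: `l ∣ e ^ 2 + q`, so `jacobiSym (-q) l = 1` (`l ≠ q`, so `l ∤ e`; see the end of K1/Main.lean), and
`jacobiSym (-q) l = χ₄ l * legendreSym q l` (`jac_eq` at the top of K1/Main.lean, private there: copy it), `PrG.split`: a prime ideal `Q` of norm `l`; `K1B.stable_eq`: `x⁻¹ • B = LI A Q` or `= LI A Q'`, `Q'` the conjugate, of norm `l`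
(`PrG.absNorm_conj`); `jL (x⁻¹ • B) = jL B` (`jL_smul`).
`exists_trans1`: `gen1` (H1/Gen1): the multipliers of `A` and of `B` are the `x + y sq q`, so `hom_form1` gives the form `a, b, c` of determinant `q`. `exists_odd_value`, `primes_even` (I1/Fin, `m = 1`, as at the beginning of the proof of `three1` in H1/Three1.lean): a prime `l > q + 5`
which is a value; so `x ≠ 0` with `Sup l (x • A) B`; `prime_trans1`; `Q ≠ ⊥` because its norm is not zero.
-/

/-!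
# Module ZI/Trans1 (size S-M): every lattice with multiplication by `√(-q)` is an `A_Q` (`q = 1 mod 4`)

PROOF of `prime_trans1`: `Sup l A (x⁻¹ • B)` (`Sup_smul`), `HasSq q (x⁻¹ • B)` (`IsMul.smul`). `exists_eigen` (H/Eigen) for `A ≤ x⁻¹ • B`: `l ∣ e ^ 2 + q`, so `jacobiSym (-q) l = 1` (`l ≠ q`, so `l ∤ e`; see the end of K1/Main.lean), and
`jacobiSym (-q) l = χ₄ l * legendreSym q l` (`jac_eq` at the top of K1/Main.lean, private there: copy it), `PrG.split`: a prime ideal `Q` of norm `l`; `K1B.stable_eq`: `x⁻¹ • B = LI A Q` or `= LI A Q'`, `Q'` the conjugate, of norm `l`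
(`PrG.absNorm_conj`); `jL (x⁻¹ • B) = jL B` (`jL_smul`).
`exists_trans1`: `gen1` (H1/Gen1): the multipliers of `A` and of `B` are the `x + y sq q`, so `hom_form1` gives the form `a, b, c` of determinant `q`. `exists_odd_value`, `primes_even` (I1/Fin, `m = 1`, as at the beginning of the proof of `three1` in H1/Three1.lean): a prime `l > q + 5`
which is a value; so `x ≠ 0` with `Sup l (x • A) B`; `prime_trans1`; `Q ≠ ⊥` because its norm is not zero.
-/

set_option autoImplicit false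
set_option linter.unusedSectionVars false

namespace Pool.Agent.SS.ZI

open NumberField
open Pool.Agent.Work.CM
open Pool.Agent.Work.MP_a5099b_nt
open Pool.Agent.SS.HB
open scoped Pointwise

variable {K : Type} [Field K] [NumberField K] {q : ℕ} {δ : 𝓞 K}

private theorem jac_eq {q l : ℕ} [Fact q.Prime] (hq4 : q % 4 = 1) (hl : l.Prime) (hl2 : l ≠ 2) :
    jacobiSym (-q) l = ZMod.χ₄ (l : ZMod 4) * legendreSym q l := by
  have hodd : Odd l := hl.odd_of_ne_two hl2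
  have e : (-(q : ℤ)) = -1 * q := by ring
  rw [e, jacobiSym.mul_left, jacobiSym.at_neg_one hodd, jacobiSym.legendreSym.to_jacobiSym,
    jacobiSym.quadratic_reciprocity_one_mod_four hq4 hodd]

theorem prime_trans1 (h : PrG.Quad K q δ) {φ : 𝓞 K →+* ℂ} (hφ : φ δ = sq q)
    {A B : Submodule ℤ ℂ} (hA : IsLat A) (hB : IsLat B) (hsA : HasSq q A) (hsB : HasSq q B)
    {l : ℕ} (hl : l.Prime) (hl2 : l ≠ 2) (hlq : l ≠ q) {x : ℂ} (hx : x ≠ 0)
    (hsup : Sup l (x • A) B) :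
    ∃ Q : Ideal (𝓞 K), Ideal.absNorm Q = l ∧ jL (K1B.LI φ A Q) = jL B := by
  have : Fact q.Prime := ⟨h.prime⟩
  have hsup' : Sup l A (x⁻¹ • B) := by
    have h1 := Sup_smul hsup (inv_ne_zero hx)
    rwa [smul_smul, inv_mul_cancel₀ hx, one_smul] at h1
  have hsq : HasSq q (x⁻¹ • B) := IsMul.smul hsB (inv_ne_zero hx)
  obtain ⟨e, -, hdiv⟩ := exists_eigen hl hsA hsup' hsq
  have hlp : Prime (l : ℤ) := Nat.prime_iff_prime_int.1 hl
  have hne : ¬ (l : ℤ) ∣ e := by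
    intro hle
    have h5 : (l : ℤ) ∣ q := by
      have e1 : (q : ℤ) = (e ^ 2 + q) - e ^ 2 := by ring
      rw [e1]
      exact dvd_sub hdiv (dvd_pow hle two_ne_zero)
    have h6 : l ∣ q := by exact_mod_cast h5
    exact hlq ((Nat.prime_dvd_prime_iff_eq hl h.prime).1 h6)
  have hj : jacobiSym (-q) l = 1 := by
    have h1 : (-(q : ℤ)) % (l : ℕ) = (e ^ 2) % (l : ℕ) := by
      rw [Int.emod_eq_emod_iff_emod_sub_eq_zero]
      exact Int.emod_eq_zero_of_dvd (by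
        have e1 : -(q : ℤ) - e ^ 2 = -(e ^ 2 + q) := by ring
        rw [e1]
        exact (dvd_neg).2 hdiv)
    rw [jacobiSym.mod_left' h1]
    apply jacobiSym.sq_one'
    rw [← Int.isCoprime_iff_gcd_eq_one]
    exact (hlp.coprime_iff_not_dvd.2 hne).symm
  rw [jac_eq h.mod4 hl hl2] at hj
  obtain ⟨Q, Q', -, -, -, hQ, -⟩ := PrG.split h l hl hl2 hlq hj
  have hcase := K1B.stable_eq h hφ hA hsA hl hl2 hlq hQ hsup' hsq
  have hjB : jL (x⁻¹ • B) = jL B := jL_smul hB (inv_ne_zero hx)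
  rcases hcase with hc | hc
  · exact ⟨Q, hQ, by rw [← hc, hjB]⟩
  · exact ⟨Q.map (PrG.conj h : 𝓞 K →+* 𝓞 K), by rw [PrG.absNorm_conj, hQ], by rw [← hc, hjB]⟩

theorem exists_trans1 (h : PrG.Quad K q δ) {φ : 𝓞 K →+* ℂ} (hφ : φ δ = sq q)
    {A B : Submodule ℤ ℂ} (hA : IsLat A) (hB : IsLat B) (hsA : HasSq q A) (hsB : HasSq q B) :
    ∃ I : Ideal (𝓞 K), I ≠ ⊥ ∧ jL (K1B.LI φ A I) = jL B := by
  have hmul : ∀ μ, IsMul B μ ↔ IsMul A μ := by
    have key : ∀ {L M : Submodule ℤ ℂ}, IsLat L → HasSq q L → HasSq q M → ∀ μ, IsMul L μ →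
        IsMul M μ := by
      intro L M hL hsL hsM μ hμ
      obtain ⟨x, y, rfl⟩ := HC.gen1 h.prime h.mod4 hL hsL hμ
      exact IsMul.add (IsMul.int M x) (IsMul.mul (IsMul.int M y) hsM)
    intro μ
    exact ⟨key hB hsB hsA μ, key hA hsA hsB μ⟩
  obtain ⟨a, b, c, ha, hd, hf⟩ := HC.hom_form1 h.prime h.mod4 hA hB hsA hmul
  obtain ⟨x₀, y₀, hodd⟩ := HC.exists_odd_value h.mod4 hd
  have hc0 : IsCoprime (a * x₀ ^ 2 + 2 * b * x₀ * y₀ + c * y₀ ^ 2) ((8 * 1 : ℕ) : ℤ) := by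
    have h8 : ((8 * 1 : ℕ) : ℤ) = 2 ^ 3 := by norm_num
    rw [h8]
    exact IsCoprime.pow_right (Int.isCoprime_two_right.2 hodd)
  obtain ⟨l, hlB, hl, -, x₁, y₁, hlv⟩ :=
    PrG.primes_even q h.prime h.mod4 1 odd_one squarefree_one
      h.prime.not_dvd_one a b c ha hd x₀ y₀ hc0 (q + 5)
  obtain ⟨x, hx, hsup⟩ := hf x₁ y₁ l hl.pos hlv
  obtain ⟨Q, hQ, hj⟩ := prime_trans1 h hφ hA hB hsA hsB hl (by omega) (by omega) hx hsup
  refine ⟨Q, ?_, hj⟩
  rintro rfl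
  rw [Ideal.absNorm_bot] at hQ
  exact hl.ne_zero hQ.symm

end Pool.Agent.SS.ZI
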