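import Mathlib
import Pool.Agent.Work.MP_a5099b_nt.ZI.CLI1
import Pool.Agent.Work.MP_a5099b_nt.ZI.Trans1
import Pool.Agent.Work.MP_a5099b_nt.ZI.Act1

/-!
# Module ZI/Refl1 (size S-M): the reflection argument (`q = 1 mod 4`)

Imports may be stubs. Write `j(A, I) = jL (K1B.LI φ A I)`, `c = PrG.conj h`, `I' = I.map c`, `I * I' = span {absNorm I}` (`PrG.map_conj_mul`), `K1B.LI_mul`. `jL_congr1, jL_span1, two1` from ZI/Act1
(`jL_congr1` also in the form: `j(A, I) = j(A, J)` implies `j(A, I * X) = j(A, J * X)`, by `LI_mul`, `K1B.LI_lat`, `K1B.LI_hasSq`).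

PROOF. `exists_trans1`: `T ≠ ⊥` with `j(A, T) = jL B`. `conj_LI1` (ZI/CLI1): `conj s (LI A T) = LI (conj s A) T'`, and `jL (conj s X) = s (jL X)` (`jL_conj`), so `s (jL B) = s (j(A, T)) = jL (LI (conj s A) T')` and, since `jL (conj s A) = s (jL A) = j(A, Q)` (`h1`), by `jL_congr1`:
`s (jL B) = jL (LI (LI A Q) T') = j(A, Q * T')`.  (*)
Case 1: `j(B, Q) = s (jL B)`. `j(B, Q) = j(A, T * Q)` (`jL_congr1` for `B` and `LI A T`). So `j(A, T * Q) = j(A, Q * T')`; multiply by `Q' * T`: `j(A, (Q * Q') * (T * T)) = j(A, (Q * Q') * ((T * T') * ⊤))`, so `j(A, T * T) = jL A` (`jL_span1`, `LI_top`; the norms are not 0).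
`two1`: `jL B = j(A, T)` is `jL A` or `j(A, P2 δ)`.
Case 2: `j(B, Q') = s (jL B)`. In the same way `j(A, T * Q') = j(A, Q * T')`; multiply by `T * Q'`: `j(A, (T * Q') * (T * Q')) = j(A, (Q * Q') * (T * T')) = jL A`. `two1` for `T * Q'`: `j(A, T * Q') = jL A`, or `= j(A, P2 δ)`; multiply by `Q`: `jL B = j(A, T) = j(A, T * (Q' * Q))` is `j(A, Q) = s (jL A)`,
or `j(A, P2 δ * Q) = j(A, Q * P2 δ) = jL (LI (LI A Q) (P2 δ)) = jL (LI (conj s A) (P2 δ))` (`jL_congr1` for `LI A Q` and `conj s A`).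
-/

set_option autoImplicit false
set_option linter.unusedSectionVars false

namespace Pool.Agent.SS.ZI

open NumberField
open Pool.Agent.Work.CM
open Pool.Agent.Work.MP_a5099b_nt
open Pool.Agent.SS.HB
open scoped Pointwise

variable {K : Type} [Field K] [NumberField K] {q : ℕ} {δ : 𝓞 K}

private theorem map_ne (h : PrG.Quad K q δ) {I : Ideal (𝓞 K)} (hI : I ≠ ⊥) :
    I.map (PrG.conj h : 𝓞 K →+* 𝓞 K) ≠ ⊥ := by
  intro h0
  have h1 := PrG.absNorm_conj h I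
  rw [h0, Ideal.absNorm_bot] at h1
  exact hI (Ideal.absNorm_eq_zero_iff.1 h1.symm)

private theorem mul_ne {I J : Ideal (𝓞 K)} (hI : I ≠ ⊥) (hJ : J ≠ ⊥) : I * J ≠ ⊥ :=
  mul_ne_zero hI hJ

private theorem mulX (h : PrG.Quad K q δ) {φ : 𝓞 K →+* ℂ} (hφ : φ δ = sq q)
    {A : Submodule ℤ ℂ} (hA : IsLat A) (hsA : HasSq q A) {I J X : Ideal (𝓞 K)} (hI : I ≠ ⊥)
    (hJ : J ≠ ⊥) (hX : X ≠ ⊥) (hj : jL (K1B.LI φ A I) = jL (K1B.LI φ A J)) :
    jL (K1B.LI φ A (I * X)) = jL (K1B.LI φ A (J * X)) := by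
  rw [← K1B.LI_mul, ← K1B.LI_mul]
  exact jL_congr1 h hφ (K1B.LI_lat h hφ hA hsA hI) (K1B.LI_lat h hφ hA hsA hJ)
    (K1B.LI_hasSq hφ A I) hj hX

private theorem strip (h : PrG.Quad K q δ) {φ : 𝓞 K →+* ℂ} (hφ : φ δ = sq q)
    {A : Submodule ℤ ℂ} (hA : IsLat A) (hsA : HasSq q A) {Y I : Ideal (𝓞 K)} (hY : Y ≠ ⊥)
    (hI : I ≠ ⊥) :
    jL (K1B.LI φ A ((Y * Y.map (PrG.conj h : 𝓞 K →+* 𝓞 K)) * I)) = jL (K1B.LI φ A I) := by
  rw [PrG.map_conj_mul h Y hY]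
  refine jL_span1 h hφ hA hsA ?_ hI
  rw [Nat.cast_ne_zero]
  exact fun h0 => hY (Ideal.absNorm_eq_zero_iff.1 h0)

private theorem p2_ne : PrG.P2 δ ≠ ⊥ := by
  intro h0
  have h1 : (2 : 𝓞 K) ∈ PrG.P2 δ := Ideal.subset_span (by simp)
  rw [h0, Ideal.mem_bot] at h1
  exact two_ne_zero h1

theorem refl1 (h : PrG.Quad K q δ) {φ : 𝓞 K →+* ℂ} (hφ : φ δ = sq q)
    {A B : Submodule ℤ ℂ} (hA : IsLat A) (hB : IsLat B) (hsA : HasSq q A) (hsB : HasSq q B)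
    {s : ℂ ≃+* ℂ} (hs : s (sq q) = -sq q) {Q : Ideal (𝓞 K)} (hQ : Q ≠ ⊥)
    (h1 : jL (K1B.LI φ A Q) = s (jL A))
    (h2 : jL (K1B.LI φ B Q) = s (jL B) ∨
      jL (K1B.LI φ B (Q.map (PrG.conj h : 𝓞 K →+* 𝓞 K))) = s (jL B)) :
    jL B = jL A ∨ jL B = s (jL A) ∨ jL B = jL (K1B.LI φ A (PrG.P2 δ)) ∨
      jL B = jL (K1B.LI φ (conj s A) (PrG.P2 δ)) := by
  obtain ⟨T, hT, hjT⟩ := exists_trans1 h hφ hA hB hsA hsB
  have hQ' := map_ne h hQ
  have hT' := map_ne h hT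
  set Q' : Ideal (𝓞 K) := Q.map (PrG.conj h : 𝓞 K →+* 𝓞 K) with hQ'd
  set T' : Ideal (𝓞 K) := T.map (PrG.conj h : 𝓞 K →+* 𝓞 K) with hT'd
  have htop : (⊤ : Ideal (𝓞 K)) ≠ ⊥ := top_ne_bot
  have hlatT := K1B.LI_lat h hφ hA hsA hT
  have hlatQ := K1B.LI_lat h hφ hA hsA hQ
  have hcA := jL_conj s hA
  have hcsA := conj_hasSq s hA hsA
  have hcQ : jL (conj s A) = jL (K1B.LI φ A Q) := by rw [hcA.2, h1]
  -- the formula (*)
  have hstar : s (jL B) = jL (K1B.LI φ A (Q * T')) := by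
    have e1 := (jL_conj s hlatT).2
    rw [conj_LI1 h hφ hs hA hsA hT, hjT] at e1
    rw [← e1, ← K1B.LI_mul]
    exact jL_congr1 h hφ hcA.1 hlatQ hcsA hcQ hT'
  have hAtop : jL (K1B.LI φ A ⊤) = jL A := by rw [K1B.LI_top h hφ hsA]
  have hBX : ∀ X : Ideal (𝓞 K), X ≠ ⊥ → jL (K1B.LI φ B X) = jL (K1B.LI φ A (T * X)) := by
    intro X hX
    rw [← K1B.LI_mul]
    exact jL_congr1 h hφ hB hlatT hsB hjT.symm hX
  rcases h2 with h2 | h2
  · -- first case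
    rw [hBX Q hQ, hstar] at h2
    have e1 := mulX h hφ hA hsA (mul_ne hT hQ) (mul_ne hQ hT') (mul_ne hQ' hT) h2
    have e2 : T * Q * (Q' * T) = (Q * Q') * (T * T) := by ring
    have e3 : Q * T' * (Q' * T) = (Q * Q') * ((T * T') * ⊤) := by
      rw [Ideal.mul_top]
      ring
    rw [e2, e3, strip h hφ hA hsA hQ (mul_ne hT hT),
      strip h hφ hA hsA hQ (mul_ne (mul_ne hT hT') htop), strip h hφ hA hsA hT htop, hAtop] at e1
    rcases two1 h hφ hA hsA hT e1 with h3 | h3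
    · left
      rw [← hjT, h3]
    · right; right; left
      rw [← hjT, h3]
  · -- second case
    rw [hBX Q' hQ', hstar] at h2
    have e1 := mulX h hφ hA hsA (mul_ne hT hQ') (mul_ne hQ hT') (mul_ne hT hQ') h2
    have e3 : Q * T' * (T * Q') = (Q * Q') * ((T * T') * ⊤) := by
      rw [Ideal.mul_top]
      ring
    rw [e3, strip h hφ hA hsA hQ (mul_ne (mul_ne hT hT') htop), strip h hφ hA hsA hT htop,
      hAtop] at e1
    have e4 : T * Q' * Q = (Q * Q') * T := by ring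
    rcases two1 h hφ hA hsA (mul_ne hT hQ') e1 with h3 | h3
    · right; left
      have e5 := mulX h hφ hA hsA (mul_ne hT hQ') htop hQ (h3.trans hAtop.symm)
      rw [e4, strip h hφ hA hsA hQ hT, hjT, Ideal.top_mul, h1] at e5
      exact e5
    · right; right; right
      have e5 := mulX h hφ hA hsA (mul_ne hT hQ') p2_ne hQ h3
      rw [e4, strip h hφ hA hsA hQ hT, hjT, mul_comm (PrG.P2 δ) Q, ← K1B.LI_mul] at e5
      rw [e5]
      exact jL_congr1 h hφ hlatQ hcA.1 (K1B.LI_hasSq hφ A Q) hcQ.symm p2_ne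

end Pool.Agent.SS.ZI
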