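import Mathlib
import Pool.Agent.Work.MP_a5099b_nt.H.Pair
import Pool.Agent.Work.MP_a5099b_nt.ZI.Refl1
import Pool.Agent.Work.MP_a5099b_nt.ZI.Red2

/-!
# Module ZI/Only1 (size S): which `y` have an isogeny of the same type (`q = 1 mod 4`)

Imports may be stubs. PROOF. `refl1` for `A = L0`, `B = L`. `jL L` reduces to `y` (`P.redL`), `jL L0` and `s (jL L0) = jL M0` reduce to `y0` (`P0.redL, P0.redM`); `ZMod.castHom` is injective. If `jL L = jL L0` or `jL L = s (jL L0)`: `y = y0`. If `jL L = jL (LI L0 (P2 δ))`: `sup_p2` (ZI/Act1) and `phi_red` (ZI/Red2).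
If `jL L = jL (LI (conj s L0) (P2 δ))`: `conj s L0` is a lattice with `HasSq` and `jL (conj s L0) = s (jL L0) = jL M0` (`jL_conj`, `conj_hasSq`), the same with `P0.redM`.
-/

set_option autoImplicit false
set_option linter.unusedSectionVars false

namespace Pool.Agent.SS.ZI

open NumberField
open Pool.Agent.Work.CM
open Pool.Agent.Work.MP_a5099b_nt
open Pool.Agent.SS.HB
open scoped Pointwise

variable {K : Type} [Field K] [NumberField K] {q : ℕ} {δ : 𝓞 K}

/-- two reductions of the same invariant agree -/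
private theorem red_unique [Fact q.Prime] {k : Type} [Field k] [CharP k q]
    {red : integralClosure ℤ ℂ →+* k} {z : ℂ} {y y' : ZMod q}
    (h : RedTo red z (ZMod.castHom (dvd_refl q) k y))
    (h' : RedTo red z (ZMod.castHom (dvd_refl q) k y')) : y = y' := by
  obtain ⟨hi, he⟩ := h
  obtain ⟨hi', he'⟩ := h'
  exact (ZMod.castHom (dvd_refl q) k).injective (he.symm.trans he')

theorem only1 [Fact q.Prime] (h : PrG.Quad K q δ) {φ : 𝓞 K →+* ℂ} (hφ : φ δ = sq q) {k : Type}
    [Field k] [CharP k q] {red : integralClosure ℤ ℂ →+* k} {s : ℂ ≃+* ℂ}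
    (hs : s (sq q) = -sq q) {y0 y : ZMod q} {L0 M0 L M : Submodule ℤ ℂ}
    (P0 : PairAt q red y0 L0 M0) (P : PairAt q red y L M) (hs0 : s (jL L0) = jL M0)
    (hs1 : s (jL L) = jL M) {Q : Ideal (𝓞 K)} (hQ : Q ≠ ⊥)
    (h1 : jL (K1B.LI φ L0 Q) = jL M0)
    (h2 : jL (K1B.LI φ L Q) = jL M ∨
      jL (K1B.LI φ L (Q.map (PrG.conj h : 𝓞 K →+* 𝓞 K))) = jL M) :
    y = y0 ∨ (PhiAt 2 y0).eval y = 0 := by
  rcases refl1 h hφ P0.latL P.latL P0.sqL P.sqL hs hQ (h1.trans hs0.symm)
    (by rw [hs1]; exact h2) with e | e | e | e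
  · left
    have h3 := P.redL
    rw [e] at h3
    exact red_unique h3 P0.redL
  · left
    have h3 := P.redL
    rw [e, hs0] at h3
    exact red_unique h3 P0.redM
  · right
    have h3 := P.redL
    rw [e] at h3
    exact phi_red red (sup_p2 h hφ P0.latL P0.sqL) P0.redL h3
  · right
    obtain ⟨hM, hjM⟩ := jL_conj s P0.latL
    have hsM : HasSq q (conj s L0) := conj_hasSq s P0.latL P0.sqL
    have h3 := P.redL
    rw [e] at h3
    have h4 := P0.redM
    rw [← hs0, ← hjM] at h4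
    exact phi_red red (sup_p2 h hφ hM hsM) h4 h3

end Pool.Agent.SS.ZI
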