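import Mathlib
import Pool.Agent.Work.MP_a5099b_nt.H.Pair
import Pool.Agent.Work.MP_a5099b_nt.K1.KDefs
import Pool.Agent.Work.MP_a5099b_nt.K1.Cnt
import Pool.Agent.Work.MP_a5099b_nt.K1.TFun
import Pool.Agent.Work.MP_a5099b_nt.I1.CInt

/-!
# Module ZI/Par1 (size S): an odd multiplicity gives an isogeny to the conjugate lattice (`q = 1 mod 4`)

Let `l = absNorm Q`, `Q' = Q.map (PrG.conj h)`, `absNorm Q' = l` (`PrG.absNorm_conj`). `P.par` (H/Pair) and `K1B.ncard_eq` (K1/Cnt) with `Q z := z = jL L ∨ z = jL M`: the multiplicity is congruent modulo 2 to `[j(Q) ∈ {jL L, jL M}] + [j(Q') ∈ {jL L, jL M}]`, `j(I) = jL (K1B.LI φ L I)` (compare K1/One.lean).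
It is odd, so one of the two is in the set. But `j(I) = jL L` for an ideal `I` of norm `l = 3 mod 4` is impossible: `prin_of_jL` (K1/TFun): `I = span {γ}`, `absNorm I = norm γ` (`PrG.norm_gen`), and an odd norm is `1 mod 4` (`PrG.norm_mod4`). So one of them is `jL M`.
-/

set_option autoImplicit false
set_option linter.unusedSectionVars false

namespace Pool.Agent.SS.ZI

open NumberField
open Pool.Agent.Work.CM
open Pool.Agent.Work.MP_a5099b_nt
open Pool.Agent.SS.HB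
open scoped Pointwise

variable {K : Type} [Field K] [NumberField K] {q : ℕ} {δ : 𝓞 K}

theorem par1 [Fact q.Prime] (h : PrG.Quad K q δ) {φ : 𝓞 K →+* ℂ} (hφ : φ δ = sq q) {k : Type}
    [Field k] [CharP k q] {red : integralClosure ℤ ℂ →+* k} {y : ZMod q}
    {L M : Submodule ℤ ℂ} (P : PairAt q red y L M) {Q : Ideal (𝓞 K)}
    (hl : (Ideal.absNorm Q).Prime) (hl4 : Ideal.absNorm Q % 4 = 3) (hlq : Ideal.absNorm Q ≠ q)
    (hodd : Odd ((PhiAt (Ideal.absNorm Q) y).rootMultiplicity y)) :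
    jL (K1B.LI φ L Q) = jL M ∨
      jL (K1B.LI φ L (Q.map (PrG.conj h : 𝓞 K →+* 𝓞 K))) = jL M := by
  have hl2 : Ideal.absNorm Q ≠ 2 := by
    intro h2
    rw [h2] at hl4
    omega
  have h1 := P.par hl hlq
  have h2 := K1B.ncard_eq h hφ P.latL P.sqL hl hl2 hlq rfl (fun z => z = jL L ∨ z = jL M)
  have hno : ∀ I : Ideal (𝓞 K), Ideal.absNorm I = Ideal.absNorm Q →
      jL (K1B.LI φ L I) ≠ jL L := by
    intro I hI he
    have hIne : I ≠ ⊥ := by
      rintro rfl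
      rw [Ideal.absNorm_bot] at hI
      exact hl.ne_zero hI.symm
    obtain ⟨γ, hγ0, hγ⟩ := K1B.prin_of_jL h hφ P.latL P.sqL hIne he
    have hγn : Algebra.norm ℤ γ = ((Ideal.absNorm I : ℕ) : ℤ) := by
      rw [← PrG.norm_gen h γ, ← hγ]
    have hodd' : Odd (Algebra.norm ℤ γ) := by
      rw [hγn, hI, Int.odd_coe_nat, Nat.odd_iff]
      omega
    have h3 := PrG.norm_mod4 h γ hodd'
    rw [hγn, hI] at h3
    have h4 : Ideal.absNorm Q ≡ 1 [MOD 4] := Int.natCast_modEq_iff.1 h3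
    have h5 : Ideal.absNorm Q % 4 = 1 % 4 := h4
    omega
  by_contra hcon
  rw [not_or] at hcon
  have h6 := hno Q rfl
  have h7 := hno (Q.map (PrG.conj h : 𝓞 K →+* 𝓞 K)) (by rw [PrG.absNorm_conj])
  have h8 : ¬ (jL (K1B.LI φ L Q) = jL L ∨ jL (K1B.LI φ L Q) = jL M) :=
    not_or.2 ⟨h6, hcon.1⟩
  have h9 : ¬ (jL (K1B.LI φ L (Q.map (PrG.conj h : 𝓞 K →+* 𝓞 K))) = jL L ∨
      jL (K1B.LI φ L (Q.map (PrG.conj h : 𝓞 K →+* 𝓞 K))) = jL M) :=
    not_or.2 ⟨h7, hcon.2⟩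
  rw [if_neg h8, if_neg h9] at h2
  rw [h2] at h1
  rw [Nat.odd_iff] at hodd
  have h10 : (PhiAt (Ideal.absNorm Q) y).rootMultiplicity y % 2 = (0 + 0) % 2 := h1
  omega

end Pool.Agent.SS.ZI
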