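import Mathlib
import Pool.Agent.Work.MP_a5099b_nt.H.Place
import Pool.Agent.Work.MP_a5099b_nt.H1.Genus1
import Pool.Agent.Work.MP_a5099b_nt.H1.Three1
import Pool.Agent.Work.MP_a5099b_nt.I1.EInst
import Pool.Agent.Work.MP_a5099b_nt.ZI.IPair
import Pool.Agent.Work.MP_a5099b_nt.ZI.Trans1
import Pool.Agent.Work.MP_a5099b_nt.ZI.Par1
import Pool.Agent.Work.MP_a5099b_nt.ZI.Only1

/-!
# Module ZI/Iso1 (size S-M): a prime which isolates `y0` up to 2-isogenies (`q = 1 mod 4`)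

Imports may be stubs. PROOF. `PrG.exists_quad q hq hq4` (I1/EInst), `K1B.exists_emb`, `exists_place hq` (H/Place), `exists_swap` for `S`: `s`. For `y ∈ S` a pair `exists_pairAt`. Let `P0` be the pair `L0, M0` of `y0`. `three1` (H1/Three1, `y0 ≠ 8000`) with the bound `B + q + 2`: `l ≡ r mod 8 m` (so `l % 4 = 3`), `x ≠ 0`,
`Sup l (x • L0) M0`. `prime_trans1`: `Q` with `absNorm Q = l` (`subst`; `Q ≠ ⊥`), `jL (LI L0 Q) = jL M0`. `pair_odd` (H1/Genus1): the multiplicity of `y0` for `l` is odd. For `y ∈ S`, `y ≠ y0`: if the multiplicity of `y` is odd, `par1` and `only1` (`exists_swap` for both pairs) give `(PhiAt 2 y0).eval y = 0`, so `c y` is even;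
in any case `c y * multiplicity` is even. So the sum is congruent to `c y0 * (multiplicity of y0)` modulo 2 (`Finset.add_sum_erase`, `Finset.even_sum`), which is odd.
-/

set_option autoImplicit false

namespace Pool.Agent.SS.ZI

open Polynomial
open Pool.Agent.SS.HB

theorem exists_prime_iso1 {q : ℕ} [Fact q.Prime] (h11 : 11 ≤ q) (hq4 : q % 4 = 1)
    (S : Finset (ZMod q)) (hS : ∀ y ∈ S, SSj q y ∧ y ≠ 0 ∧ y ≠ 1728) (c : ZMod q → ℕ)
    {y0 : ZMod q} (hy0 : y0 ∈ S) (h8 : y0 ≠ 8000) (hc : Odd (c y0))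
    (he : ∀ y ∈ S, y ≠ y0 → (PhiAt 2 y0).eval y = 0 → Even (c y)) {m : ℕ} (hm : Odd m)
    (hm2 : Squarefree m) (hqm : ¬ q ∣ m) {r : ℕ} (hr : Nat.Coprime r (8 * m))
    (hr4 : r % 4 = 3) (B : ℕ) :
    ∃ l : ℕ, l.Prime ∧ B < l ∧ l ≡ r [MOD 8 * m] ∧ jacobiSym (-q) l = 1 ∧
      Odd (∑ y ∈ S, c y * (PhiAt l y).rootMultiplicity y) := by
  have hq : q.Prime := Fact.out
  have h5 : 5 ≤ q := by omega
  obtain ⟨K, i1, i2, δ, h⟩ := Pool.Agent.Work.MP_a5099b_nt.PrG.exists_quad q hq hq4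
  obtain ⟨φ, hφ⟩ := Pool.Agent.SS.K1B.exists_emb h
  obtain ⟨k, j1, j2, ⟨red⟩⟩ := exists_place hq
  obtain ⟨s, hs, hsw⟩ := exists_swap h5 red S hS
  obtain ⟨hy, h0, h1⟩ := hS y0 hy0
  obtain ⟨L0, M0, P0⟩ := exists_pairAt h5 red y0 hy h0 h1
  obtain ⟨l, hl, hlB, hlr, hlj, x, hx, hsup⟩ :=
    Pool.Agent.SS.HC.three1 hq4 h11 P0 hy h0 h1 h8 hm hm2 hqm hr hr4 (B + q + 2)
  have hl4 : l % 4 = 3 := by
    have h3 : l ≡ r [MOD 4] := hlr.of_dvd (by
      rw [show 8 * m = 4 * (2 * m) by ring]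
      exact dvd_mul_right 4 (2 * m))
    have h4 : l % 4 = r % 4 := h3
    rw [h4, hr4]
  have hl2 : l ≠ 2 := by omega
  have hlq : l ≠ q := by omega
  obtain ⟨Q, hQl, hQj⟩ := prime_trans1 h hφ P0.latL P0.latM P0.sqL P0.sqM hl hl2 hlq hx hsup
  have hQ : Q ≠ ⊥ := by
    rintro rfl
    rw [Ideal.absNorm_bot] at hQl
    exact hl.ne_zero hQl.symm
  have hodd0 : Odd ((PhiAt l y0).rootMultiplicity y0) :=
    Pool.Agent.SS.HC.pair_odd hq4 h11 P0 h1 h8 hl hl2 hlq hx hsup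
  refine ⟨l, hl, by omega, hlr, hlj, ?_⟩
  rw [← Finset.add_sum_erase S _ hy0]
  refine Odd.add_even (hc.mul hodd0) ?_
  apply Finset.even_sum
  intro y hyS
  obtain ⟨hyne, hyS'⟩ := Finset.mem_erase.mp hyS
  by_cases hmo : Odd ((PhiAt l y).rootMultiplicity y)
  · apply Even.mul_right
    apply he y hyS' hyne
    obtain ⟨hy', h0', h1'⟩ := hS y hyS'
    obtain ⟨L, M, P⟩ := exists_pairAt h5 red y hy' h0' h1'
    have hp := par1 h hφ P (Q := Q) (by rw [hQl]; exact hl) (by rw [hQl]; exact hl4)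
      (by rw [hQl]; exact hlq) (by rw [hQl]; exact hmo)
    rcases only1 h hφ hs P0 P (hsw y0 hy0 L0 M0 P0).1 (hsw y hyS' L M P).1 hQ hQj hp with h6 | h6
    · exact absurd h6 hyne
    · exact h6
  · exact Even.mul_left (Nat.not_odd_iff_even.mp hmo) _

end Pool.Agent.SS.ZI
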