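import Mathlib
import Pool.Agent.Work.MP_a5099b_nt.K.KDefs
import Pool.Agent.Work.MP_a5099b_nt.K.LMul
import Pool.Agent.Work.MP_a5099b_nt.K.LLat
import Pool.Agent.Work.MP_a5099b_nt.A.Lat
import Pool.Agent.Work.MP_a5099b_nt.I.CRel
import Pool.Agent.Work.MP_a5099b_nt.I.DPow

/-!
# Module ZI/Act3 (size S-M): ideals of odd norm act on the invariants (`q = 3 mod 4`)

An ideal of odd norm is not `⊥` (`Ideal.absNorm_bot`, `0` is even) and contains an element `u` with `U2 u` (`KB.exists_u2`); `LI_lat`: `LI φ δ A X` is a lattice.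
* `jL_congr`: `exists_smul_of_jL` (A/Lat): `B = m • A`, `m ≠ 0`; `LI_smul`, `jL_smul`.
* `LI_LI`: `KB.LI_mul` with `exists_u2` for both ideals.
* `jL_nat`: `n` odd: `U2 (n : 𝓞 K)`; `LI_LI` (the norm of `span {n}` is `n ^ 2`, see `sm_nat` in K/PConj.lean), `LI_span`, `LI_smul`, `jL_smul`.
* `stab`: `exists_cls h 2` (I/CRel) and `odd_power` (I/DPow), `N = 2` (`Sm 2 I` means `I ≠ ⊥` and `(absNorm I).Coprime 2`): `e` odd, `I ^ e = span {γ}` with `U2 γ`. By induction on `n`: `jL (LI A (I ^ (2 n) * I)) = jL (LI A I)`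
(`I ^ (2 (n+1)) * I = (I * I) * (I ^ (2 n) * I)`, `LI_LI`, `jL_congr` for `LI A (I * I)` and `A`). With `e = 2 n + 1`: `jL (LI A I) = jL (LI A (I ^ e)) = jL (LI A (span {γ})) = jL ((φ γ)⁻¹ • A) = jL A` (`LI_span`, `jL_smul`, `phi_ne_zero`, `u2_ne_zero`).
-/

set_option autoImplicit false
set_option linter.unusedSectionVars false

namespace Pool.Agent.SS.ZI

open NumberField
open Pool.Agent.Work.CM
open Pool.Agent.Work.MP_a5099b_nt
open Pool.Agent.SS.HB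
open scoped Pointwise

variable {K : Type} [Field K] [NumberField K] {q : ℕ} {δ : 𝓞 K}

private theorem ne_bot_of_odd {I : Ideal (𝓞 K)} (hI : Odd (Ideal.absNorm I)) : I ≠ ⊥ := by
  rintro rfl
  rw [Ideal.absNorm_bot] at hI
  exact absurd hI (by decide)

theorem jL_congr (h : PrF.Quad K q δ) {φ : 𝓞 K →+* ℂ} (hφ : φ δ = sq q) {A B : Submodule ℤ ℂ}
    (hA : IsLat A) (hB : IsLat B) (hsA : HasSq q A) (hj : jL A = jL B) {X : Ideal (𝓞 K)}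
    (hX : X ≠ ⊥) : jL (KB.LI φ δ A X) = jL (KB.LI φ δ B X) := by
  obtain ⟨m, hm, rfl⟩ := exists_smul_of_jL hA hB hj
  rw [KB.LI_smul hm, jL_smul (KB.LI_lat h hφ hA hsA hX) hm]

theorem LI_LI (h : PrF.Quad K q δ) {φ : 𝓞 K →+* ℂ} {A : Submodule ℤ ℂ} {I J : Ideal (𝓞 K)}
    (hI : Odd (Ideal.absNorm I)) (hJ : Odd (Ideal.absNorm J)) :
    KB.LI φ δ (KB.LI φ δ A I) J = KB.LI φ δ A (I * J) := by
  obtain ⟨u, hu, hu2⟩ := KB.exists_u2 I hI
  obtain ⟨w, hw, hw2⟩ := KB.exists_u2 J hJ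
  exact KB.LI_mul h hu hu2 hw hw2

private theorem u2_nat {n : ℕ} (hn : Odd n) : PrF.U2 ((n : ℕ) : 𝓞 K) := by
  obtain ⟨k, hk⟩ := hn
  refine ⟨k, ?_⟩
  rw [hk]
  push_cast
  ring

private theorem absNorm_nat (h : PrF.Quad K q δ) (n : ℕ) :
    Ideal.absNorm (Ideal.span {(n : 𝓞 K)}) = n ^ 2 := by
  have h1 := PrF.norm_gen h (n : 𝓞 K)
  have h2 := PrF.norm_int h (n : ℤ) 0
  have h3 : (((n : ℤ) : 𝓞 K) + ((0 : ℤ) : 𝓞 K) * δ) = (n : 𝓞 K) := by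
    push_cast
    ring
  rw [h3] at h2
  rw [h2] at h1
  have h4 : ((Ideal.absNorm (Ideal.span {(n : 𝓞 K)}) : ℕ) : ℤ) = ((n ^ 2 : ℕ) : ℤ) := by
    rw [h1]
    push_cast
    ring
  exact_mod_cast h4

theorem jL_nat (h : PrF.Quad K q δ) {φ : 𝓞 K →+* ℂ} (hφ : φ δ = sq q) {A : Submodule ℤ ℂ}
    (hA : IsLat A) (hsA : HasSq q A) {n : ℕ} (hn : Odd n) {I : Ideal (𝓞 K)}
    (hI : Odd (Ideal.absNorm I)) :
    jL (KB.LI φ δ A (Ideal.span {(n : 𝓞 K)} * I)) = jL (KB.LI φ δ A I) := by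
  have h1 : Odd (Ideal.absNorm (Ideal.span {(n : 𝓞 K)})) := by
    rw [absNorm_nat h]
    exact hn.pow
  have hu : PrF.U2 ((n : ℕ) : 𝓞 K) := u2_nat hn
  have hne : φ (n : 𝓞 K) ≠ 0 := KB.phi_ne_zero h hφ (KB.u2_ne_zero h hu)
  rw [← LI_LI h h1 hI, KB.LI_span h hφ hsA hu, KB.LI_smul (inv_ne_zero hne),
    jL_smul (KB.LI_lat h hφ hA hsA (ne_bot_of_odd hI)) (inv_ne_zero hne)]

theorem stab (h : PrF.Quad K q δ) {φ : 𝓞 K →+* ℂ} (hφ : φ δ = sq q) {A : Submodule ℤ ℂ}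
    (hA : IsLat A) (hsA : HasSq q A) {I : Ideal (𝓞 K)} (hI : Odd (Ideal.absNorm I))
    (h2 : jL (KB.LI φ δ A (I * I)) = jL A) : jL (KB.LI φ δ A I) = jL A := by
  have hI0 : I ≠ ⊥ := ne_bot_of_odd hI
  have hII : Odd (Ideal.absNorm (I * I)) := by
    rw [map_mul]
    exact hI.mul hI
  have hII0 : I * I ≠ ⊥ := ne_bot_of_odd hII
  obtain ⟨G, i1, i2, cl, hc⟩ := PrF.exists_cls h 2 (dvd_refl 2) (by norm_num)
  obtain ⟨e, he, hpow⟩ := PrF.odd_power h (dvd_refl 2) hc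
  obtain ⟨γ, hγ, hIe⟩ := hpow I ⟨hI0, Nat.coprime_two_right.2 hI⟩
  have key : ∀ n : ℕ, jL (KB.LI φ δ A (I ^ (2 * n) * I)) = jL (KB.LI φ δ A I) := by
    intro n
    induction n with
    | zero => simp
    | succ n ih =>
      have e1 : I ^ (2 * (n + 1)) * I = (I * I) * (I ^ (2 * n) * I) := by ring
      have ho : Odd (Ideal.absNorm (I ^ (2 * n) * I)) := by
        rw [map_mul, map_pow]
        exact hI.pow.mul hI
      rw [e1, ← LI_LI h hII ho, jL_congr h hφ (KB.LI_lat h hφ hA hsA hII0) hA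
        (KB.LI_hasSq h hφ A _) h2 (ne_bot_of_odd ho), ih]
  obtain ⟨n, rfl⟩ := he
  have h3 := key n
  rw [← pow_succ, hIe, KB.LI_span h hφ hsA hγ,
    jL_smul hA (inv_ne_zero (KB.phi_ne_zero h hφ (KB.u2_ne_zero h hγ)))] at h3
  exact h3.symm

end Pool.Agent.SS.ZI
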