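import Mathlib
import Pool.Agent.Work.MP_a5099b_nt.K.KDefs
import Pool.Agent.Work.MP_a5099b_nt.K.LLat
import Pool.Agent.Work.MP_a5099b_nt.H.ConjJ
import Pool.Agent.Work.MP_a5099b_nt.I.CConj

/-!
# Module ZI/CLI (size S-M): the conjugate of the lattice `L_I` (`q = 3 mod 4`)

PROOF. `c := PrF.conj h`. `c` maps `Od δ` to `Od δ` (`c δ = -δ`, `PrF.conj_δ`; `x = a + b δ`), `c (c x) = x` (`PrF.conj_conj`), and for `x` with `Od δ x`: `φ (c x) = σ (φ x)` (`phi_od`: `φ (a + b δ) = a + b sq q`, `σ (sq q) = -sq q`).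
`LI_lat` (K/LLat): `IsLat (LI φ δ L I)`; `jL_conj`, `conj_hasSq` (H/ConjJ): `conj σ L` is a lattice with multiplication by `sq q`; `I.map c ≠ ⊥`.
(⊆) Let `w ∈ conj σ (LI φ δ L I)` and `x' ∈ I.map c` with `Od δ x'`: `x' = c x`, `x = c x' ∈ I` (`c` an isomorphism: `Ideal.map_comap_of_equiv`/`Ideal.mem_map_of_equiv`), `Od δ x`. `φ x` maps `LI φ δ L I` into `L` (definition), so by
`conj_mem` (CM/Cj) `σ (φ x) w ∈ conj σ L`, i.e. `φ x' w ∈ conj σ L`.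
(⊇) Apply (⊆) to `σ.symm` (`σ.symm (sq q) = -sq q`), `conj σ L` and `I.map c`: `conj σ.symm (LI φ δ (conj σ L) (I.map c)) ≤ LI φ δ (conj σ.symm (conj σ L)) ((I.map c).map c) = LI φ δ L I` (`conj_trans, conj_refl`, `conj_conj`);
apply `conj_le σ` and `conj_trans, conj_refl`.
-/

set_option autoImplicit false
set_option linter.unusedSectionVars false

namespace Pool.Agent.SS.ZI

open NumberField
open Pool.Agent.Work.CM
open Pool.Agent.Work.MP_a5099b_nt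
open Pool.Agent.SS.HB
open scoped Pointwise

variable {K : Type} [Field K] [NumberField K] {q : ℕ} {δ : 𝓞 K}

private theorem cli_phi (h : PrF.Quad K q δ) {φ : 𝓞 K →+* ℂ} (hφ : φ δ = sq q) {σ : ℂ ≃+* ℂ}
    (hσ : σ (sq q) = -sq q) {x : 𝓞 K} (hx : KB.Od δ x) :
    KB.Od δ (PrF.conj h x) ∧ φ (PrF.conj h x) = σ (φ x) := by
  obtain ⟨a, b, rfl⟩ := hx
  have e : PrF.conj h ((a : 𝓞 K) + (b : 𝓞 K) * δ) = (a : 𝓞 K) + ((-b : ℤ) : 𝓞 K) * δ := by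
    rw [map_add, map_mul, map_intCast, map_intCast, PrF.conj_δ]
    push_cast
    ring
  refine ⟨⟨a, -b, e⟩, ?_⟩
  rw [e, KB.phi_od hφ, KB.phi_od hφ, map_add, map_mul, map_intCast, map_intCast, hσ]
  push_cast
  ring

private theorem cli_le (h : PrF.Quad K q δ) {φ : 𝓞 K →+* ℂ} (hφ : φ δ = sq q) {σ : ℂ ≃+* ℂ}
    (hσ : σ (sq q) = -sq q) {L : Submodule ℤ ℂ} (hL : IsLat L) (hs : HasSq q L)
    {I : Ideal (𝓞 K)} (hI : I ≠ ⊥) :
    conj σ (KB.LI φ δ L I) ≤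
      KB.LI φ δ (conj σ L) (I.map (PrF.conj h : 𝓞 K →+* 𝓞 K)) := by
  intro w hw
  rw [KB.mem_LI]
  intro x' hx' ho'
  obtain ⟨x, hx, hxx⟩ := (Ideal.mem_map_of_equiv (PrF.conj h) x').1 hx'
  have hx2 : x = PrF.conj h x' := by
    rw [← hxx]
    exact (PrF.conj_conj h x).symm
  have ho : KB.Od δ x := by
    rw [hx2]
    exact (cli_phi h hφ hσ ho').1
  have h1 : φ x' = σ (φ x) := by
    rw [← hxx]
    exact (cli_phi h hφ hσ ho).2
  rw [h1]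
  exact conj_mem σ (KB.LI_lat h hφ hL hs hI) hL (fun l hl => hl x hx ho) w hw

theorem conj_LI (h : PrF.Quad K q δ) {φ : 𝓞 K →+* ℂ} (hφ : φ δ = sq q) {σ : ℂ ≃+* ℂ}
    (hσ : σ (sq q) = -sq q) {L : Submodule ℤ ℂ} (hL : IsLat L) (hs : HasSq q L)
    {I : Ideal (𝓞 K)} (hI : I ≠ ⊥) :
    conj σ (KB.LI φ δ L I) =
      KB.LI φ δ (conj σ L) (I.map (PrF.conj h : 𝓞 K →+* 𝓞 K)) := by
  refine le_antisymm (cli_le h hφ hσ hL hs hI) ?_
  have hσ' : σ.symm (sq q) = -sq q := by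
    rw [RingEquiv.symm_apply_eq, map_neg, hσ, neg_neg]
  have hM := (jL_conj σ hL).1
  have hMs := conj_hasSq σ hL hs
  have hmm : (I.map (PrF.conj h : 𝓞 K →+* 𝓞 K)).map (PrF.conj h : 𝓞 K →+* 𝓞 K) = I := by
    rw [Ideal.map_map]
    have e : ((PrF.conj h : 𝓞 K →+* 𝓞 K)).comp (PrF.conj h : 𝓞 K →+* 𝓞 K) = RingHom.id _ := by
      ext1 x
      exact PrF.conj_conj h x
    rw [e, Ideal.map_id]
  have hJ : I.map (PrF.conj h : 𝓞 K →+* 𝓞 K) ≠ ⊥ := by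
    intro h0
    rw [h0, Ideal.map_bot] at hmm
    exact hI hmm.symm
  have h1 := cli_le h hφ hσ' hM hMs hJ
  have h2 : conj σ.symm (conj σ L) = L := by
    rw [conj_trans σ.symm σ hL, RingEquiv.self_trans_symm]
    exact conj_refl hL
  rw [hmm, h2] at h1
  have hA := KB.LI_lat h hφ hM hMs hJ
  have h3 := conj_le σ (jL_conj σ.symm hA).1 (KB.LI_lat h hφ hL hs hI) h1
  rw [conj_trans σ σ.symm hA, RingEquiv.symm_trans_self, conj_refl hA] at h3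
  exact h3

end Pool.Agent.SS.ZI
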