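import Mathlib
import Pool.Agent.Work.MP_a5099b_nt.K.KDefs
import Pool.Agent.Work.MP_a5099b_nt.K.PTwo
import Pool.Agent.Work.MP_a5099b_nt.K.Jac2
import Pool.Agent.Work.MP_a5099b_nt.A.Lat
import Pool.Agent.Work.MP_a5099b_nt.B.SupF
import Pool.Agent.Work.MP_a5099b_nt.H.HomForm
import Pool.Agent.Work.MP_a5099b_nt.H.Local
import Pool.Agent.Work.MP_a5099b_nt.H.Jac
import Pool.Agent.Work.MP_a5099b_nt.H.PSup
import Pool.Agent.Work.MP_a5099b_nt.I.DPr
import Pool.Agent.Work.MP_a5099b_nt.SpecI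

/-!
# Module ZI/Trans (size S-M): every lattice with the same multipliers is an `A_Q` (`q = 3 mod 4`)

PROOF of `exists_prime_trans`: the proofs of `exists_prime_main` (H/Main.lean) and `exists_u'` (K/U2.lean), with general lattices instead of a pair: `hom_form h.prime h.mod4 hA hB hsA hmul` gives the form `a, b, c`; `form_rep` (H/Local) for `r`:
a value `≡ r mod 8 m`, prime to `8 m`; `primes_form` (SpecI, `N = 8 m`, bound `B0 + a.toNat + q + 2`): a prime `l > B0`, `l ≡ r mod 8 m`, `l = a u^2 + b u v + c v^2`; so `x ≠ 0` with `Sup l (x • A) B`; `jac_one` (H/Jac).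
Then `Sup l A (x⁻¹ • B)` (`Sup_smul`), `HasSq q (x⁻¹ • B)` (`IsMul.smul`), `jac_eq` (K/Jac2): `legendreSym q l = 1`, `PrF.split`: a prime ideal `Q` of norm `l`; `KB.stable_eq`: `x⁻¹ • B = LI A Q` or `= LI A Q'`, `Q'` the conjugate, of norm `l` as well
(`PrF.absNorm_conj`); `jL (x⁻¹ • B) = jL B` (`jL_smul`).
`exists_trans`: `m = 1`, `r = 1`, `B0 = 2`.
-/

set_option autoImplicit false
set_option linter.unusedSectionVars false

namespace Pool.Agent.SS.ZI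

open NumberField
open Pool.Agent.Work.CM
open Pool.Agent.Work.MP_a5099b_nt
open Pool.Agent.SS.HB
open scoped Pointwise

variable {K : Type} [Field K] [NumberField K] {q : ℕ} {δ : 𝓞 K}

theorem exists_prime_trans (h : PrF.Quad K q δ) {φ : 𝓞 K →+* ℂ} (hφ : φ δ = sq q)
    {A B : Submodule ℤ ℂ} (hA : IsLat A) (hB : IsLat B) (hsA : HasSq q A) (hsB : HasSq q B)
    (hmul : ∀ μ, IsMul B μ ↔ IsMul A μ) {m : ℕ} (hm : Odd m) (hm2 : Squarefree m)
    (hqm : ¬ q ∣ m) {r : ℕ} (hr : Nat.Coprime r (8 * m)) (B0 : ℕ) :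
    ∃ l : ℕ, l.Prime ∧ B0 < l ∧ l ≠ 2 ∧ l ≠ q ∧ l ≡ r [MOD 8 * m] ∧ jacobiSym (-q) l = 1 ∧
      (∃ x : ℂ, x ≠ 0 ∧ Sup l (x • A) B) ∧
      ∃ Q : Ideal (𝓞 K), Ideal.absNorm Q = l ∧ jL (KB.LI φ δ A Q) = jL B := by
  haveI : Fact q.Prime := ⟨h.prime⟩
  have hq : q.Prime := h.prime
  have hq4 : q % 4 = 3 := h.mod4
  have h7 : 7 ≤ q := h.seven
  have hm0 : 0 < m := hm.pos
  obtain ⟨a, b, c, ha, hd, hg, hf⟩ := hom_form hq hq4 hA hB hsA hmul
  have hrodd : Odd r := by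
    have h2 : Nat.Coprime r 2 := Nat.Coprime.coprime_dvd_right (by
      exact Dvd.dvd.mul_right (by norm_num) m) hr
    exact Nat.coprime_two_right.1 h2
  obtain ⟨x0, y0, hxy⟩ := form_rep hq hq4 hd hg hm hm2 hqm (r := (r : ℤ))
    (by exact_mod_cast hrodd)
  have hcop : IsCoprime (a * x0 ^ 2 + b * x0 * y0 + c * y0 ^ 2) ((8 * m : ℕ) : ℤ) := by
    have h2 : IsCoprime (r : ℤ) ((8 * m : ℕ) : ℤ) := Nat.isCoprime_iff_coprime.2 hr
    obtain ⟨t, ht⟩ := hxy.dvd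
    have e : a * x0 ^ 2 + b * x0 * y0 + c * y0 ^ 2 = (r : ℤ) + ((8 * m : ℕ) : ℤ) * (-t) := by
      linear_combination -ht
    rw [e]
    exact IsCoprime.add_mul_left_left h2 (-t)
  obtain ⟨l, hl, hBl, hmod, u, v, hl4⟩ := primes_form hq hq4 h7 a b c ha hd hg
    (N := 8 * m) (by omega) x0 y0 hcop (B0 + a.toNat + q + 2)
  have hal : a < l := by
    have := Int.self_le_toNat a
    omega
  have hql : q < l := by omega
  have hl2 : l ≠ 2 := by omega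
  have hlq : l ≠ q := by omega
  obtain ⟨x, hx0, hx⟩ := hf u v l hl.pos hl4
  have hsup : Sup l A (x⁻¹ • B) := by
    have h1 := Sup_smul hx (inv_ne_zero hx0)
    rwa [smul_smul, inv_mul_cancel₀ hx0, one_smul] at h1
  have hsq : HasSq q (x⁻¹ • B) := IsMul.smul hsB (inv_ne_zero hx0)
  have hj1 := jac_one hq hl ha hd hl4 hal hql hl2
  have hj := hj1
  rw [KB.jac_eq hq4 hl hl2 hlq] at hj
  obtain ⟨Q, Q', -, -, -, hQ, -⟩ := PrF.split h l hl hl2 hlq hj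
  have hcase := KB.stable_eq h hφ hA hsA hl hl2 hlq hQ hsup hsq
  have hjM : jL (x⁻¹ • B) = jL B := jL_smul hB (inv_ne_zero hx0)
  refine ⟨l, hl, by omega, hl2, hlq, (Int.natCast_modEq_iff).1 (hmod.trans hxy), hj1,
    ⟨x, hx0, hx⟩, ?_⟩
  rcases hcase with hc | hc
  · exact ⟨Q, hQ, by rw [← hc, hjM]⟩
  · have hQ' : Ideal.absNorm (Q.map (PrF.conj h : 𝓞 K →+* 𝓞 K)) = l := by
      rw [PrF.absNorm_conj, hQ]
    exact ⟨_, hQ', by rw [← hc, hjM]⟩

theorem exists_trans (h : PrF.Quad K q δ) {φ : 𝓞 K →+* ℂ} (hφ : φ δ = sq q)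
    {A B : Submodule ℤ ℂ} (hA : IsLat A) (hB : IsLat B) (hsA : HasSq q A) (hsB : HasSq q B)
    (hmul : ∀ μ, IsMul B μ ↔ IsMul A μ) :
    ∃ I : Ideal (𝓞 K), Odd (Ideal.absNorm I) ∧ jL (KB.LI φ δ A I) = jL B := by
  obtain ⟨l, hl, -, hl2, -, -, -, -, Q, hQ, hj⟩ := exists_prime_trans h hφ hA hB hsA hsB hmul
    (m := 1) odd_one squarefree_one
    (fun hd => by
      have h1 := Nat.le_of_dvd one_pos hd
      have h2 := h.seven
      omega) (r := 1) (Nat.coprime_one_left _) 2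
  exact ⟨Q, by rw [hQ]; exact hl.odd_of_ne_two hl2, hj⟩

end Pool.Agent.SS.ZI
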