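import Mathlib
import Pool.Agent.Work.MP_a5099b_nt.ZI.CLI
import Pool.Agent.Work.MP_a5099b_nt.ZI.Trans
import Pool.Agent.Work.MP_a5099b_nt.ZI.Act3

/-!
# Module ZI/Refl3 (size S-M): the reflection argument for lattices with the same multipliers (`q = 3 mod 4`)
-/

set_option autoImplicit false
set_option linter.unusedSectionVars false

namespace Pool.Agent.SS.ZI

open NumberField
open Pool.Agent.Work.CM
open Pool.Agent.Work.MP_a5099b_nt
open Pool.Agent.SS.HB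
open scoped Pointwise

variable {K : Type} [Field K] [NumberField K] {q : ℕ} {δ : 𝓞 K}

private theorem odd_ne {I : Ideal (𝓞 K)} (hI : Odd (Ideal.absNorm I)) : I ≠ ⊥ := by
  rintro rfl
  rw [Ideal.absNorm_bot] at hI
  exact absurd hI (by decide)

private theorem odd_mul3 {I J : Ideal (𝓞 K)} (hI : Odd (Ideal.absNorm I))
    (hJ : Odd (Ideal.absNorm J)) : Odd (Ideal.absNorm (I * J)) := by
  rw [map_mul]
  exact hI.mul hJ

private theorem odd_top3 : Odd (Ideal.absNorm (⊤ : Ideal (𝓞 K))) := by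
  rw [Ideal.absNorm_top]
  exact odd_one

private theorem mulX3 (h : PrF.Quad K q δ) {φ : 𝓞 K →+* ℂ} (hφ : φ δ = sq q)
    {A : Submodule ℤ ℂ} (hA : IsLat A) (hsA : HasSq q A) {I J X : Ideal (𝓞 K)}
    (hI : Odd (Ideal.absNorm I)) (hJ : Odd (Ideal.absNorm J)) (hX : Odd (Ideal.absNorm X))
    (hj : jL (KB.LI φ δ A I) = jL (KB.LI φ δ A J)) :
    jL (KB.LI φ δ A (I * X)) = jL (KB.LI φ δ A (J * X)) := by
  rw [← LI_LI h hI hX, ← LI_LI h hJ hX]
  exact jL_congr h hφ (KB.LI_lat h hφ hA hsA (odd_ne hI)) (KB.LI_lat h hφ hA hsA (odd_ne hJ))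
    (KB.LI_hasSq h hφ A I) hj (odd_ne hX)

private theorem strip3 (h : PrF.Quad K q δ) {φ : 𝓞 K →+* ℂ} (hφ : φ δ = sq q)
    {A : Submodule ℤ ℂ} (hA : IsLat A) (hsA : HasSq q A) {Y I : Ideal (𝓞 K)}
    (hY : Odd (Ideal.absNorm Y)) (hI : Odd (Ideal.absNorm I)) :
    jL (KB.LI φ δ A ((Y * Y.map (PrF.conj h : 𝓞 K →+* 𝓞 K)) * I)) = jL (KB.LI φ δ A I) := by
  rw [PrF.map_conj_mul h Y (odd_ne hY)]
  exact jL_nat h hφ hA hsA hY hI

theorem refl_core (h : PrF.Quad K q δ) {φ : 𝓞 K →+* ℂ} (hφ : φ δ = sq q)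
    {A B : Submodule ℤ ℂ} (hA : IsLat A) (hB : IsLat B) (hsA : HasSq q A) (hsB : HasSq q B)
    (hmul : ∀ μ, IsMul B μ ↔ IsMul A μ) {s : ℂ ≃+* ℂ} (hs : s (sq q) = -sq q)
    {Q : Ideal (𝓞 K)} (hQ : Odd (Ideal.absNorm Q)) (h1 : jL (KB.LI φ δ A Q) = s (jL A))
    (h2 : jL (KB.LI φ δ B Q) = s (jL B) ∨
      jL (KB.LI φ δ B (Q.map (PrF.conj h : 𝓞 K →+* 𝓞 K))) = s (jL B)) :
    jL B = jL A ∨ jL B = s (jL A) := by
  obtain ⟨T, hT, hjT⟩ := exists_trans h hφ hA hB hsA hsB hmul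
  have hcj : ∀ I : Ideal (𝓞 K), Odd (Ideal.absNorm I) →
      Odd (Ideal.absNorm (I.map (PrF.conj h : 𝓞 K →+* 𝓞 K))) := by
    intro I hI
    rw [PrF.absNorm_conj]
    exact hI
  have hQ' := hcj Q hQ
  have hT' := hcj T hT
  set Q' : Ideal (𝓞 K) := Q.map (PrF.conj h : 𝓞 K →+* 𝓞 K) with hQ'd
  set T' : Ideal (𝓞 K) := T.map (PrF.conj h : 𝓞 K →+* 𝓞 K) with hT'd
  have htop : Odd (Ideal.absNorm (⊤ : Ideal (𝓞 K))) := odd_top3
  have hlatT := KB.LI_lat h hφ hA hsA (odd_ne hT)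
  have hlatQ := KB.LI_lat h hφ hA hsA (odd_ne hQ)
  have hcA := jL_conj s hA
  have hcsA := conj_hasSq s hA hsA
  have hcQ : jL (conj s A) = jL (KB.LI φ δ A Q) := by rw [hcA.2, h1]
  -- the formula (*)
  have hstar : s (jL B) = jL (KB.LI φ δ A (Q * T')) := by
    have e1 := (jL_conj s hlatT).2
    rw [conj_LI h hφ hs hA hsA (odd_ne hT), hjT] at e1
    rw [← e1, ← LI_LI h hQ hT']
    exact jL_congr h hφ hcA.1 hlatQ hcsA hcQ (odd_ne hT')
  have hAtop : jL (KB.LI φ δ A ⊤) = jL A := by rw [KB.LI_top h hφ hsA]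
  have hBX : ∀ X : Ideal (𝓞 K), Odd (Ideal.absNorm X) →
      jL (KB.LI φ δ B X) = jL (KB.LI φ δ A (T * X)) := by
    intro X hX
    rw [← LI_LI h hT hX]
    exact jL_congr h hφ hB hlatT hsB hjT.symm (odd_ne hX)
  rcases h2 with h2 | h2
  · -- first case
    rw [hBX Q hQ, hstar] at h2
    have e1 := mulX3 h hφ hA hsA (odd_mul3 hT hQ) (odd_mul3 hQ hT') (odd_mul3 hQ' hT) h2
    have e2 : T * Q * (Q' * T) = (Q * Q') * (T * T) := by ring
    have e3 : Q * T' * (Q' * T) = (Q * Q') * ((T * T') * ⊤) := by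
      rw [Ideal.mul_top]
      ring
    rw [e2, e3, strip3 h hφ hA hsA hQ (odd_mul3 hT hT),
      strip3 h hφ hA hsA hQ (odd_mul3 (odd_mul3 hT hT') htop), strip3 h hφ hA hsA hT htop,
      hAtop] at e1
    left
    rw [← hjT]
    exact stab h hφ hA hsA hT e1
  · -- second case
    rw [hBX Q' hQ', hstar] at h2
    have e1 := mulX3 h hφ hA hsA (odd_mul3 hT hQ') (odd_mul3 hQ hT') (odd_mul3 hT hQ') h2
    have e3 : Q * T' * (T * Q') = (Q * Q') * ((T * T') * ⊤) := by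
      rw [Ideal.mul_top]
      ring
    rw [e3, strip3 h hφ hA hsA hQ (odd_mul3 (odd_mul3 hT hT') htop),
      strip3 h hφ hA hsA hT htop, hAtop] at e1
    have e4 : T * Q' * Q = (Q * Q') * T := by ring
    have h3 := stab h hφ hA hsA (odd_mul3 hT hQ') e1
    right
    have e5 := mulX3 h hφ hA hsA (odd_mul3 hT hQ') htop hQ (h3.trans hAtop.symm)
    rw [e4, strip3 h hφ hA hsA hQ hT, hjT, Ideal.top_mul, h1] at e5
    exact e5

end Pool.Agent.SS.ZI
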