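import Mathlib
import Pool.Agent.Work.MP_a5099b_nt.H.HDefs
import Pool.Agent.Work.MP_a5099b_nt.H.Gen
import Pool.Agent.Work.MP_a5099b_nt.H.Sand
import Pool.Agent.Work.MP_a5099b_nt.H.Cov
import Pool.Agent.Work.MP_a5099b_nt.H.Bas

/-!
# Module ZI/SharpA (size M): the lattice generated over the maximal order (`q = 3 mod 4`)

`om q = (1 + √(-q)) / 2`, `om q ^ 2 = om q - (q + 1) / 4` with `(q + 1) / 4` an integer; `shp q L = L + om q • L`. `om q ≠ 0`, `2 * om q = 1 + sq q`.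
* `mem_shp`: `z ∈ shp q L ↔ ∃ a ∈ L, ∃ b ∈ L, z = a + om q * b` (`Submodule.mem_sup`, `mem_smul'`).
* `shp_mul`: `om q * (a + om q * b) = om q * (a + b) - (q + 1) / 4 * b`.
* `two_shp`: `2 * (a + om q * b) = 2 a + b + sq q * b ∈ L` (`L` has multiplication by `sq q`).
* `shp_le`: `L ≤ M`, `M` stable under `om q`. * `shp_self`: `shp_le` with `M = L`, and `le_sup_left`.
* `shp_lat`: `L ≤ shp q L ≤ (2 : ℂ)⁻¹ • L` (`two_shp`), `isLat_between` (H/Sand), `IsLat.smul`. * `shp_hasSq`: `sq q * z = 2 * (om q * z) - z`.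
* `shp_smul`: elementwise with `mem_shp`, `mem_smul'`.
* `mul_iff_om`: `A, B` lattices with `HasSq q`, both stable or both not stable under `om q`: `exists_gen` (H/Gen): every multiplier of `A` is `x + y ω` (`x, y` integers) with `ω = sq q` or `ω = (1 + sq q) / 2` a multiplier. If `A` is stable under `om q`: whatever the case, every multiplier of `A` is
an integral combination of `1` and `om q` (`sq q = 2 om q - 1`), so a multiplier of `B` if `B` is stable. If `A` is not stable: `ω = sq q`, so every multiplier of `A` is `x + y sq q`, a multiplier of `B`.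
* `shp_sup`: `L` not stable under `om q`. `exists_sup` (H/Cov): `Sup n L (shp q L)` with `n > 0`, `Sup n' (shp q L) (2⁻¹ • L)`, `n n' = 4` (`cov_sup, cov_smul, cov_pos`, as in K/PSup.lean). `n ≠ 1` (`sup_one`: `shp q L = L` would be stable). `n = 4`: `n' = 1`, `shp q L = 2⁻¹ • L`, so
`2⁻¹ • L` is stable under `om q`, so is `L` (scaling, `isMul_smul_iff` in H/PSup.lean), contradiction. So `n = 2`.
-/

set_option autoImplicit false
set_option linter.unusedSectionVars false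

namespace Pool.Agent.SS.ZI

open Pool.Agent.Work.CM
open Pool.Agent.SS.HB
open scoped Pointwise

noncomputable section

/-- `(1 + √(-q)) / 2` -/
def om (q : ℕ) : ℂ := (1 + sq q) / 2

/-- the lattice generated by `L` over the maximal order -/
def shp (q : ℕ) (L : Submodule ℤ ℂ) : Submodule ℤ ℂ := L ⊔ om q • L

end

theorem om_ne {q : ℕ} : om q ≠ 0 := by
  intro h
  unfold om at h
  have h1 : (1 : ℂ) + sq q = 0 := by
    have := (div_eq_zero_iff.1 h)
    rcases this with h | h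
    · exact h
    · norm_num at h
  have h2 := congrArg Complex.re h1
  rw [Complex.add_re, sq_re, Complex.one_re, Complex.zero_re] at h2
  norm_num at h2

theorem two_om (q : ℕ) : 2 * om q = 1 + sq q := by
  unfold om
  ring

theorem mem_shp {q : ℕ} {L : Submodule ℤ ℂ} {z : ℂ} :
    z ∈ shp q L ↔ ∃ a ∈ L, ∃ b ∈ L, z = a + om q * b := by
  unfold shp
  rw [Submodule.mem_sup]
  constructor
  · rintro ⟨a, ha, b, hb, rfl⟩
    refine ⟨a, ha, (om q)⁻¹ * b, (mem_smul' om_ne).1 hb, ?_⟩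
    have h0 : om q * ((om q)⁻¹ * b) = b := by
      rw [← mul_assoc, mul_inv_cancel₀ om_ne, one_mul]
    rw [h0]
  · rintro ⟨a, ha, b, hb, rfl⟩
    exact ⟨a, ha, om q * b, (mem_smul_iff om_ne).2 hb, rfl⟩

theorem le_shp (q : ℕ) (L : Submodule ℤ ℂ) : L ≤ shp q L := le_sup_left

private theorem om_sq {q : ℕ} (hq4 : q % 4 = 3) : ∃ k : ℤ, om q * om q = om q - k := by
  obtain ⟨k, hk⟩ : ∃ k : ℤ, (q : ℤ) + 1 = 4 * k := ⟨((q : ℤ) + 1) / 4, by omega⟩
  refine ⟨k, ?_⟩
  have hk' : (q : ℂ) + 1 = 4 * k := by exact_mod_cast hk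
  have h := sq_mul_self q
  unfold om
  linear_combination h / 4 - hk' / 4

theorem shp_mul {q : ℕ} (hq4 : q % 4 = 3) (L : Submodule ℤ ℂ) : IsMul (shp q L) (om q) := by
  intro z hz
  obtain ⟨a, ha, b, hb, rfl⟩ := mem_shp.1 hz
  obtain ⟨k, hk⟩ := om_sq hq4
  refine mem_shp.2 ⟨-(k • b), L.neg_mem (L.smul_mem k hb), a + b, L.add_mem ha hb, ?_⟩
  rw [zsmul_eq_mul]
  linear_combination b * hk

theorem two_shp {q : ℕ} {L : Submodule ℤ ℂ} (hs : HasSq q L) {z : ℂ} (hz : z ∈ shp q L) :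
    2 * z ∈ L := by
  obtain ⟨a, ha, b, hb, rfl⟩ := mem_shp.1 hz
  have e : 2 * (a + om q * b) = (2 : ℤ) • a + (b + sq q * b) := by
    rw [zsmul_eq_mul]
    push_cast
    linear_combination b * two_om q
  rw [e]
  exact L.add_mem (L.smul_mem 2 ha) (L.add_mem hb (hs b hb))

theorem shp_le {q : ℕ} {L M : Submodule ℤ ℂ} (hle : L ≤ M) (hM : IsMul M (om q)) :
    shp q L ≤ M := by
  intro z hz
  obtain ⟨a, ha, b, hb, rfl⟩ := mem_shp.1 hz
  exact M.add_mem (hle ha) (hM b (hle hb))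

theorem shp_self {q : ℕ} {L : Submodule ℤ ℂ} (hL : IsMul L (om q)) : shp q L = L := by
  exact le_antisymm (shp_le le_rfl hL) (le_shp q L)

theorem shp_lat {q : ℕ} {L : Submodule ℤ ℂ} (hL : IsLat L) (hs : HasSq q L) :
    IsLat (shp q L) := by
  have h2 : (2 : ℂ) ≠ 0 := two_ne_zero
  refine isLat_between hL (hL.smul (inv_ne_zero h2)) (le_shp q L) ?_
  intro z hz
  rw [mem_smul' (inv_ne_zero h2), inv_inv]
  exact two_shp hs hz

theorem shp_hasSq {q : ℕ} (hq4 : q % 4 = 3) (L : Submodule ℤ ℂ) : HasSq q (shp q L) := by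
  intro z hz
  have e : sq q * z = (2 : ℤ) • (om q * z) - z := by
    rw [zsmul_eq_mul]
    push_cast
    linear_combination (-z) * two_om q
  rw [e]
  exact (shp q L).sub_mem ((shp q L).smul_mem 2 (shp_mul hq4 L z hz)) hz

theorem shp_smul {q : ℕ} {L : Submodule ℤ ℂ} {c : ℂ} (hc : c ≠ 0) :
    shp q (c • L) = c • shp q L := by
  ext z
  rw [mem_shp, mem_smul' hc, mem_shp]
  constructor
  · rintro ⟨a, ha, b, hb, rfl⟩
    refine ⟨c⁻¹ * a, (mem_smul' hc).1 ha, c⁻¹ * b, (mem_smul' hc).1 hb, ?_⟩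
    ring
  · rintro ⟨a, ha, b, hb, h⟩
    refine ⟨c * a, (mem_smul_iff hc).2 ha, c * b, (mem_smul_iff hc).2 hb, ?_⟩
    have e : z = c * (c⁻¹ * z) := by rw [← mul_assoc, mul_inv_cancel₀ hc, one_mul]
    rw [e, h]
    ring

private theorem one_dir {q : ℕ} (hq : q.Prime) (hq4 : q % 4 = 3) {A B : Submodule ℤ ℂ}
    (hA : IsLat A) (hsA : HasSq q A) (hsB : HasSq q B)
    (ho : IsMul A (om q) → IsMul B (om q)) : ∀ μ, IsMul A μ → IsMul B μ := by
  intro μ hμ
  obtain ⟨ω, h1, h2, h3⟩ := exists_gen hq hq4 hA hsA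
  obtain ⟨x, y, rfl⟩ := h3 μ hμ
  have hω : IsMul B ω := by
    rcases h2 with h2 | h2
    · rw [h2]
      exact hsB
    · have h4 : ω = om q := h2
      rw [h4] at h1 ⊢
      exact ho h1
  exact (IsMul.int B x).add ((IsMul.int B y).mul hω)

theorem mul_iff_om {q : ℕ} (hq : q.Prime) (hq4 : q % 4 = 3) {A B : Submodule ℤ ℂ}
    (hA : IsLat A) (hB : IsLat B) (hsA : HasSq q A) (hsB : HasSq q B)
    (ho : IsMul A (om q) ↔ IsMul B (om q)) : ∀ μ, IsMul B μ ↔ IsMul A μ := by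
  intro μ
  exact ⟨one_dir hq hq4 hB hsB hsA ho.2 μ, one_dir hq hq4 hA hsA hsB ho.1 μ⟩

theorem shp_sup {q : ℕ} (hq4 : q % 4 = 3) {L : Submodule ℤ ℂ} (hL : IsLat L) (hs : HasSq q L)
    (ho : ¬ IsMul L (om q)) : Sup 2 L (shp q L) := by
  have h2 : (2 : ℂ) ≠ 0 := two_ne_zero
  have hD := shp_lat hL hs
  have hle1 : L ≤ shp q L := le_shp q L
  have hle2 : shp q L ≤ ((2 : ℂ)⁻¹) • L := fun z hz => by
    rw [mem_smul' (inv_ne_zero h2), inv_inv]
    exact two_shp hs hz
  have hL2 : IsLat (((2 : ℂ)⁻¹) • L) := hL.smul (inv_ne_zero h2)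
  obtain ⟨n, hn0, hn⟩ := exists_sup hL hD hle1
  obtain ⟨n', hn0', hn'⟩ := exists_sup hD hL2 hle2
  have c1 := cov_sup hn
  have c2 := cov_sup hn'
  have c3 := cov_smul hL (inv_ne_zero h2)
  have hnorm : ‖((2 : ℂ)⁻¹)‖ = (2 : ℝ)⁻¹ := by
    rw [norm_inv, Complex.norm_ofNat]
  rw [c2, c3, hnorm] at c1
  have hcov := (cov_pos hL).ne'
  have hnn : (n : ℝ) * n' = 4 := by
    have h1 : cov L * 4 = (n * n') * cov L := by
      conv_lhs => rw [c1]
      ring
    have h5 : cov L * ((n : ℝ) * n') = cov L * 4 := by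
      rw [h1]
      ring
    exact mul_left_cancel₀ hcov h5
  have hnn' : n * n' = 4 := by exact_mod_cast hnn
  have hn4 : n ≤ 4 := Nat.le_of_dvd (by norm_num) (Dvd.intro _ hnn')
  have hne1 : n ≠ 1 := by
    rintro rfl
    have hDL := sup_one hn
    apply ho
    have h5 := shp_mul hq4 L
    rwa [← hDL] at h5
  have hne4 : n ≠ 4 := by
    rintro rfl
    have hn1 : n' = 1 := by omega
    rw [hn1] at hn'
    have hDL := sup_one hn'
    have h5 := shp_mul hq4 L
    rw [hDL] at h5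
    apply ho
    have h6 := h5.smul h2
    rwa [smul_smul, mul_inv_cancel₀ h2, one_smul] at h6
  have hn2 : n = 2 := by
    have : n = 2 ∨ n = 3 := by omega
    rcases this with h | h
    · exact h
    · exfalso
      rw [h] at hnn'
      omega
  rw [hn2] at hn
  exact hn

end Pool.Agent.SS.ZI
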