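import Mathlib
import Pool.Agent.Work.MP_a5099b_nt.K.KDefs
import Pool.Agent.Work.MP_a5099b_nt.K.LLat
import Pool.Agent.Work.MP_a5099b_nt.H.ConjJ
import Pool.Agent.Work.MP_a5099b_nt.A.Lat
import Pool.Agent.Work.MP_a5099b_nt.ZI.SharpA

/-!
# Module ZI/SharpB (size S-M): `shp` commutes with `L ↦ L_I` and with automorphisms
-/

set_option autoImplicit false
set_option linter.unusedSectionVars false

namespace Pool.Agent.SS.ZI

open NumberField
open Pool.Agent.Work.CM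
open Pool.Agent.Work.MP_a5099b_nt
open Pool.Agent.SS.HB
open scoped Pointwise

variable {K : Type} [Field K] [NumberField K] {q : ℕ} {δ : 𝓞 K}

theorem shp_LI (h : PrF.Quad K q δ) {φ : 𝓞 K →+* ℂ} (hφ : φ δ = sq q) {L : Submodule ℤ ℂ}
    (hL : IsLat L) (hs : HasSq q L) {I : Ideal (𝓞 K)} (hI : Odd (Ideal.absNorm I)) :
    KB.LI φ δ (shp q L) I = shp q (KB.LI φ δ L I) := by
  apply le_antisymm
  · intro z hz
    have h2 : 2 * z ∈ KB.LI φ δ L I := by
      rw [KB.mem_LI]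
      intro x hx hxo
      have h3 := two_shp hs (KB.mem_LI.1 hz x hx hxo)
      have e : φ x * (2 * z) = 2 * (φ x * z) := by ring
      rw [e]
      exact h3
    have hn : ((Ideal.absNorm I : ℕ) : ℂ) * z ∈ shp q (KB.LI φ δ L I) := by
      have h4 := KB.mem_LI.1 hz ((Ideal.absNorm I : ℕ) : 𝓞 K) (Ideal.absNorm_mem I)
        (KB.Od.nat _)
      rw [map_natCast] at h4
      have h5 : shp q L ≤ shp q (KB.LI φ δ L I) :=
        shp_le ((KB.le_LI hφ hs I).trans (le_shp q _)) (shp_mul h.mod4 _)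
      exact h5 h4
    obtain ⟨t, ht⟩ := hI
    have e : z = ((Ideal.absNorm I : ℕ) : ℂ) * z - (t : ℤ) • (2 * z) := by
      rw [ht, zsmul_eq_mul]
      push_cast
      ring
    rw [e]
    exact Submodule.sub_mem _ hn (Submodule.smul_mem _ _ (le_shp q _ h2))
  · intro z hz
    obtain ⟨a, ha, b, hb, rfl⟩ := mem_shp.1 hz
    rw [KB.mem_LI]
    intro x hx hxo
    exact mem_shp.2 ⟨φ x * a, KB.mem_LI.1 ha x hx hxo, φ x * b, KB.mem_LI.1 hb x hx hxo, by ring⟩

private theorem conj_cancel (σ : ℂ ≃+* ℂ) {L : Submodule ℤ ℂ} (hL : IsLat L) :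
    conj σ.symm (conj σ L) = L := by
  rw [conj_trans σ.symm σ hL, RingEquiv.self_trans_symm]
  exact conj_refl hL

private theorem conj_cancel' (σ : ℂ ≃+* ℂ) {L : Submodule ℤ ℂ} (hL : IsLat L) :
    conj σ (conj σ.symm L) = L := by
  rw [conj_trans σ σ.symm hL, RingEquiv.symm_trans_self]
  exact conj_refl hL

private theorem sb_om {q : ℕ} {σ : ℂ ≃+* ℂ} (hσ : σ (sq q) = -sq q) : σ (om q) = 1 - om q := by
  unfold om
  rw [map_div₀, map_add, map_one, hσ, map_ofNat]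
  ring

private theorem conj_ge (hq4 : q % 4 = 3) {σ : ℂ ≃+* ℂ} (hσ : σ (sq q) = -sq q)
    {L : Submodule ℤ ℂ} (hL : IsLat L) (hs : HasSq q L) :
    shp q (conj σ L) ≤ conj σ (shp q L) := by
  have hS := shp_lat hL hs
  apply shp_le (conj_le σ hL hS (le_shp q L))
  intro z hz
  have h1 := conj_isMul σ hS (shp_mul hq4 L) z hz
  rw [sb_om hσ] at h1
  have e : om q * z = z - (1 - om q) * z := by ring
  rw [e]
  exact Submodule.sub_mem _ hz h1

theorem shp_conj (hq4 : q % 4 = 3) {σ : ℂ ≃+* ℂ} (hσ : σ (sq q) = -sq q) {L : Submodule ℤ ℂ}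
    (hL : IsLat L) (hs : HasSq q L) : conj σ (shp q L) = shp q (conj σ L) := by
  refine le_antisymm ?_ (conj_ge hq4 hσ hL hs)
  have hσ' : σ.symm (sq q) = -sq q := by
    rw [RingEquiv.symm_apply_eq, map_neg, hσ, neg_neg]
  have hM := (jL_conj σ hL).1
  have hMs := conj_hasSq σ hL hs
  have h1 := conj_ge hq4 hσ' hM hMs
  rw [conj_cancel σ hL] at h1
  have hS := shp_lat hL hs
  have hT := shp_lat hM hMs
  have h2 := conj_le σ hS (jL_conj σ.symm hT).1 h1
  rw [conj_cancel' σ hT] at h2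
  exact h2

theorem shp_refl (h : PrF.Quad K q δ) {φ : 𝓞 K →+* ℂ} (hφ : φ δ = sq q) {σ : ℂ ≃+* ℂ}
    (hσ : σ (sq q) = -sq q) {L : Submodule ℤ ℂ} (hL : IsLat L) (hs : HasSq q L)
    {I : Ideal (𝓞 K)} (hI : Odd (Ideal.absNorm I)) (hj : jL (KB.LI φ δ L I) = σ (jL L)) :
    jL (KB.LI φ δ (shp q L) I) = σ (jL (shp q L)) := by
  have hI0 : I ≠ ⊥ := by
    rintro rfl
    rw [Ideal.absNorm_bot] at hI
    exact absurd hI (by decide)
  obtain ⟨hC, hCj⟩ := jL_conj σ hL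
  have hD := KB.LI_lat h hφ hL hs hI0
  obtain ⟨c, hc, hcD⟩ := exists_smul_of_jL hC hD (by rw [hCj, hj])
  have hS := shp_lat hL hs
  obtain ⟨hSC, hSCj⟩ := jL_conj σ hS
  rw [shp_LI h hφ hL hs hI, hcD, shp_smul hc, ← shp_conj h.mod4 hσ hL hs, jL_smul hSC hc, hSCj]

end Pool.Agent.SS.ZI
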