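import Mathlib
import Pool.Agent.Work.MP_a5099b_nt.H.Pair
import Pool.Agent.Work.MP_a5099b_nt.ZI.Refl3
import Pool.Agent.Work.MP_a5099b_nt.ZI.SharpA
import Pool.Agent.Work.MP_a5099b_nt.ZI.SharpB
import Pool.Agent.Work.MP_a5099b_nt.ZI.Red2

/-!
# Module ZI/Only3 (size M): which `y` have an isogeny of the same type (`q = 3 mod 4`)
-/

set_option autoImplicit false
set_option linter.unusedSectionVars false

namespace Pool.Agent.SS.ZI

open NumberField
open Pool.Agent.Work.CM
open Pool.Agent.Work.MP_a5099b_nt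
open Pool.Agent.SS.HB
open scoped Pointwise

variable {K : Type} [Field K] [NumberField K] {q : ℕ} {δ : 𝓞 K}

private theorem red_uniq3 [Fact q.Prime] {k : Type} [Field k] [CharP k q]
    {red : integralClosure ℤ ℂ →+* k} {z : ℂ} {y y' : ZMod q}
    (h : RedTo red z (ZMod.castHom (dvd_refl q) k y))
    (h' : RedTo red z (ZMod.castHom (dvd_refl q) k y')) : y = y' := by
  obtain ⟨h1, h2⟩ := h
  obtain ⟨h3, h4⟩ := h'
  exact (ZMod.castHom (dvd_refl q) k).injective (h2.symm.trans h4)

theorem only3 [Fact q.Prime] (h : PrF.Quad K q δ) {φ : 𝓞 K →+* ℂ} (hφ : φ δ = sq q) {k : Type}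
    [Field k] [CharP k q] {red : integralClosure ℤ ℂ →+* k} {s : ℂ ≃+* ℂ}
    (hs : s (sq q) = -sq q) {y0 y : ZMod q} {L0 M0 L M : Submodule ℤ ℂ}
    (P0 : PairAt q red y0 L0 M0) (P : PairAt q red y L M) (hs0 : s (jL L0) = jL M0)
    (hs1 : s (jL L) = jL M) {Q : Ideal (𝓞 K)} (hQ : Odd (Ideal.absNorm Q))
    (h1 : jL (KB.LI φ δ L0 Q) = jL M0)
    (h2 : jL (KB.LI φ δ L Q) = jL M ∨
      jL (KB.LI φ δ L (Q.map (PrF.conj h : 𝓞 K →+* 𝓞 K))) = jL M) :
    y = y0 ∨ (PhiAt 2 y0).eval y = 0 := by
  have hq4 := h.mod4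
  have hqp := h.prime
  have hQ' : Odd (Ideal.absNorm (Q.map (PrF.conj h : 𝓞 K →+* 𝓞 K))) := by
    rw [PrF.absNorm_conj]
    exact hQ
  rw [← hs0] at h1
  rw [← hs1] at h2
  by_cases hA : IsMul L0 (om q)
  · by_cases hB : IsMul L (om q)
    · -- both stable
      left
      rcases refl_core h hφ P0.latL P.latL P0.sqL P.sqL
        (mul_iff_om hqp hq4 P0.latL P.latL P0.sqL P.sqL ⟨fun _ => hB, fun _ => hA⟩) hs hQ h1 h2
        with h3 | h3
      · have := P.redL
        rw [h3] at this
        exact red_uniq3 this P0.redL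
      · have := P.redL
        rw [h3, hs0] at this
        exact red_uniq3 this P0.redM
    · -- `L0` is stable, `L` is not
      right
      have hB' := shp_mul hq4 L
      have hBl := shp_lat P.latL P.sqL
      have hBs := shp_hasSq hq4 L
      have h2' : jL (KB.LI φ δ (shp q L) Q) = s (jL (shp q L)) ∨
          jL (KB.LI φ δ (shp q L) (Q.map (PrF.conj h : 𝓞 K →+* 𝓞 K))) = s (jL (shp q L)) := by
        rcases h2 with h3 | h3
        · exact Or.inl (shp_refl h hφ hs P.latL P.sqL hQ h3)
        · exact Or.inr (shp_refl h hφ hs P.latL P.sqL hQ' h3)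
      have h4 := refl_core h hφ P0.latL hBl P0.sqL hBs
        (mul_iff_om hqp hq4 P0.latL hBl P0.sqL hBs ⟨fun _ => hB', fun _ => hA⟩) hs hQ h1 h2'
      have h5 : RedTo red (jL (shp q L)) (ZMod.castHom (dvd_refl q) k y0) := by
        rcases h4 with h6 | h6
        · rw [h6]
          exact P0.redL
        · rw [h6, hs0]
          exact P0.redM
      exact phi_red' red (shp_sup hq4 P.latL P.sqL hB) P.redL h5
  · by_cases hB : IsMul L (om q)
    · -- `L0` is not stable, `L` is
      right
      have hA' := shp_mul hq4 L0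
      have hAl := shp_lat P0.latL P0.sqL
      have hAs := shp_hasSq hq4 L0
      have h1' := shp_refl h hφ hs P0.latL P0.sqL hQ h1
      have h4 := refl_core h hφ hAl P.latL hAs P.sqL
        (mul_iff_om hqp hq4 hAl P.latL hAs P.sqL ⟨fun _ => hB, fun _ => hA'⟩) hs hQ h1' h2
      rcases h4 with h6 | h6
      · have h7 := P.redL
        rw [h6] at h7
        exact phi_red red (shp_sup hq4 P0.latL P0.sqL hA) P0.redL h7
      · have hcl := jL_conj s P0.latL
        have hcs := conj_hasSq s P0.latL P0.sqL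
        have hcn : ¬ IsMul (conj s L0) (om q) := fun h8 =>
          hA ((conj_isMul_iff s hqp P0.latL P0.sqL _).1 h8)
        have h7 := P.redL
        rw [h6, ← (jL_conj s hAl).2, shp_conj hq4 hs P0.latL P0.sqL] at h7
        have h9 : RedTo red (jL (conj s L0)) (ZMod.castHom (dvd_refl q) k y0) := by
          rw [hcl.2, hs0]
          exact P0.redM
        exact phi_red red (shp_sup hq4 hcl.1 hcs hcn) h9 h7
    · -- both not stable
      left
      rcases refl_core h hφ P0.latL P.latL P0.sqL P.sqL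
        (mul_iff_om hqp hq4 P0.latL P.latL P0.sqL P.sqL
          ⟨fun h => absurd h hA, fun h => absurd h hB⟩) hs hQ h1 h2
        with h3 | h3
      · have := P.redL
        rw [h3] at this
        exact red_uniq3 this P0.redL
      · have := P.redL
        rw [h3, hs0] at this
        exact red_uniq3 this P0.redM

end Pool.Agent.SS.ZI
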