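import Mathlib
import Pool.Agent.Work.MP_a5099b_nt.H.Pair
import Pool.Agent.Work.MP_a5099b_nt.K.KDefs
import Pool.Agent.Work.MP_a5099b_nt.K.Cnt
import Pool.Agent.Work.MP_a5099b_nt.ZI.Act3

/-!
# Module ZI/Par3 (size S-M): an odd multiplicity gives an isogeny to the conjugate lattice (`q = 3 mod 4`)

`ZI/Act3` may be a stub. Let `l = absNorm Q`, `Q' = Q.map (PrF.conj h)`, `absNorm Q' = l` (`PrF.absNorm_conj`), `Q * Q' = span {l}` (`PrF.map_conj_mul`), `j(I) = jL (KB.LI φ δ L I)`.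
`P.par` (H/Pair) and `KB.ncard_eq` (K/Cnt) with `Q z := z = jL L ∨ z = jL M`: the multiplicity is congruent modulo 2 to `[j(Q) ∈ {jL L, jL M}] + [j(Q') ∈ {jL L, jL M}]` (compare K/One.lean). It is odd, so one of the two is in the set and the other is not.
If `j(Q) = jL L`: by `jL_congr` (for `LI L Q` and `L`, `X = Q'`) and `LI_LI`: `j(Q * Q') = j(Q')`, and `j(Q * Q') = j(span {l} * ⊤) = jL L` (`jL_nat`, `KB.LI_top`), so `j(Q') = jL L` too: both in the set, contradiction. In the same way `j(Q') ≠ jL L`. So one of them is `jL M`.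
-/

set_option autoImplicit false
set_option linter.unusedSectionVars false

namespace Pool.Agent.SS.ZI

open NumberField
open Pool.Agent.Work.CM
open Pool.Agent.Work.MP_a5099b_nt
open Pool.Agent.SS.HB
open scoped Pointwise

variable {K : Type} [Field K] [NumberField K] {q : ℕ} {δ : 𝓞 K}

/-- The invariant of the lattice of `Q * Q'` is the invariant of the lattice. -/
private theorem aux_prod (h : PrF.Quad K q δ) {φ : 𝓞 K →+* ℂ} (hφ : φ δ = sq q)
    {L : Submodule ℤ ℂ} (hL : IsLat L) (hs : HasSq q L) {Q Q' : Ideal (𝓞 K)} {l : ℕ}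
    (hlo : Odd l) (hQ : Ideal.absNorm Q = l) (hQ' : Ideal.absNorm Q' = l)
    (hprod : Q * Q' = Ideal.span {(l : 𝓞 K)})
    (hj : jL (KB.LI φ δ L Q) = jL L) : jL (KB.LI φ δ L Q') = jL L := by
  have hQo : Odd (Ideal.absNorm Q) := by rw [hQ]; exact hlo
  have hQo' : Odd (Ideal.absNorm Q') := by rw [hQ']; exact hlo
  have hne : ∀ I : Ideal (𝓞 K), Odd (Ideal.absNorm I) → I ≠ ⊥ := by
    intro I hI h0
    rw [h0, Ideal.absNorm_bot] at hI
    exact Nat.not_odd_zero hI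
  have hlat : IsLat (KB.LI φ δ L Q) := KB.LI_lat h hφ hL hs (hne Q hQo)
  have hsq : HasSq q (KB.LI φ δ L Q) := KB.LI_hasSq h hφ L Q
  have h1 : jL (KB.LI φ δ (KB.LI φ δ L Q) Q') = jL (KB.LI φ δ L Q') :=
    jL_congr h hφ hlat hL hsq hj (hne Q' hQo')
  rw [LI_LI h hQo hQo', hprod] at h1
  have htop : Odd (Ideal.absNorm (⊤ : Ideal (𝓞 K))) := by
    rw [Ideal.absNorm_top]
    exact odd_one
  have h2 := jL_nat h hφ hL hs hlo htop
  rw [Ideal.mul_top, KB.LI_top h hφ hs] at h2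
  rw [← h1, h2]

open Classical in
/-- An odd number which is a sum of two indicators. -/
private theorem aux_odd {a b : Prop} {n : ℕ} (hn : Odd n)
    (h : n ≡ (if a then 1 else 0) + (if b then 1 else 0) [MOD 2]) : (a ∧ ¬ b) ∨ (¬ a ∧ b) := by
  have h1 : n % 2 = 1 := Nat.odd_iff.1 hn
  unfold Nat.ModEq at h
  by_cases ha : a <;> by_cases hb : b
  · rw [if_pos ha, if_pos hb, h1] at h
    omega
  · exact Or.inl ⟨ha, hb⟩
  · exact Or.inr ⟨ha, hb⟩
  · rw [if_neg ha, if_neg hb, h1] at h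
    omega

theorem par3 [Fact q.Prime] (h : PrF.Quad K q δ) {φ : 𝓞 K →+* ℂ} (hφ : φ δ = sq q) {k : Type}
    [Field k] [CharP k q] {red : integralClosure ℤ ℂ →+* k} {y : ZMod q}
    {L M : Submodule ℤ ℂ} (P : PairAt q red y L M) {Q : Ideal (𝓞 K)}
    (hl : (Ideal.absNorm Q).Prime) (hl2 : Ideal.absNorm Q ≠ 2) (hlq : Ideal.absNorm Q ≠ q)
    (hodd : Odd ((PhiAt (Ideal.absNorm Q) y).rootMultiplicity y)) :
    jL (KB.LI φ δ L Q) = jL M ∨
      jL (KB.LI φ δ L (Q.map (PrF.conj h : 𝓞 K →+* 𝓞 K))) = jL M := by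
  classical
  set Q' : Ideal (𝓞 K) := Q.map (PrF.conj h : 𝓞 K →+* 𝓞 K) with hQ'
  have hn' : Ideal.absNorm Q' = Ideal.absNorm Q := PrF.absNorm_conj h Q
  have hlo : Odd (Ideal.absNorm Q) := hl.odd_of_ne_two hl2
  have hQb : Q ≠ ⊥ := by
    intro h0
    rw [h0, Ideal.absNorm_bot] at hl
    exact Nat.not_prime_zero hl
  have hprod : Q * Q' = Ideal.span {((Ideal.absNorm Q : ℕ) : 𝓞 K)} := PrF.map_conj_mul h Q hQb
  have h1 := P.par hl hlq
  have h2 := KB.ncard_eq h hφ P.latL P.sqL hl hl2 hlq rfl (fun z => z = jL L ∨ z = jL M)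
  rw [h2] at h1
  have e1 : jL (KB.LI φ δ L Q) = jL L → jL (KB.LI φ δ L Q') = jL L :=
    aux_prod h hφ P.latL P.sqL hlo rfl hn' hprod
  have e2 : jL (KB.LI φ δ L Q') = jL L → jL (KB.LI φ δ L Q) = jL L :=
    aux_prod h hφ P.latL P.sqL hlo hn' rfl (by rw [mul_comm]; exact hprod)
  rcases aux_odd hodd h1 with ⟨ha, hb⟩ | ⟨ha, hb⟩
  · rcases ha with ha | ha
    · exact absurd (Or.inl (e1 ha)) hb
    · exact Or.inl ha
  · rcases hb with hb | hb
    · exact absurd (Or.inl (e2 hb)) ha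
    · exact Or.inr hb

end Pool.Agent.SS.ZI
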