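import Mathlib
import Pool.Agent.Work.MP_a5099b_nt.H.Main
import Pool.Agent.Work.MP_a5099b_nt.H.Place
import Pool.Agent.Work.MP_a5099b_nt.K.Emb
import Pool.Agent.Work.MP_a5099b_nt.I.EInst
import Pool.Agent.Work.MP_a5099b_nt.ZI.IPair
import Pool.Agent.Work.MP_a5099b_nt.ZI.Trans
import Pool.Agent.Work.MP_a5099b_nt.ZI.Par3
import Pool.Agent.Work.MP_a5099b_nt.ZI.Only3

/-!
# Module ZI/Iso3 (size S-M): a prime which isolates `y0` up to 2-isogenies (`q = 3 mod 4`)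

Imports may be stubs. PROOF. `PrF.exists_quad q hq hq4 h7` (I/EInst), `KB.exists_emb`, `exists_place hq` (H/Place), `exists_swap` for `S`: `s`. For `y ∈ S` a pair `exists_pairAt`. Let `P0` be the pair `L0, M0` of `y0`. `exists_prime_trans` for `L0, M0` (`P0.mul`): `l`, `x`, `Q` (`absNorm Q = l`; `subst`).
`odd_mult` (H/Main): the multiplicity of `y0` for `l` is odd. For `y ∈ S`, `y ≠ y0`: if the multiplicity of `y` is odd, `par3` and `only3` (`exists_swap` for both pairs; `absNorm Q = l` is odd) give `(PhiAt 2 y0).eval y = 0`, so `c y` is even; in any case `c y * multiplicity` is even.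
So the sum is congruent to `c y0 * (multiplicity of y0)` modulo 2 (`Finset.sum_erase_add` or `Finset.add_sum_erase`, `Finset.even_sum`), which is odd.
-/

set_option autoImplicit false

namespace Pool.Agent.SS.ZI

open Polynomial
open Pool.Agent.SS.HB

theorem exists_prime_iso3 {q : ℕ} [Fact q.Prime] (h7 : 7 ≤ q) (hq4 : q % 4 = 3)
    (S : Finset (ZMod q)) (hS : ∀ y ∈ S, SSj q y ∧ y ≠ 0 ∧ y ≠ 1728) (c : ZMod q → ℕ)
    {y0 : ZMod q} (hy0 : y0 ∈ S) (hc : Odd (c y0))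
    (he : ∀ y ∈ S, y ≠ y0 → (PhiAt 2 y0).eval y = 0 → Even (c y)) {m : ℕ} (hm : Odd m)
    (hm2 : Squarefree m) (hqm : ¬ q ∣ m) {r : ℕ} (hr : Nat.Coprime r (8 * m)) (B : ℕ) :
    ∃ l : ℕ, l.Prime ∧ B < l ∧ l ≡ r [MOD 8 * m] ∧ jacobiSym (-q) l = 1 ∧
      Odd (∑ y ∈ S, c y * (PhiAt l y).rootMultiplicity y) := by
  have hq : q.Prime := Fact.out
  obtain ⟨K, i1, i2, δ, h⟩ := Pool.Agent.Work.MP_a5099b_nt.PrF.exists_quad q hq hq4 h7
  obtain ⟨φ, hφ⟩ := KB.exists_emb h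
  obtain ⟨k, _, _, ⟨red⟩⟩ := exists_place hq
  obtain ⟨s, hs, hsw⟩ := exists_swap (by omega) red S hS
  obtain ⟨L0, M0, P0⟩ := exists_pairAt (by omega) red y0 (hS y0 hy0).1 (hS y0 hy0).2.1
    (hS y0 hy0).2.2
  obtain ⟨l, hl, hB, hl2, hlq, hmod, hjac, ⟨x, hx, hsup⟩, Q, hQ, hjQ⟩ :=
    exists_prime_trans h hφ P0.latL P0.latM P0.sqL P0.sqM P0.mul hm hm2 hqm hr B
  refine ⟨l, hl, hB, hmod, hjac, ?_⟩
  have hy0odd : Odd ((PhiAt l y0).rootMultiplicity y0) := odd_mult hq4 h7 P0 hl hl2 hlq hx hsup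
  have hev : ∀ y ∈ S.erase y0, Even (c y * (PhiAt l y).rootMultiplicity y) := by
    intro y hy
    obtain ⟨hne, hyS⟩ := Finset.mem_erase.1 hy
    rcases Nat.even_or_odd ((PhiAt l y).rootMultiplicity y) with h1 | h1
    · exact h1.mul_left _
    · obtain ⟨L, M, P⟩ := exists_pairAt (by omega) red y (hS y hyS).1 (hS y hyS).2.1
        (hS y hyS).2.2
      have h2 := par3 h hφ P (Q := Q) (by rw [hQ]; exact hl) (by rw [hQ]; exact hl2)
        (by rw [hQ]; exact hlq) (by rw [hQ]; exact h1)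
      rcases only3 h hφ hs P0 P (hsw y0 hy0 L0 M0 P0).1 (hsw y hyS L M P).1 (Q := Q)
        (by rw [hQ]; exact hl.odd_of_ne_two hl2) hjQ h2 with h3 | h3
      · exact absurd h3 hne
      · exact (he y hyS hne h3).mul_right _
  rw [← Finset.add_sum_erase S _ hy0]
  exact (hc.mul hy0odd).add_even (Finset.even_sum _ hev)

end Pool.Agent.SS.ZI
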