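import Mathlib

/-!
# Module ZI/Ram (size S-M): primes not dividing the discriminant are unramified

PROOF. If `q ∈ v ^ 2` then `v ^ 2 ∣ (q)`, so `v` is ramified over `(q)` (ramification index > 1), so `v` divides the different (`dvd_differentIdeal_of_not_isUnramified..`, `pow_sub_one_dvd_differentIdeal`, see Mathlib/RingTheory/DedekindDomain/Different.lean: `pow_sub_one_dvd_differentIdeal`:
`P ^ e ∣ p B` implies `P ^ (e - 1) ∣ differentIdeal`), so `absNorm v ∣ absNorm (differentIdeal ℤ (𝓞 K)) = |discr K|` (`NumberField.absNorm_differentIdeal`), and `q ∣ absNorm v` (`absNorm v` is a power of `q` with positive exponent, or: `q` divides `absNorm v` because `absNorm v ∈ v`, `v ∩ ℤ = (q)`), contradiction.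
-/

set_option autoImplicit false

namespace Pool.Agent.SS.ZI

open NumberField IsDedekindDomain

variable {K : Type} [Field K] [NumberField K]

theorem not_mem_sq {q : ℕ} (hq : q.Prime) (hd : ¬ (q : ℤ) ∣ discr K)
    (v : HeightOneSpectrum (𝓞 K)) (hv : (q : 𝓞 K) ∈ v.asIdeal) :
    (q : 𝓞 K) ∉ v.asIdeal ^ 2 := by
  intro hmem
  have hqZ : Prime (q : ℤ) := Nat.prime_iff_prime_int.1 hq
  have hmax : (Ideal.span {(q : ℤ)}).IsMaximal :=
    PrincipalIdealRing.isMaximal_of_irreducible hqZ.irreducible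
  have hbot : Ideal.span {(q : ℤ)} ≠ ⊥ := by
    rw [Ne, Ideal.span_singleton_eq_bot]
    exact hqZ.ne_zero
  have hdvd : v.asIdeal ^ 2 ∣ (Ideal.span {(q : ℤ)}).map (algebraMap ℤ (𝓞 K)) := by
    rw [Ideal.dvd_iff_le, Ideal.map_span, Set.image_singleton, Ideal.span_singleton_le_iff_mem]
    have h1 : (algebraMap ℤ (𝓞 K)) (q : ℤ) = (q : 𝓞 K) := by simp
    rw [h1]
    exact hmem
  have h2 : v.asIdeal ^ (2 - 1) ∣ differentIdeal ℤ (𝓞 K) :=
    pow_sub_one_dvd_differentIdeal (A := ℤ) (B := 𝓞 K) v.asIdeal 2 hbot hdvd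
  rw [show (2 - 1 : ℕ) = 1 from rfl, pow_one] at h2
  have h3 : Ideal.absNorm v.asIdeal ∣ Ideal.absNorm (differentIdeal ℤ (𝓞 K)) :=
    Ideal.absNorm_dvd_absNorm_of_le (Ideal.dvd_iff_le.1 h2)
  rw [NumberField.absNorm_differentIdeal K (𝓞 K)] at h3
  have h4 : q ∣ Ideal.absNorm v.asIdeal := by
    by_contra hcon
    have hcop : IsCoprime (q : ℤ) (Ideal.absNorm v.asIdeal : ℤ) := by
      rw [Nat.isCoprime_iff_coprime]
      exact (Nat.Prime.coprime_iff_not_dvd hq).2 hcon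
    obtain ⟨a, b, hab⟩ := hcop
    have h5 : (1 : 𝓞 K) ∈ v.asIdeal := by
      have h6 : (1 : 𝓞 K) = (a : 𝓞 K) * (q : 𝓞 K) + (b : 𝓞 K) * (Ideal.absNorm v.asIdeal : 𝓞 K) := by
        exact_mod_cast (congrArg (fun z : ℤ => (z : 𝓞 K)) hab).symm
      rw [h6]
      exact Ideal.add_mem _ (Ideal.mul_mem_left _ _ hv)
        (Ideal.mul_mem_left _ _ (Ideal.absNorm_mem _))
    exact v.isPrime.ne_top ((Ideal.eq_top_iff_one _).2 h5)
  refine hd ?_
  rw [← Int.dvd_natAbs]
  exact_mod_cast h4.trans h3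

end Pool.Agent.SS.ZI
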