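import Mathlib

/-!
# Module ZI/Under (size S-M): places of `K` and of a subfield `k`

`exists_under`: the comap of `v` is a prime ideal, not `⊥` (it contains the residue characteristic; `Ideal.comap_ne_bot_of_integral_mem`, or `Ideal.under_ne_bot`). `exists_over`: lying over for the integral extension `𝓞 K` of `𝓞 k` (`Ideal.exists_ideal_over_prime_of_isIntegral` or similar).
`card_under`: `𝓞 k / v₀` is a finite field, embedded in the finite field `𝓞 K / v` (`Ideal.quotientMap`, injective): `q ^ f = (card (𝓞 k / v₀)) ^ d` (`Module.card_eq_pow_finrank`), so `card (𝓞 k / v₀) = q ^ g` with `g d = f` (`(Nat.dvd_prime_pow hq).1`), and `f` odd implies `g` odd.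
`not_sq_under`: `v₀ ^ 2` is mapped into `v ^ 2` (`Ideal.map_pow`, `Ideal.pow_right_mono`).
-/

set_option autoImplicit false

namespace Pool.Agent.SS.ZI

open NumberField IsDedekindDomain

variable {k K : Type} [Field k] [NumberField k] [Field K] [NumberField K] [Algebra k K]

theorem exists_under (v : HeightOneSpectrum (𝓞 K)) :
    ∃ v₀ : HeightOneSpectrum (𝓞 k), ∀ x : 𝓞 k,
      x ∈ v₀.asIdeal ↔ algebraMap (𝓞 k) (𝓞 K) x ∈ v.asIdeal := by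
  have hne : v.asIdeal.under (𝓞 k) ≠ ⊥ := Ideal.IsIntegral.comap_ne_bot (𝓞 k) v.ne_bot
  exact ⟨⟨v.asIdeal.under (𝓞 k), v.isPrime.under (𝓞 k), hne⟩, fun x => Iff.rfl⟩

theorem exists_over (v₀ : HeightOneSpectrum (𝓞 k)) :
    ∃ v : HeightOneSpectrum (𝓞 K), ∀ x : 𝓞 k,
      x ∈ v₀.asIdeal ↔ algebraMap (𝓞 k) (𝓞 K) x ∈ v.asIdeal := by
  haveI := v₀.isPrime
  haveI : v₀.asIdeal.IsMaximal := v₀.isMaximal
  obtain ⟨P, hP, hl⟩ := Ideal.exists_maximal_ideal_liesOver_of_isIntegral (S := 𝓞 K) v₀.asIdeal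
  have hne : P ≠ ⊥ := Ideal.ne_bot_of_liesOver_of_ne_bot v₀.ne_bot P
  refine ⟨⟨P, hP.isPrime, hne⟩, fun x => ?_⟩
  show x ∈ v₀.asIdeal ↔ algebraMap (𝓞 k) (𝓞 K) x ∈ P
  rw [hl.over]
  exact Iff.rfl

theorem card_under {q : ℕ} (hq : q.Prime) {v₀ : HeightOneSpectrum (𝓞 k)}
    {v : HeightOneSpectrum (𝓞 K)}
    (hv : ∀ x : 𝓞 k, x ∈ v₀.asIdeal ↔ algebraMap (𝓞 k) (𝓞 K) x ∈ v.asIdeal)
    (hf : ∃ f : ℕ, Odd f ∧ Nat.card (𝓞 K ⧸ v.asIdeal) = q ^ f) :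
    ∃ f : ℕ, Odd f ∧ Nat.card (𝓞 k ⧸ v₀.asIdeal) = q ^ f := by
  obtain ⟨f, hfo, hfc⟩ := hf
  haveI hm₀ : v₀.asIdeal.IsMaximal := v₀.isMaximal
  haveI hm : v.asIdeal.IsMaximal := v.isMaximal
  letI F₀ : Field (𝓞 k ⧸ v₀.asIdeal) := Ideal.Quotient.field _
  letI F : Field (𝓞 K ⧸ v.asIdeal) := Ideal.Quotient.field _
  have hle : v₀.asIdeal ≤ v.asIdeal.comap (algebraMap (𝓞 k) (𝓞 K)) := fun x hx => (hv x).1 hx
  let g : (𝓞 k ⧸ v₀.asIdeal) →+* (𝓞 K ⧸ v.asIdeal) :=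
    Ideal.quotientMap v.asIdeal (algebraMap (𝓞 k) (𝓞 K)) hle
  letI : Algebra (𝓞 k ⧸ v₀.asIdeal) (𝓞 K ⧸ v.asIdeal) := g.toAlgebra
  haveI : Finite (𝓞 K ⧸ v.asIdeal) := Ideal.finiteQuotientOfFreeOfNeBot v.asIdeal v.ne_bot
  haveI : Finite (𝓞 k ⧸ v₀.asIdeal) := Ideal.finiteQuotientOfFreeOfNeBot v₀.asIdeal v₀.ne_bot
  haveI : Module.Finite (𝓞 k ⧸ v₀.asIdeal) (𝓞 K ⧸ v.asIdeal) := Module.Finite.of_finite
  have hcard : Nat.card (𝓞 K ⧸ v.asIdeal) = Nat.card (𝓞 k ⧸ v₀.asIdeal) ^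
      Module.finrank (𝓞 k ⧸ v₀.asIdeal) (𝓞 K ⧸ v.asIdeal) :=
    Module.natCard_eq_pow_finrank
  have hpos : 0 < Module.finrank (𝓞 k ⧸ v₀.asIdeal) (𝓞 K ⧸ v.asIdeal) := Module.finrank_pos
  rw [hfc] at hcard
  have hdvd : Nat.card (𝓞 k ⧸ v₀.asIdeal) ∣ q ^ f := by
    rw [hcard]
    exact dvd_pow_self _ hpos.ne'
  obtain ⟨n, hn, he⟩ := (Nat.dvd_prime_pow hq).1 hdvd
  refine ⟨n, ?_, he⟩
  rw [he, ← pow_mul] at hcard
  have h1 : f = n * Module.finrank (𝓞 k ⧸ v₀.asIdeal) (𝓞 K ⧸ v.asIdeal) :=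
    Nat.pow_right_injective hq.two_le hcard
  rw [h1] at hfo
  exact (Nat.odd_mul.1 hfo).1

theorem not_sq_under {q : ℕ} {v₀ : HeightOneSpectrum (𝓞 k)} {v : HeightOneSpectrum (𝓞 K)}
    (hv : ∀ x : 𝓞 k, x ∈ v₀.asIdeal ↔ algebraMap (𝓞 k) (𝓞 K) x ∈ v.asIdeal)
    (hs : (q : 𝓞 K) ∉ v.asIdeal ^ 2) : (q : 𝓞 k) ∉ v₀.asIdeal ^ 2 := by
  intro h
  apply hs
  have h1 : v₀.asIdeal.map (algebraMap (𝓞 k) (𝓞 K)) ≤ v.asIdeal :=
    Ideal.map_le_iff_le_comap.2 (fun x hx => (hv x).1 hx)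
  have h2 : algebraMap (𝓞 k) (𝓞 K) (q : 𝓞 k) ∈
      (v₀.asIdeal ^ 2).map (algebraMap (𝓞 k) (𝓞 K)) := Ideal.mem_map_of_mem _ h
  rw [Ideal.map_pow, map_natCast] at h2
  exact Ideal.pow_right_mono h1 2 h2

end Pool.Agent.SS.ZI
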