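import Mathlib
import Pool.Agent.Work.MP_a5099b_nt.ZI.LDefs
import Pool.Agent.Work.MP_a5099b_nt.ZI.Main4
import Pool.Agent.Work.MP_a5099b_nt.ZI.EmbP
import Pool.Agent.Work.MP_a5099b_nt.ZI.DInt
import Pool.Agent.Work.MP_a5099b_nt.ZI.Ram
import Pool.Agent.Work.MP_a5099b_nt.ZI.LSep
import Pool.Agent.Work.MP_a5099b_nt.ZI.LNz
import Pool.Agent.Work.MP_a5099b_nt.ZI.Under
import Pool.Agent.Work.MP_a5099b_nt.ZI.JDown
import Pool.Agent.Work.MP_a5099b_nt.ZI.Up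
import Pool.Agent.Work.MP_a5099b_nt.ZI.Fld
import Pool.Agent.Work.MP_a5099b_nt.H.Place
import Pool.Agent.Work.MP_a5099b_nt.P2.Main

/-!
# Module ZI/Law: the zero-infinity law (assembly, helper24)
-/

set_option autoImplicit false

namespace Pool.Agent.SS.ZI

open NumberField IsDedekindDomain
open Pool.Agent.SS.HB Pool.Agent.SS.J

private theorem law_phi2 {A : Type*} [CommRing A] (x y : A) :
    (PhiAt 2 x).eval y = Phi2 x y := by
  rw [PhiAt_two_eval]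
  unfold Phi2
  ring

/-- The conclusion for one prime `q`. -/
theorem law_core {K : Type} [Field K] [NumberField K] (W : WeierstrassCurve (𝓞 K))
    (hW : W.Δ ≠ 0) (him : ∀ σ : K →+* ℂ, (σ (jay W)).im ≠ 0) {q : ℕ} (hq : q.Prime)
    (h7 : 7 ≤ q) (hd : ¬ (q : ℤ) ∣ discr K)
    (hqn : ¬ (q : ℤ) ∣ Algebra.norm ℤ (W.c₄ * W.c₆ * (W.c₄ ^ 3 - 8000 * W.Δ))) {D : ℤ}
    (hD : (D : ℂ) = DD W) (hqD : ¬ (q : ℤ) ∣ D) (hne : (Sig q W).Nonempty) :
    {v : HeightOneSpectrum (𝓞 K) | SSRed W v}.Infinite := by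
  classical
  have : Fact q.Prime := ⟨hq⟩
  have h5 : 5 ≤ q := by omega
  obtain ⟨k, _, _, _, _, W₀, h₀, hj, hjj, hgen⟩ := exists_subfield W hW him
  obtain ⟨κ, _, _, ⟨red⟩⟩ := exists_place hq
  obtain ⟨v, hv⟩ := hne
  obtain ⟨n, hn, hss⟩ := exists_res h5 W v hv
  obtain ⟨v₀, hv₀⟩ := exists_under (k := k) v
  have hqcast : algebraMap (𝓞 k) (𝓞 K) (q : 𝓞 k) = (q : 𝓞 K) := map_natCast _ q
  have hn₀ : JMod W₀ v₀ n := jmod_down h₀ hW hj hv₀ hn
  have hqv₀ : (q : 𝓞 k) ∈ v₀.asIdeal := by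
    rw [hv₀, hqcast]
    exact hv.1
  have hv₀S : v₀ ∈ Sig q W₀ :=
    ⟨hqv₀, card_under hq hv₀ hv.2.1, pss_of_res h5 W₀ v₀ hqv₀ hn₀ hss⟩
  -- the places above `q` of `k`
  have hov : ∀ w : HeightOneSpectrum (𝓞 k), w ∈ Sig q W₀ →
      ∃ w' : HeightOneSpectrum (𝓞 K), (q : 𝓞 K) ∈ w'.asIdeal ∧
        ∀ x : 𝓞 k, x ∈ w.asIdeal ↔ algebraMap (𝓞 k) (𝓞 K) x ∈ w'.asIdeal := by
    intro w hw
    obtain ⟨w', hw'⟩ := exists_over (K := K) w
    refine ⟨w', ?_, hw'⟩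
    rw [← hqcast, ← hw']
    exact hw.1
  -- two different places have different residues
  have hsep : ∀ w : HeightOneSpectrum (𝓞 k), w ∈ Sig q W₀ → w ≠ v₀ → ∀ n₁ : ℤ,
      JMod W₀ w n₁ → (n : ZMod q) ≠ n₁ ∧ Phi2 (n : ZMod q) (n₁ : ZMod q) ≠ 0 := by
    intro w hw hwv n₁ hn₁
    obtain ⟨w', hqw', hw'⟩ := hov w hw
    obtain ⟨σ₀, hσ₀⟩ := exists_emb_place hq red v hv.1
    obtain ⟨σ₁, hσ₁⟩ := exists_emb_place hq red w' hqw'
    have hne : σ₀ (jay W) ≠ σ₁ (jay W) := by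
      intro he
      apply hwv
      have h1 : (σ₀.comp (algebraMap k K)) (jay W₀) = (σ₁.comp (algebraMap k K)) (jay W₀) := by
        rw [RingHom.comp_apply, RingHom.comp_apply, hjj]
        exact he
      have h2 := hgen _ _ h1
      apply HeightOneSpectrum.ext
      ext x
      rw [hw', hv₀, hσ₁, hσ₀]
      have h3 : σ₁ ((algebraMap (𝓞 k) (𝓞 K) x : 𝓞 K) : K) =
          σ₀ ((algebraMap (𝓞 k) (𝓞 K) x : 𝓞 K) : K) := by
        have h4 : ((algebraMap (𝓞 k) (𝓞 K) x : 𝓞 K) : K) = algebraMap k K (x : k) := rfl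
        rw [h4]
        exact (RingHom.congr_fun h2 (x : k)).symm
      rw [h3]
    exact residues_sep hq red W hW hD hqD (fun x hx => (hσ₀ x).1 hx)
      (fun x hx => (hσ₁ x).1 hx) hne hn (jmod_up h₀ hj hw' hn₁)
  apply inf_up hW hj
  refine inf_of_isolated W₀ h₀ hq h7 ?_ ?_ n ?_ ?_ ?_
  · intro w hw
    obtain ⟨w', hqw', hw'⟩ := hov w hw
    exact not_sq_under hw' (not_mem_sq hq hd w' hqw')
  · intro w hw
    obtain ⟨w', hqw', hw'⟩ := hov w hw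
    constructor
    · intro h
      have h1 := (nz_res hq W hqn hqw' (jmod_up h₀ hj hw' h)).1
      exact h1 (by simp)
    · intro h
      have h1 := (nz_res hq W hqn hqw' (jmod_up h₀ hj hw' h)).2.1
      exact h1 (by simp)
  · exact (nz_res hq W hqn hv.1 hn).2.2
  · have h1 : {w ∈ Sig q W₀ | JMod W₀ w n} = {v₀} := by
      ext w
      constructor
      · rintro ⟨h2, h3⟩
        by_contra h4
        exact (hsep w h2 h4 n h3).1 rfl
      · rintro rfl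
        exact ⟨hv₀S, hn₀⟩
    rw [h1, Set.ncard_singleton]
    exact odd_one
  · intro n₁ hn₁ hphi
    have h1 : {w ∈ Sig q W₀ | JMod W₀ w n₁} = ∅ := by
      rw [Set.eq_empty_iff_forall_notMem]
      rintro w ⟨h2, h3⟩
      have h4 : w ≠ v₀ := by
        rintro rfl
        exact hn₁ (res_unique W₀ h₀ w hqv₀ h3 hn₀)
      apply (hsep w h2 h4 n₁ h3).2
      rw [← law_phi2]
      exact hphi
    rw [h1, Set.ncard_empty]
    exact ⟨0, rfl⟩

theorem law {K : Type} [Field K] [NumberField K] (W : WeierstrassCurve (𝓞 K))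
    (hW : W.Δ ≠ 0) (him : ∀ σ : K →+* ℂ, (σ (jay W)).im ≠ 0)
    (h2 : ∀ σ τ : K →+* ℂ, σ (jay W) ≠ τ (jay W) → Phi2 (σ (jay W)) (τ (jay W)) ≠ 0) :
    ∃ N : ℤ, N ≠ 0 ∧ (N : ℂ) = bad W ∧ ∀ q : ℕ, q.Prime → ¬ (q : ℤ) ∣ N →
      (Sig q W).Nonempty → {v : HeightOneSpectrum (𝓞 K) | SSRed W v}.Infinite := by
  obtain ⟨D, hD⟩ := DD_int W hW
  have hb : ((30 * discr K *
      Algebra.norm ℤ (W.c₄ * W.c₆ * (W.c₄ ^ 3 - 8000 * W.Δ)) * D : ℤ) : ℂ) = bad W := by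
    unfold bad
    rw [← hD]
    push_cast
    ring
  refine ⟨_, ?_, hb, ?_⟩
  · intro h
    apply bad_ne W hW him h2
    rw [← hb, h]
    simp
  · intro q hq hqN hne
    have h30 : ¬ (q : ℤ) ∣ 30 := fun h => hqN (((h.mul_right _).mul_right _).mul_right _)
    have hqd : ¬ (q : ℤ) ∣ discr K := fun h =>
      hqN (((h.mul_left _).mul_right _).mul_right _)
    have hqn : ¬ (q : ℤ) ∣ Algebra.norm ℤ (W.c₄ * W.c₆ * (W.c₄ ^ 3 - 8000 * W.Δ)) := fun h =>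
      hqN ((h.mul_left _).mul_right _)
    have hqD : ¬ (q : ℤ) ∣ D := fun h => hqN (h.mul_left _)
    have h7 : 7 ≤ q := by
      by_contra hlt
      push Not at hlt
      have h2 := hq.two_le
      interval_cases q
      · exact h30 (by norm_num)
      · exact h30 (by norm_num)
      · exact absurd hq (by norm_num)
      · exact h30 (by norm_num)
      · exact absurd hq (by norm_num)
    exact law_core W hW him hq h7 hqd hqn hD hqD hne

end Pool.Agent.SS.ZI
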