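import Mathlib
import Pool.Agent.Work.MP_a5099b_nt.J.Stmt
import Pool.Agent.Work.MP_a5099b_nt.J.Ord
import Pool.Agent.Work.MP_a5099b_nt.SpecC
import Pool.Agent.Work.MP_a5099b_nt.ZI.Under

/-!
# Module ZI/Up (size S-M): infinitely many supersingular places over `k` give infinitely many over `K`

`ZI/Under` may be a stub.
* `ssred_up`: `SSRed W₀ v₀`: `p` prime, `p ∈ v₀`, the number of points of `W₀` modulo `v₀` is `1 mod p`. `p ≥ 5` because `p = 2, 3` are excluded (`h6`: `6 ∉ v`). `card_iff` over `𝓞 k / v₀` (see `not_mem_of_ordinary` in J/Ordn.lean for the instances, `WeierstrassCurve.map_Δ, map_c₄`): `SSj p (c₄^3 / Δ)` for `W₀` modulo `v₀`.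
The ring homomorphism of fields `𝓞 k / v₀ → 𝓞 K / v` (`Ideal.quotientMap`) maps `c₄^3 / Δ` of `W₀` to `c₄^3 / Δ` of `W` (`hj` modulo `v`; both `Δ` are not zero modulo `v`), so `SSj_map` and `card_iff` over `𝓞 K / v` give the claim.
* `inf_up`: `exists_over` gives an injective map `v₀ ↦ v` (`v ∩ 𝓞 k = v₀`). All but finitely many `v₀` with `SSRed W₀ v₀` have a `v` with `W.Δ ∉ v` and `6 ∉ v` (only finitely many `v` contain `6 * W.Δ ≠ 0`: `Ideal.finite_factors`, as in the proof of `main3` in J/Main3.lean), and then `SSRed W v` (`ssred_up`).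
-/

set_option autoImplicit false

namespace Pool.Agent.SS.ZI

open NumberField IsDedekindDomain

variable {k K : Type} [Field k] [NumberField k] [Field K] [NumberField K] [Algebra k K]

private theorem charP_quot' {L : Type} [Field L] [NumberField L] (v : HeightOneSpectrum (𝓞 L))
    {p : ℕ} (hp : p.Prime) (hpv : (p : 𝓞 L) ∈ v.asIdeal) : CharP (𝓞 L ⧸ v.asIdeal) p := by
  have : Nontrivial (𝓞 L ⧸ v.asIdeal) := Ideal.Quotient.nontrivial_iff.mpr v.isPrime.ne_top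
  have h0 : ((p : ℕ) : 𝓞 L ⧸ v.asIdeal) = 0 := by
    rw [← map_natCast (Ideal.Quotient.mk v.asIdeal)]
    exact Ideal.Quotient.eq_zero_iff_mem.mpr hpv
  exact (CharP.charP_iff_prime_eq_zero hp).mpr h0

/-- `SSRed` in terms of the invariant of the reduction. -/
private theorem ssred_iff {L : Type} [Field L] [NumberField L] (W : WeierstrassCurve (𝓞 L))
    (v : HeightOneSpectrum (𝓞 L)) {p : ℕ} (hp : p.Prime) (h5 : 5 ≤ p)
    (hpv : (p : 𝓞 L) ∈ v.asIdeal) (hΔ : W.Δ ∉ v.asIdeal) :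
    letI : Field (𝓞 L ⧸ v.asIdeal) := Ideal.Quotient.field v.asIdeal
    Nat.card (W.map (Ideal.Quotient.mk v.asIdeal)).toAffine.Point ≡ 1 [MOD p] ↔
      SSj p (Ideal.Quotient.mk v.asIdeal (W.c₄ ^ 3) / Ideal.Quotient.mk v.asIdeal W.Δ) := by
  classical
  let _ : Field (𝓞 L ⧸ v.asIdeal) := Ideal.Quotient.field v.asIdeal
  have : CharP (𝓞 L ⧸ v.asIdeal) p := charP_quot' v hp hpv
  have hfin : Finite (𝓞 L ⧸ v.asIdeal) := Ideal.finiteQuotientOfFreeOfNeBot v.asIdeal v.ne_bot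
  let _ : Fintype (𝓞 L ⧸ v.asIdeal) := Fintype.ofFinite _
  have hΔ0 : (W.map (Ideal.Quotient.mk v.asIdeal)).Δ ≠ 0 := by
    rw [WeierstrassCurve.map_Δ]
    exact fun h0 => hΔ (Ideal.Quotient.eq_zero_iff_mem.mp h0)
  have h2 := card_iff hp h5 (W.map (Ideal.Quotient.mk v.asIdeal)) hΔ0
  rw [WeierstrassCurve.map_Δ, WeierstrassCurve.map_c₄, ← map_pow] at h2
  exact h2

private theorem five_le {v : HeightOneSpectrum (𝓞 K)} (h6 : (6 : 𝓞 K) ∉ v.asIdeal) {p : ℕ}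
    (hp : p.Prime) (hpv : (p : 𝓞 K) ∈ v.asIdeal) : 5 ≤ p := by
  by_contra hlt
  push Not at hlt
  apply h6
  have hd : p ∣ 6 := by
    have h2 := hp.two_le
    interval_cases p
    · norm_num
    · norm_num
    · exact absurd hp (by norm_num)
  obtain ⟨c, hc⟩ := hd
  have h1 : (6 : 𝓞 K) = (p : 𝓞 K) * (c : 𝓞 K) := by
    rw [← Nat.cast_mul, ← hc]
    norm_num
  rw [h1]
  exact Ideal.mul_mem_right _ _ hpv

theorem ssred_up {W₀ : WeierstrassCurve (𝓞 k)} {W : WeierstrassCurve (𝓞 K)}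
    (hj : algebraMap (𝓞 k) (𝓞 K) (W₀.c₄ ^ 3) * W.Δ =
      W.c₄ ^ 3 * algebraMap (𝓞 k) (𝓞 K) W₀.Δ) {v₀ : HeightOneSpectrum (𝓞 k)}
    {v : HeightOneSpectrum (𝓞 K)}
    (hv : ∀ x : 𝓞 k, x ∈ v₀.asIdeal ↔ algebraMap (𝓞 k) (𝓞 K) x ∈ v.asIdeal)
    (h6 : (6 : 𝓞 K) ∉ v.asIdeal) (hΔ : W.Δ ∉ v.asIdeal) (h : SSRed W₀ v₀) : SSRed W v := by
  obtain ⟨hΔ0, p, hp, hpv0, hcard⟩ := h
  have hpv : (p : 𝓞 K) ∈ v.asIdeal := by
    have := (hv (p : 𝓞 k)).1 hpv0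
    rwa [map_natCast] at this
  have h5 : 5 ≤ p := five_le h6 hp hpv
  refine ⟨hΔ, p, hp, hpv, ?_⟩
  let _ : Field (𝓞 k ⧸ v₀.asIdeal) := Ideal.Quotient.field v₀.asIdeal
  let _ : Field (𝓞 K ⧸ v.asIdeal) := Ideal.Quotient.field v.asIdeal
  have : CharP (𝓞 k ⧸ v₀.asIdeal) p := charP_quot' v₀ hp hpv0
  have : CharP (𝓞 K ⧸ v.asIdeal) p := charP_quot' v hp hpv
  have h1 := (ssred_iff W₀ v₀ hp h5 hpv0 hΔ0).1 hcard
  refine (ssred_iff W v hp h5 hpv hΔ).2 ?_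
  let φ : 𝓞 k ⧸ v₀.asIdeal →+* 𝓞 K ⧸ v.asIdeal :=
    Ideal.quotientMap v.asIdeal (algebraMap (𝓞 k) (𝓞 K)) (fun x hx => (hv x).1 hx)
  have hφ : ∀ x : 𝓞 k, φ (Ideal.Quotient.mk v₀.asIdeal x) =
      Ideal.Quotient.mk v.asIdeal (algebraMap (𝓞 k) (𝓞 K) x) := fun x =>
    Ideal.quotientMap_mk
  have hd0 : Ideal.Quotient.mk v₀.asIdeal W₀.Δ ≠ 0 := fun h0 =>
    hΔ0 (Ideal.Quotient.eq_zero_iff_mem.mp h0)
  have hd1 : Ideal.Quotient.mk v.asIdeal W.Δ ≠ 0 := fun h0 =>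
    hΔ (Ideal.Quotient.eq_zero_iff_mem.mp h0)
  have hd2 : Ideal.Quotient.mk v.asIdeal (algebraMap (𝓞 k) (𝓞 K) W₀.Δ) ≠ 0 := fun h0 =>
    hΔ0 ((hv _).2 (Ideal.Quotient.eq_zero_iff_mem.mp h0))
  have key : φ (Ideal.Quotient.mk v₀.asIdeal (W₀.c₄ ^ 3) / Ideal.Quotient.mk v₀.asIdeal W₀.Δ) =
      Ideal.Quotient.mk v.asIdeal (W.c₄ ^ 3) / Ideal.Quotient.mk v.asIdeal W.Δ := by
    rw [map_div₀, hφ, hφ, div_eq_div_iff hd2 hd1, ← map_mul, ← map_mul, hj]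
  rw [← key]
  exact (SSj_map hp h5 φ _).2 h1

theorem inf_up {W₀ : WeierstrassCurve (𝓞 k)} {W : WeierstrassCurve (𝓞 K)} (hW : W.Δ ≠ 0)
    (hj : algebraMap (𝓞 k) (𝓞 K) (W₀.c₄ ^ 3) * W.Δ =
      W.c₄ ^ 3 * algebraMap (𝓞 k) (𝓞 K) W₀.Δ)
    (h : {v : HeightOneSpectrum (𝓞 k) | SSRed W₀ v}.Infinite) :
    {v : HeightOneSpectrum (𝓞 K) | SSRed W v}.Infinite := by
  choose f hf using fun v₀ : HeightOneSpectrum (𝓞 k) => exists_over (K := K) v₀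
  have hinj : Function.Injective f := by
    intro a b hab
    apply HeightOneSpectrum.ext
    ext x
    rw [hf a x, hab, ← hf b x]
  have h1 : (f '' {v : HeightOneSpectrum (𝓞 k) | SSRed W₀ v}).Infinite :=
    h.image hinj.injOn
  have h60 : (6 : 𝓞 K) * W.Δ ≠ 0 := mul_ne_zero (by norm_num) hW
  have hfin : {v : HeightOneSpectrum (𝓞 K) | (6 : 𝓞 K) * W.Δ ∈ v.asIdeal}.Finite := by
    have hI : Ideal.span {(6 : 𝓞 K) * W.Δ} ≠ 0 := by
      rw [Ne, Ideal.zero_eq_bot, Ideal.span_singleton_eq_bot]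
      exact h60
    apply (Ideal.finite_factors hI).subset
    intro v hv
    show v.asIdeal ∣ Ideal.span {(6 : 𝓞 K) * W.Δ}
    rw [Ideal.dvd_span_singleton]
    exact hv
  refine (h1.sdiff hfin).mono ?_
  rintro _ ⟨⟨v₀, hv₀, rfl⟩, hbad⟩
  refine ssred_up hj (hf v₀) ?_ ?_ hv₀
  · intro h6
    exact hbad (Ideal.mul_mem_right _ _ h6)
  · intro hΔ
    exact hbad (Ideal.mul_mem_left _ _ hΔ)

end Pool.Agent.SS.ZI
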